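import Pool.Agent.Lib.MP_1aae89_al.W4.SpecA
import Pool.Agent.Lib.MP_1aae89_al.W3.SpecC

/-!
# Specifications, part B: the criterion `CrtF`; groups with an abelian normal Sylow intersection

THEOREM W4B. `Z` finite, `F` normal in `Z`, `P` a Sylow `p`-subgroup of `Z`, `Z = F P`, `Q = P ∩ F` abelian
and `|N_F(Q) : C_F(Q)| < p`. Then `CrtF p P`; so `Z` is `Good p b` for all `b ≥ 2` (CFC, GCF).

PROOF. (SQC, SQD, TRN, INV) If `w` is a `p`-element of `Z` then the `w`-invariant Sylow `p`-subgroups of `F`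
are conjugate under `C_F(w)`. (FUA) So if `x`, `g x g⁻¹ ∈ P` then `g x g⁻¹ = n x n⁻¹` for some `n`
normalizing `Q`. (WTP) `P` acts trivially on `N_F(Q)/C_F(Q)`, a group of order `< p`, and each
`h ∈ N_F(Q)` is in `Γ C_F(Q)`, `Γ = {h ∈ N_F(Q) : [h, P] ≤ Q}`. (CNQ) Elements of `C_F(Q)` do not fuse
elements of `P` modulo `Φ(P)`. (CFC) So `RelF` is given by the action of `Γ/(Γ ∩ C_F(Q))`, a group of order
less than `p`, on `P/Φ(P)`.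
-/

set_option autoImplicit false

namespace Pool.Agent.Lib.MP_1aae89_al.W4

open Pool.Agent.Lib.MP_1aae89_al Pool.Agent.Lib.MP_1aae89_al.BF Pool.Agent.Lib.MP_1aae89_al.W3 Finset
open Pool.Agent.Lib.MP_1aae89_al.W (GC LD nR)
open Pool.Agent.Lib.MP1aae89 (Pex)

/-! ## The criterion and good groups -/

/-- CRF. Lifting the criterion: `f : Y → X` injective on `P` (compare `W3/CRL.lean`).
PROOF. `Fq p P u v` implies `Fq p (f P) (f u) (f v)` (pull back the characters), so `FE`, `RelF` are mapped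
to `FE`, `RelF` (`Relation.ReflTransGen.lift`); `nF` is the same (`P ≅ f(P)`). Take the preimages in `P` of
the elements of `A`. -/
def SpecCRF : Prop := ∀ (p : ℕ) {X Y : Type} [Group X] [Finite X] [Group Y] [Finite Y]
  (f : Y →* X) (P : Subgroup Y), (∀ x ∈ P, f x = 1 → x = 1) → CrtF p (P.map f) → CrtF p P

/-- CJG. The criterion for a conjugate subgroup (compare `CRJ` in `W3/CRL.lean`). -/
def SpecCJG : Prop := ∀ (p : ℕ) {X : Type} [Group X] [Finite X] (P P' : Subgroup X) (g : X),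
  (∀ x, x ∈ P' ↔ g⁻¹ * x * g ∈ P) → CrtF p P → CrtF p P'

/-- GCF. Groups which satisfy the criterion are good (compare `W3/GCR.lean`).
PROOF. Let `f : Y → Z` be as in `Good`, `P'` a Sylow `p`-subgroup of `Y`. `f` is injective on `P'`, and
`f(P')` is a Sylow `p`-subgroup of `Z` (orders), conjugate to `P`, so it satisfies `CrtF` (CJG), and `P'`
satisfies it by CRF; use FNF. -/
def SpecGCF : Prop := ∀ (p b : ℕ), p.Prime → 2 ≤ b → ∀ {Z : Type} [Group Z] [Finite Z]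
  (P : Subgroup Z), Nat.card P = p ^ (Nat.card Z).factorization p → CrtF p P → Good p b Z

/-! ## Invariant Sylow subgroups -/

/-- SQC. The order of `C_Q(w)` does not depend on the `w`-invariant abelian Sylow subgroup `Q` of `F`.
PROOF. `W = ⟨w⟩` is a `p`-group; `Q W`, `Q' W` are Sylow `p`-subgroups of `F W` (their order is
`|Q| |W : W ∩ F|`, because `W ∩ F` is a `p`-group normalizing `Q`, contained in `Q`), so `Q' W = g Q W g⁻¹`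
with `g ∈ F W`; as `W` normalizes `Q W` we may take `g ∈ F`. Intersect with `F`: `Q' = g Q g⁻¹`
(`F ∩ Q W = Q (F ∩ W) = Q`). `g w g⁻¹ ∈ Q' W ∩ F w = Q' w`, so `g w g⁻¹ = z w`, `z ∈ Q'`; `z` centralizes
`Q'`, so `g C_Q(w) g⁻¹ = C_(Q')(z w) = C_(Q')(w)`. -/
def SpecSQC : Prop := ∀ (p : ℕ), p.Prime → ∀ {X : Type} [Group X] [Finite X] (F : Subgroup X)
  [F.Normal] (w : X), (∃ k : ℕ, w ^ p ^ k = 1) → ∀ Q Q' : Subgroup X, Q ≤ F → Q' ≤ F →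
  Nat.card Q = p ^ (Nat.card F).factorization p → Nat.card Q' = p ^ (Nat.card F).factorization p →
  (∀ x ∈ Q, ∀ y ∈ Q, x * y = y * x) → (∀ x ∈ Q, w * x * w⁻¹ ∈ Q) → (∀ x ∈ Q', w * x * w⁻¹ ∈ Q') →
  Nat.card {x : X // x ∈ Q ∧ w * x = x * w} = Nat.card {x : X // x ∈ Q' ∧ w * x = x * w}

/-- SQD. `C_Q(w)` is a Sylow `p`-subgroup of `C_F(w)`.
PROOF. `R W` is a `p`-subgroup of `F W`, `W = ⟨w⟩`, contained in a Sylow `p`-subgroup `P'` of `F W`;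
`Q' = P' ∩ F` is a `w`-invariant Sylow `p`-subgroup of `F` which contains `R`; `R ≤ C_(Q')(w)`, and SQC. (`Q'`
is conjugate to `Q` in `F`.) -/
def SpecSQD : Prop := ∀ (p : ℕ), p.Prime → ∀ {X : Type} [Group X] [Finite X] (F : Subgroup X)
  [F.Normal] (w : X), (∃ k : ℕ, w ^ p ^ k = 1) → ∀ Q : Subgroup X, Q ≤ F →
  Nat.card Q = p ^ (Nat.card F).factorization p →
  (∀ x ∈ Q, ∀ y ∈ Q, x * y = y * x) → (∀ x ∈ Q, w * x * w⁻¹ ∈ Q) →
  ∀ R : Subgroup X, R ≤ F → IsPGroup p R → (∀ x ∈ R, w * x = x * w) →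
  Nat.card R ≤ Nat.card {x : X // x ∈ Q ∧ w * x = x * w}

/-- TRN. Transfer.
PROOF. Let `τ : D → Q` be the transfer (`MonoidHom.transfer` for `Q → Q`, `Q` commutative). It commutes with
`θ` (`θ` maps a transversal to a transversal), and `τ x = x^|D : Q|` for central `x`
(`MonoidHom.transfer_eq_pow`). So the kernel `V` of `τ|Q` is mapped to itself by `θ`, and a fixed point of
`θ` in `V` is central in `D`, so it is `1` (`|D : Q|` is prime to `p`). As `θ` has `p`-power order and `V`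
is a `p`-group, `V = 1` (the number of fixed points is `≡ |V|` modulo `p`). So `τ|Q` is bijective, and
`U = ker τ` is a normal complement of `Q`: for `d ∈ D` choose `x ∈ Q` with `τ x = τ d`, `d = (d x⁻¹) x`.
`|U| = |D : Q|` is prime to `p`, and `θ` maps `U` to itself. -/
def SpecTRN : Prop := ∀ (p : ℕ), p.Prime → ∀ {D : Type} [Group D] [Finite D] (Q : Subgroup D),
  Nat.card Q = p ^ (Nat.card D).factorization p → (∀ x ∈ Q, ∀ y ∈ Q, x * y = y * x) →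
  ∀ θ : D ≃* D, (∀ x ∈ Q, θ x ∈ Q) → (∃ k : ℕ, ∀ x, θ^[p ^ k] x = x) →
  (∀ x ∈ Q, θ x = x → ∀ d, x * d = d * x) →
  ∃ U : Subgroup D, U.Normal ∧ (Nat.card U).Coprime p ∧ (∀ d, ∃ u ∈ U, ∃ x ∈ Q, d = u * x) ∧
    ∀ u ∈ U, θ u ∈ U

/-- INV. Invariant Sylow subgroups are conjugate under `C_F(w)`.
PROOF. By SQD `C_Q(w)` and `C_(Q')(w)` are Sylow `p`-subgroups of `C_F(w)`, so after replacing `Q'` by a
conjugate under `C_F(w)` we may assume that `C_Q(w) = C_(Q')(w) = Q₁`. `D = C_F(Q₁)` contains `Q` and `Q'`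
(they are abelian), and `w` normalizes `D`. By TRN for `D`, `Q` and conjugation by `w` we have `D = U Q`,
`U` a normal `w`-invariant subgroup of `D` of order prime to `p`. `Q' = u₀ Q u₀⁻¹` for some `u₀ ∈ D`
(Sylow), and we may take `u₀ ∈ U`. Let `Ω = {u ∈ U : u Q u⁻¹ = Q'}`, a coset of `N_U(Q)`, so `|Ω|` is prime
to `p`; conjugation by `w` maps `Ω` to itself, so it has a fixed point `u` (`w` is a `p`-element): `u`
commutes with `w`; `c = u⁻¹`. -/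
def SpecINV : Prop := ∀ (p : ℕ), p.Prime → ∀ {X : Type} [Group X] [Finite X] (F : Subgroup X)
  [F.Normal] (w : X), (∃ k : ℕ, w ^ p ^ k = 1) → ∀ Q Q' : Subgroup X, Q ≤ F → Q' ≤ F →
  Nat.card Q = p ^ (Nat.card F).factorization p → Nat.card Q' = p ^ (Nat.card F).factorization p →
  (∀ x ∈ Q, ∀ y ∈ Q, x * y = y * x) → (∀ x ∈ Q, w * x * w⁻¹ ∈ Q) → (∀ x ∈ Q', w * x * w⁻¹ ∈ Q') →
  ∃ c ∈ F, w * c = c * w ∧ ∀ x, x ∈ Q' ↔ c * x * c⁻¹ ∈ Q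

/-! ## Fusion -/

/-- FUA. Fusion in `P` is controlled by the normalizer of `P ∩ F`.
PROOF. `Q = P ∩ F` is a Sylow `p`-subgroup of `F`, normalized by `P`. `g = h y` with `h ∈ F`, `y ∈ P`
(`F ⊔ P = ⊤`, `F` normal). Let `x₁ = y x y⁻¹ ∈ P`, `w = h x₁ h⁻¹ = g x g⁻¹ ∈ P`. `Q' = h Q h⁻¹` and `Q` are
`w`-invariant, so by INV there is `c ∈ F` with `w c = c w`, `c Q' c⁻¹ = Q`. `n = c h y`: `c h` normalizes
`Q`, `y` normalizes `Q`, and `n x n⁻¹ = c w c⁻¹ = w`. -/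
def SpecFUA : Prop := ∀ (p : ℕ), p.Prime → ∀ {X : Type} [Group X] [Finite X] (P F : Subgroup X)
  [F.Normal], Nat.card P = p ^ (Nat.card X).factorization p → F ⊔ P = ⊤ →
  (∀ x ∈ P ⊓ F, ∀ y ∈ P ⊓ F, x * y = y * x) → ∀ x ∈ P, ∀ g : X, g * x * g⁻¹ ∈ P →
  ∃ n : X, (∀ z ∈ P ⊓ F, n * z * n⁻¹ ∈ P ⊓ F) ∧ n * x * n⁻¹ = g * x * g⁻¹

/-- WTP. Each `h ∈ N_F(Q)` is in `Γ C_F(Q)`, `Q = P ∩ F`.
PROOF. `P` acts by conjugation on the set `N_F(Q)/C_F(Q)`, which has less than `p` elements, so all orbits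
(of `p`-power size) are trivial: `y h y⁻¹ ∈ h C_F(Q)` for `y ∈ P`. So `P` acts by conjugation on the set
`{h c Q : c ∈ C_F(Q)}` of cosets of `Q`, which has `|C_F(Q) : Q|` elements, a number prime to `p` (`Q` is a
Sylow subgroup of `F`); so there is a fixed point: `y h c y⁻¹ ∈ h c Q` for all `y ∈ P`, and `h c`
normalizes `Q`, so `(h c) y (h c)⁻¹ y⁻¹ ∈ Q`. -/
def SpecWTP : Prop := ∀ (p : ℕ), p.Prime → ∀ {X : Type} [Group X] [Finite X] (P F : Subgroup X)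
  [F.Normal], Nat.card P = p ^ (Nat.card X).factorization p →
  (∀ x ∈ P ⊓ F, ∀ y ∈ P ⊓ F, x * y = y * x) →
  Nat.card {g : X // g ∈ F ∧ ∀ x ∈ P ⊓ F, g * x * g⁻¹ ∈ P ⊓ F} <
    p * Nat.card {g : X // g ∈ F ∧ ∀ x ∈ P ⊓ F, g * x * g⁻¹ = x} →
  ∀ h ∈ F, (∀ x ∈ P ⊓ F, h * x * h⁻¹ ∈ P ⊓ F) →
  ∃ c ∈ F, (∀ x ∈ P ⊓ F, c * x * c⁻¹ = x) ∧ ∀ y ∈ P, (h * c) * y * (h * c)⁻¹ * y⁻¹ ∈ P ⊓ F

/-- CNQ. Elements of `C_F(Q)` do not fuse, `Q = P ∩ F`.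
PROOF. `C = C_F(Q)` is normalized by `P`, and `Q` is a central Sylow `p`-subgroup of `C`. So `C = Q U`, `U`
the set of the elements of `C` of order prime to `p`, a normal subgroup of `C`, normalized by `P` (TRN for
`θ = id`, or `MonoidHom.ker_transferSylow_isComplement'`, or Schur-Zassenhaus). `c = z u`, `z ∈ Q`,
`u ∈ U`: `u x u⁻¹ = z⁻¹ (c x c⁻¹) z ∈ P`, and `u x u⁻¹ x⁻¹ ∈ U ∩ P = 1` (`x u⁻¹ x⁻¹ ∈ U`); so
`c x c⁻¹ = z x z⁻¹`. (2) The same argument: `u y u⁻¹ y⁻¹ ∈ U`, and it is in `P`, so it is `1`. -/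
def SpecCNQ : Prop := ∀ (p : ℕ), p.Prime → ∀ {X : Type} [Group X] [Finite X] (P F : Subgroup X)
  [F.Normal], Nat.card P = p ^ (Nat.card X).factorization p →
  (∀ x ∈ P ⊓ F, ∀ y ∈ P ⊓ F, x * y = y * x) →
  ∀ c ∈ F, (∀ x ∈ P ⊓ F, c * x * c⁻¹ = x) →
  (∀ x ∈ P, c * x * c⁻¹ ∈ P → ∃ z ∈ P ⊓ F, c * x * c⁻¹ = z * x * z⁻¹) ∧
  ((∀ y ∈ P, c * y * c⁻¹ ∈ P) → ∃ z ∈ P ⊓ F, ∀ y ∈ P, c * y * c⁻¹ = z * y * z⁻¹)

/-- FEG. Fusion is given by `Γ = {h ∈ N_F(Q) : [h, P] ≤ Q}`, `Q = P ∩ F`.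
PROOF. For `FE`: let `Fq u x`, `Fq (g x g⁻¹) v`. By FUA `g x g⁻¹ = n x n⁻¹`, `n` normalizing `Q`. `n = y h`,
`y ∈ P`, `h ∈ F`; `h` normalizes `Q`; `h x h⁻¹ = y⁻¹ (g x g⁻¹) y ∈ P` is congruent to `g x g⁻¹`
(`α(y⁻¹ z y) = α(z)`). By WTP `h c ∈ Γ` for some `c ∈ C_F(Q)`; `h' = h c`, `h = h' c⁻¹`. `Γ` normalizes
`P`, so `c⁻¹ x c = h'⁻¹ (h x h⁻¹) h' ∈ P` (`h'` maps `P` onto `P`), so by CNQ `c⁻¹ x c = z x z⁻¹` is
congruent to `x`, and to `u`. As `h'` normalizes `P`, conjugation by `h'` preserves `Fq` (compose `α` with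
it): `v ≡ h x h⁻¹ = h' (c⁻¹ x c) h'⁻¹ ≡ h' u h'⁻¹`. `RelF`: induction, the product of elements of `Γ` is in
`Γ`. -/
def SpecFEG : Prop := ∀ (p : ℕ), p.Prime → ∀ {X : Type} [Group X] [Finite X] (P F : Subgroup X)
  [F.Normal], Nat.card P = p ^ (Nat.card X).factorization p → F ⊔ P = ⊤ →
  (∀ x ∈ P ⊓ F, ∀ y ∈ P ⊓ F, x * y = y * x) →
  Nat.card {g : X // g ∈ F ∧ ∀ x ∈ P ⊓ F, g * x * g⁻¹ ∈ P ⊓ F} <
    p * Nat.card {g : X // g ∈ F ∧ ∀ x ∈ P ⊓ F, g * x * g⁻¹ = x} →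
  ∀ u ∈ P, ∀ v, RelF p P u v → ∃ h ∈ F, (∀ x ∈ P ⊓ F, h * x * h⁻¹ ∈ P ⊓ F) ∧
    (∀ y ∈ P, h * y * h⁻¹ * y⁻¹ ∈ P ⊓ F) ∧ Fq p P (h * u * h⁻¹) v

/-- CFC. The criterion if the automizer of `Q = P ∩ F` in `F` has order less than `p`, `X = F P`.
PROOF. Let `Γ = {h ∈ N_F(Q) : [h, P] ≤ Q}`, a subgroup, `Γ₀ = Γ ∩ C_F(Q)`. By CNQ (2) the elements of `Γ₀`
act on `P` as elements of `Q`, so trivially modulo `Φ(P)`; so for fixed `u ∈ P` the number of the classes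
modulo `Φ(P)` of the elements `h u h⁻¹`, `h ∈ Γ`, is at most `w = |Γ : Γ₀| ≤ |N_F(Q) : C_F(Q)| < p`
(`w ≥ 1`). Let `A ⊆ P` be a set of representatives of the classes of `RelF` in `P`. `P/Φ(P)` has `nF p P`
elements (duality: the map `P → Hom(AF p P, ℂˣ)` is surjective; or: the number of classes of `Fq` is the
order of the finite group `P/Φ`, `Φ = ∩_{α ∈ A} ker α`, whose characters are the elements of `AF p P`), and
by FEG each class of `RelF` is the union of at most `w` of them: `nF p P ≤ w |A| < p |A|`. -/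
def SpecCFC : Prop := ∀ (p : ℕ), p.Prime → ∀ {X : Type} [Group X] [Finite X] (P F : Subgroup X)
  [F.Normal], Nat.card P = p ^ (Nat.card X).factorization p → F ⊔ P = ⊤ →
  (∀ x ∈ P ⊓ F, ∀ y ∈ P ⊓ F, x * y = y * x) →
  Nat.card {g : X // g ∈ F ∧ ∀ x ∈ P ⊓ F, g * x * g⁻¹ ∈ P ⊓ F} <
    p * Nat.card {g : X // g ∈ F ∧ ∀ x ∈ P ⊓ F, g * x * g⁻¹ = x} → CrtF p P

/-- CYN. The automizer of a cyclic Sylow subgroup has order less than `p`.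
PROOF. `cyc_lt` (`W/CYC.lean`) for `F`, `q = 1` and the Sylow subgroup `Q = P ∩ F` of `F`. -/
def SpecCYN : Prop := ∀ (p : ℕ), p.Prime → ∀ {X : Type} [Group X] [Finite X] (P F : Subgroup X)
  [F.Normal], Nat.card P = p ^ (Nat.card X).factorization p →
  (∃ x₀ ∈ P ⊓ F, ∀ y ∈ P ⊓ F, ∃ j : ℕ, y = x₀ ^ j) →
  Nat.card {g : X // g ∈ F ∧ ∀ x ∈ P ⊓ F, g * x * g⁻¹ ∈ P ⊓ F} <
    p * Nat.card {g : X // g ∈ F ∧ ∀ x ∈ P ⊓ F, g * x * g⁻¹ = x}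

/-! ## The chain theorem -/

/-- GQV. The factor groups are good (compare `W3/GQU.lean`).
PROOF. `Z = X/H`, `F' = F/H`, `P' = P H/H`, a Sylow subgroup of `Z`, `F' ⊔ P' = ⊤`. (1) GPG. (2) GBD. (3)
`P' ∩ F'` is the image of `P ∩ F` (because `H ≤ F`), abelian; CFC, or CYN and CFC (the sets of `Stq'` are the
preimages of the sets of CFC, so their orders are `|H|` times as large), and GCF. (4) as in `W3/GQU.lean`
(CRM, GCR). (5) GCF. -/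
def SpecGQV : Prop := ∀ (p b : ℕ), p.Prime → 2 ≤ b → ∀ {X : Type} [Group X] [Finite X]
  (P H F : Subgroup X) [H.Normal] [F.Normal], H ≤ F → F ⊔ P = ⊤ →
  Nat.card P = p ^ (Nat.card X).factorization p → Stq' p b P H F → Good p b (X ⧸ H)

/-- STG. One step of the chain, for good factors (compare `W3/STE.lean`; only the use of GQU is replaced by
the hypothesis). -/
def SpecSTG : Prop := ∀ (p b : ℕ), p.Prime → 2 ≤ b → ∀ {M : Type} [Group M] [Finite M]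
  (P : Subgroup M), Nat.card P = p ^ (Nat.card M).factorization p → ∀ K K' : Subgroup M, K ≤ K' →
  (∀ g ∈ K', ∀ x ∈ K, g * x * g⁻¹ ∈ K) → (∀ g ∈ P, ∀ x ∈ K, g * x * g⁻¹ ∈ K) →
  (∀ g ∈ P, ∀ x ∈ K', g * x * g⁻¹ ∈ K') →
  (∀ [_hN : (K.subgroupOf (K' ⊔ P)).Normal], Good p b (↥(K' ⊔ P) ⧸ K.subgroupOf (K' ⊔ P))) →
  (∀ b' : ℕ, b ≤ b' → IC p b' ↥(K ⊔ P)) → ∀ b' : ℕ, b ≤ b' → IC p b' ↥(K' ⊔ P)

/-- CHG. The chain, for good factors. PROOF. Induction on `i` with BAS (`W3`) and STG;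
`K m ⊔ P = ⊤ ≅ M` (ISO). (Compare `W3/CHN.lean`.) -/
def SpecCHG : Prop := ∀ (p b : ℕ), p.Prime → 2 ≤ b → ∀ {M : Type} [Group M] [Finite M]
  (P : Subgroup M), Nat.card P = p ^ (Nat.card M).factorization p → ∀ (m : ℕ) (K : ℕ → Subgroup M),
  (∀ i < m, K i ≤ K (i + 1)) → (∀ i < m, ∀ g ∈ K (i + 1), ∀ x ∈ K i, g * x * g⁻¹ ∈ K i) →
  (∀ i ≤ m, ∀ g ∈ P, ∀ x ∈ K i, g * x * g⁻¹ ∈ K i) → K m = ⊤ → Fxd p b (K 0) →
  (∀ i < m, ∀ [_hN : ((K i).subgroupOf (K (i + 1) ⊔ P)).Normal],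
    Good p b (↥(K (i + 1) ⊔ P) ⧸ (K i).subgroupOf (K (i + 1) ⊔ P))) → IC p b M

/-- STV. The factors of a series with the conditions `Stp'` are good.
PROOF. `X = K' ⊔ P` (as a type), `H = K.subgroupOf X`, `F = K'.subgroupOf X`, `P_X = P.subgroupOf X`;
`Stp'` for `M` gives `Stq'` for `X`; GQV. (Compare `W3/STE.lean`.) -/
def SpecSTV : Prop := ∀ (p b : ℕ), p.Prime → 2 ≤ b → ∀ {M : Type} [Group M] [Finite M]
  (P : Subgroup M), Nat.card P = p ^ (Nat.card M).factorization p → ∀ K K' : Subgroup M, K ≤ K' →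
  (∀ g ∈ K', ∀ x ∈ K, g * x * g⁻¹ ∈ K) → (∀ g ∈ P, ∀ x ∈ K, g * x * g⁻¹ ∈ K) →
  (∀ g ∈ P, ∀ x ∈ K', g * x * g⁻¹ ∈ K') → Stp' p b P K K' →
  ∀ [_hN : (K.subgroupOf (K' ⊔ P)).Normal], Good p b (↥(K' ⊔ P) ⧸ K.subgroupOf (K' ⊔ P))

end Pool.Agent.Lib.MP_1aae89_al.W4
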