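import Pool.Agent.Lib.MP_1aae89_al.W4.Defs

/-!
# Specifications: the main inequality for arbitrary Sylow subgroups

THEOREM W4A. `X` finite, `P` a Sylow `p`-subgroup of `X` (any), `b ≥ 2`, `q = p^(b-1)`, `χ` an irreducible
character of `X` of degree prime to `p` and of level at most `b` (`FX p s0 b χ`), `K : X → ℂˣ` a
homomorphism with `K^p = 1` such that `χ(y^(1 + s0 q)) ≠ K(y) χ(y)` for some `y`. If the equivalence
relation on `P` generated by conjugacy in `X` and congruence modulo `Φ(P)` has more than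
`|P : Φ(P)|/p` classes (`CrtF p P`), then `p` divides `dl q (χ|P) (K|P)`.

The proof is that of Theorem W2 (`W3/SpecA.lean`, all modules proved in `W3/`), with `P₁` replaced by
`Φ(P)`: many modules here are copies of those of `W3/`; their proofs can be copied.
NOTATION as in `W3/SpecA.lean`: `avK = (1/p) ∑_{i<p} K^(-i) χ_i`, `χ_i(y) = χ(y^(1 + s0 q i))`;
`A = AF p P` is the group of the linear characters `α` of `P` with `α^p = 1`, `N = nF p P = |A|`;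
`Fq p P u v` (also written `u ≡ v`) means `u, v ∈ P`, `α u = α v` for all `α ∈ A`.

PROOF. (NRF) The mean value of `|avK|²` is at most `1/p`. (NVF) If `p ∤ dl` then for each `u ∈ P` there is
`w ≡ u` with `avK(w) ≠ 0`. (INF) For `u ∈ P` let `SecF u` be the set of the `y ∈ X` whose `p`-part is
conjugate to an element of `P` in the class of `u`; `BBF u = (N/|X|) ∑_{y ∈ SecF u} |avK y|²` is an
algebraic integer. (GLF, CYF, POF) Its Galois conjugates are the `BBF (u^k)`, positive by NVF. So the mean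
value of `BBF` on a Galois orbit is at least `1`; (UPF) the sum over pairwise inequivalent `u` is at most
`N/p`. (FNF) So there are at most `N/p` classes.
-/

set_option autoImplicit false

namespace Pool.Agent.Lib.MP_1aae89_al.W4

open Pool.Agent.Lib.MP_1aae89_al Pool.Agent.Lib.MP_1aae89_al.BF Pool.Agent.Lib.MP_1aae89_al.W3 Finset
open Pool.Agent.Lib.MP_1aae89_al.W (GC LD nR)
open Pool.Agent.Lib.MP1aae89 (Pex)

/-! ## The norm -/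

/-- CJF. As CJ2 (`W3/CJ2.lean`), with `Hz` for `Hy` (the proof does not use `comm`, `kq`). -/
def SpecCJF : Prop := ∀ (p L s0 b : ℕ) {X : Type} [Group X] [Finite X] (P : Subgroup X) (χ : X → ℂ)
  (K : Lin X), Hz p L s0 b P χ K →
  ∀ y, avK p s0 b χ K y⁻¹ = (starRingEnd ℂ) (avK p s0 b χ K y)

/-- NRF. As NR2 (`W3/NR2.lean`), with `Hz` for `Hy` (the proof does not use `comm`, `kq`). -/
def SpecNRF : Prop := ∀ (p L s0 b : ℕ) {X : Type} [Group X] [Fintype X] (P : Subgroup X) (n : ℕ)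
  (r : X →* Matrix (Fin n) (Fin n) ℂ) (K : Lin X), Sch r → n ≠ 0 →
  Hz p L s0 b P (fun y => (r y).trace) K →
  (∃ y, (r (y ^ (1 + s0 * p ^ (b - 1)))).trace ≠ (K y : ℂ) * (r y).trace) →
  ∑ y, ‖avK p s0 b (fun y => (r y).trace) K y‖ ^ 2 ≤ (Fintype.card X : ℝ) / p

/-- NVF. Nonvanishing.
PROOF. `Λ = {η ∈ Lin P : η^q = K|P}`, `D(u) = ∑_{η ∈ Λ} ml (χ|P) η · η(u)` is a character of `P` of degree
`dl` (or `0`), so if `p ∤ dl` then `D(u) ≠ 0` for `u ∈ P` (`W.SpecNVZ`, proved in `W/NVZ.lean`). For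
`η ∈ Λ`, `i < p` and `w ∈ P`: `w^(1 + s0 q i) = w^(1 + q i)` (`w^s0 = w`), and
`K(w)^(-i) η(w)⁻¹ = η(w^(1 + q i))⁻¹`, so, as `w ↦ w^(1 + q i)` is a bijection of `P`,
`∑_w K(w)^(-i) χ(w^(1 + q i)) η(w)⁻¹ = ∑_w χ(w) η(w)⁻¹ = |P| ml (χ|P) η`; hence
`|P| ml (χ|P) η = ∑_w avK(w) η(w)⁻¹` and `|P| D(u) = ∑_w avK(w) ∑_{η ∈ Λ} η(w⁻¹ u)`. If `D(u) ≠ 0` there
is `w` with `avK(w) ≠ 0` and `∑_{η ∈ Λ} η(w⁻¹ u) ≠ 0`. If `α ∈ A` then `η ↦ α η` is a bijection of `Λ`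
(`α^q = 1`, as `p ∣ q`), so `∑_{η ∈ Λ} η(v) = α(v) ∑_{η ∈ Λ} η(v)` and `α(v) = 1` for `v = w⁻¹ u`. -/
def SpecNVF : Prop := ∀ (p L s0 b : ℕ) {X : Type} [Group X] [Finite X] (P : Subgroup X) (χ : X → ℂ)
  (K : Lin X), Hz p L s0 b P χ K →
  ¬ p ∣ dl (p ^ (b - 1)) (fun x : P => χ x) (resL P K) →
  ∀ u ∈ P, ∃ w, Fq p P w u ∧ avK p s0 b χ K w ≠ 0

/-! ## Sections -/

/-- FRL. Facts on `Fq`, `RelF`.
PROOF. (1)-(4) are clear. (5) `FE p P u v` with `x = u`, `g = 1`. (6) `x = u`. (7) `FE` is symmetric (use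
`g⁻¹` and `g x g⁻¹`), so `RelF` is (`Relation.ReflTransGen.symmetric`). (8) `FE u v` implies
`FE (u^k) (v^k)` (use `x^k`; `(g x g⁻¹)^k = g x^k g⁻¹`); `Relation.ReflTransGen.lift`. (9) induction. -/
def SpecFRL : Prop := ∀ (p : ℕ) {X : Type} [Group X] (P : Subgroup X),
  (∀ u ∈ P, Fq p P u u) ∧ (∀ u v, Fq p P u v → Fq p P v u) ∧
  (∀ u v z, Fq p P u v → Fq p P v z → Fq p P u z) ∧
  (∀ u v (k : ℕ), Fq p P u v → Fq p P (u ^ k) (v ^ k)) ∧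
  (∀ u v, Fq p P u v → RelF p P u v) ∧
  (∀ u g, u ∈ P → g * u * g⁻¹ ∈ P → RelF p P u (g * u * g⁻¹)) ∧
  (∀ u v, RelF p P u v → RelF p P v u) ∧
  (∀ u v (k : ℕ), RelF p P u v → RelF p P (u ^ k) (v ^ k)) ∧
  (∀ u v, u ∈ P → RelF p P u v → v ∈ P)

/-- SEF. Facts on the sections (compare `W3/SEC.lean`; no fusion theorem is necessary).
PROOF. (1) conjugation. (2) `a = g y^s0 g⁻¹ ∈ P`, `a' = g' y^s0 g'⁻¹ ∈ P` are conjugate, so `RelF a a'` by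
FRL (6); FRL (7). (3) `w^s0 = w`, `g = 1`, FRL (5). (4) FRL (8); conversely use `k'` with `k k' ≡ 1` modulo
`L` (`u^L = 1`). (5) `(t w)^s0 = t^s0 w^s0 = w`; so `SecF u (t w)` says that some `g w g⁻¹ ∈ P` is related
to `u`; FRL (6). (6) `(t w)^s0 = t^s0 w^s0 = t^s0`. -/
def SpecSEF : Prop := ∀ (p : ℕ), p.Prime → ∀ (L s0 : ℕ), L ≠ 0 → Pex p L s0 →
  ∀ {X : Type} [Group X] [Finite X] (P : Subgroup X), Nat.card X ∣ L →
  Nat.card P = p ^ (Nat.card X).factorization p →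
  (∀ u g y : X, SecF p s0 P u (g * y * g⁻¹) ↔ SecF p s0 P u y) ∧
  (∀ u v y, SecF p s0 P u y → SecF p s0 P v y → RelF p P u v) ∧
  (∀ u w, Fq p P w u → SecF p s0 P u w) ∧
  (∀ u ∈ P, ∀ k : ℕ, k.Coprime L → ∀ y, (SecF p s0 P u y ↔ SecF p s0 P (u ^ k) (y ^ k))) ∧
  (∀ u ∈ P, ∀ t : X, (orderOf t).Coprime p → ∀ w ∈ P, t * w = w * t →
    (SecF p s0 P u (t * w) ↔ RelF p P w u)) ∧
  (∀ l : ℕ, l.Prime → l ≠ p → ∀ u t w : X, t * w = w * t → (∃ k, w ^ l ^ k = 1) →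
    (SecF p s0 P u (t * w) ↔ SecF p s0 P u t))

/-! ## Integrality -/

/-- DUF. Orthogonality for the group `AF p P` (if `α' x ≠ 1` for some `α' ∈ A`, replace `α` by `α' α`). -/
def SpecDUF : Prop := ∀ (p : ℕ) {P : Type} [Group P] [Finite P] (x : P),
  ∑ α ∈ AF p P, ((α x : ℂˣ) : ℂ) =
    open Classical in if (∀ α ∈ AF p P, α x = 1) then ((AF p P).card : ℂ) else 0

/-- AMF. The coefficients `n μ = |P|⁻¹ ∑_w amg(w) μ(w)⁻¹` of `amg` (see `W3/AM1.lean`, the same proof: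
the group need not be commutative here, because only linear characters `μ` occur).
PROOF. (1) `amg` is a sum of products of `w ↦ φ(w^j)` (`GC` by GCA2) and linear characters. (2)
`amg(w^(1 + q i)) = k(w)^i amg(w)`: as `k(w)^q = 1`,
`amg(w^(1+qi)) = ∑_{j<p} k(w)^(-j) φ(w^((1+qi)(1+qj)))`, and `(1+qi)(1+qj) = (1 + q(i+j)) + p^b t'`, which
is `≡ (1 + q(i+j))(1 + p^b t)` modulo `|P|` for some `t`; so it is
`k(w)^i ∑_j k(w)^(-(i+j)) φ(w^(1+q(i+j)))`, and the summand depends only on `i + j` modulo `p`. Hence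
`n(μ^(1+qi) k^(-i)) = |P|⁻¹ ∑_w amg(w) k(w)^i μ(w)^(-(1+qi)) = |P|⁻¹ ∑_w amg(w^(1+qi)) μ(w^(1+qi))⁻¹
= n μ` (`w ↦ w^(1+qi)` is a bijection). (3) If `μ^q = k` then
`n μ = ∑_i |P|⁻¹ ∑_w φ(w^(1+qi)) μ(w)^(-(1+qi)) = p · |P|⁻¹ ∑_w φ(w) μ(w)⁻¹`. -/
def SpecAMF : Prop := ∀ (p b : ℕ), p.Prime → 2 ≤ b → ∀ {P : Type} [Group P] [Fintype P] (e : ℕ),
  Nat.card P = p ^ e → ∀ φ : P → ℂ, GC φ → (∀ (t : ℕ) (w : P), φ (w ^ (1 + p ^ b * t)) = φ w) →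
  ∀ k : Lin P, k ^ p = 1 → ∀ n : Lin P → ℂ,
  (∀ μ, n μ = (Fintype.card P : ℂ)⁻¹ * ∑ w, amg p b φ k w * (((μ w)⁻¹ : ℂˣ) : ℂ)) →
  (∀ μ, IsIntegral ℤ (n μ)) ∧
    (∀ (μ : Lin P) (i : ℕ), n (μ ^ (1 + p ^ (b - 1) * i) * (k ^ i)⁻¹) = n μ) ∧
    (∀ μ : Lin P, μ ^ p ^ (b - 1) = k → ∃ c : ℂ, IsIntegral ℤ c ∧ n μ = p * c)

/-- CF1. The first factor `p`.
PROOF. `conj (amg w) = ∑_{j<p} k(w)^j conj (φ(w^(1+qj)))`. Put, for all natural numbers `i`, `j`,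
`x_ij = |Q|⁻¹ ∑_w α(w) k(w)^(-i) φ(w^(1+qi)) k(w)^j conj (φ(w^(1+qj)))`; the left side is
`∑_{i,j<p} x_ij` and `T = ∑_{d<p} x_0d`. `x_ij` depends only on `i`, `j` modulo `p` (invariance of `φ`,
`k^p = 1`), and `x_(i+1,j+1) = x_ij`: replace `w` by `w^(1+q)` (a bijection of `Q`) in `x_ij`:
`α(w^(1+q)) = α(w)`, `k(w^(1+q)) = k(w)` (`p ∣ q`), and `(1+q)(1+qi) = (1+q(i+1)) + p^b t'`, so
`φ(w^((1+q)(1+qi))) = φ(w^(1+q(i+1)))`; `k(w)^(-i) k(w)^j = k(w)^(-(i+1)) k(w)^(j+1)`. So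
`∑_j x_ij = ∑_d x_0d` for each `i`. `T` is integral: products of functions in `GC` are in `GC` (GCA1, GCA2),
and mean values of functions in `GC` are integral. -/
def SpecCF1 : Prop := ∀ (p b : ℕ), p.Prime → 2 ≤ b → ∀ {Q : Type} [Group Q] [Fintype Q] (e : ℕ),
  Nat.card Q = p ^ e → ∀ φ : Q → ℂ, GC φ → (∀ (t : ℕ) (w : Q), φ (w ^ (1 + p ^ b * t)) = φ w) →
  ∀ k : Lin Q, k ^ p = 1 → ∀ α : Lin Q, α ^ p = 1 → ∀ T : ℂ,
  T = (Fintype.card Q : ℂ)⁻¹ * ∑ w, ((α w : ℂˣ) : ℂ) * φ w * (starRingEnd ℂ) (amg p b φ k w) →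
  IsIntegral ℤ T ∧ (Fintype.card Q : ℂ)⁻¹ * ∑ w, ((α w : ℂˣ) : ℂ) *
    (amg p b φ k w * (starRingEnd ℂ) (amg p b φ k w)) = p * T

/-- CF2. The core, for a proper subgroup `Q`.
PROOF. By DUF (for `x = u⁻¹ w`) `N [∀ α ∈ A, α w = α u] = ∑_{α ∈ A} α(u)⁻¹ α(w)`, so the number is
`p⁻² ∑_{α ∈ A} α(u)⁻¹ S_α`, where by CF1 (for `resL Q α`, `resL Q k`) `S_α = p T_α`, `T_α` integral, depending
only on `α|Q`. By `exists_eps` (`Deg.lean`) there is `ε ∈ A`, `ε ≠ 1`, trivial on `Q`; `T_(εα) = T_α`. If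
`ε(u) ≠ 1` then `∑_α α(u)⁻¹ T_α = ε(u)⁻¹ ∑_α α(u)⁻¹ T_α`, so it is `0`. If `ε(u) = 1` the summand is
invariant under the permutation `α ↦ ε α` of `A`, of order `p` without fixed points, so `p` divides the sum
in the algebraic integers (PSM, `W3/PSM.lean`). -/
def SpecCF2 : Prop := ∀ (p b : ℕ), p.Prime → 2 ≤ b → ∀ {P : Type} [Group P] [Fintype P] (e : ℕ),
  Nat.card P = p ^ e → ∀ (Q : Subgroup P) [Fintype Q], Q ≠ ⊤ → ∀ φ : Q → ℂ, GC φ →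
  (∀ (t : ℕ) (w : Q), φ (w ^ (1 + p ^ b * t)) = φ w) → ∀ k : Lin P, k ^ p = 1 → ∀ u : P,
  IsIntegral ℤ (((AF p P).card : ℂ) * ((Fintype.card Q : ℂ)⁻¹ * ∑ w : Q,
    open Classical in if (∀ α ∈ AF p P, α (w : P) = α u) then
      ((p : ℂ)⁻¹ * amg p b φ (resL Q k) w) * (starRingEnd ℂ) ((p : ℂ)⁻¹ * amg p b φ (resL Q k) w)
        else 0))

/-- CF3. The second factor `p`, for `Q = P`.
PROOF. Both sides are additive in `μ ∈ GC`, so let `μ` be a character; strong induction on the degree of a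
representation `ρ` of `μ` (if `ρ` is not `Sch`, `exists_idem`, `idem_factor`, `compr` of `BF/`: compare
`W3/MUL.lean`), so let `ρ` be `Sch`. Let `T_α = |P|⁻¹ ∑_w α(w) μ(w) conj (amg w)`, an algebraic integer.
(a) degree `> 1`: by NLI (`W3/NLI.lean`) there is `ω ∈ A`, `ω ≠ 1`, `ω μ = μ`, so `T_(ωα) = T_α`; if
`ω(u) ≠ 1` then the sum is `0`, if `ω(u) = 1` it is divisible by `p` by PSM, as in CF2. (b) degree `1`: with
`n` as in AMF, `T_α = conj (n(α μ))`. If `μ^q = k` then `(α μ)^q = k` for all `α ∈ A` (`p ∣ q`), and `p`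
divides all `n(α μ)` (AMF (3)). Otherwise `a = μ^q k⁻¹ ≠ 1`; let `p^m`, `m ≥ 1`, be its order,
`α' = a^(p^(m-1)) ∈ A`, `α' ≠ 1`. For `ν = α μ`, `α ∈ A`: `ν^q k⁻¹ = a`, so
`n(a^j ν) = n(ν^(1+qj) k^(-j)) = n ν` for all `j` (AMF (2)), so `T_(α'α) = T_α`: continue as in (a) with
`α'` for `ω`. (Degree `0`: `μ = 0`.) -/
def SpecCF3 : Prop := ∀ (p b : ℕ), p.Prime → 2 ≤ b → ∀ {P : Type} [Group P] [Fintype P] (e : ℕ),
  Nat.card P = p ^ e → ∀ φ : P → ℂ, GC φ → (∀ (t : ℕ) (w : P), φ (w ^ (1 + p ^ b * t)) = φ w) →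
  ∀ k : Lin P, k ^ p = 1 → ∀ (u : P) (μ : P → ℂ), GC μ →
  ∃ c : ℂ, IsIntegral ℤ c ∧ ∑ α ∈ AF p P, (((α u)⁻¹ : ℂˣ) : ℂ) *
    ((Fintype.card P : ℂ)⁻¹ * ∑ w, ((α w : ℂˣ) : ℂ) * μ w * (starRingEnd ℂ) (amg p b φ k w)) = p * c

/-- COF. The core of the integrality.
PROOF. `Q ≠ ⊤`: CF2. `Q = ⊤`: transport to `P`; by DUF the number is `p⁻² ∑_{α ∈ A} α(u)⁻¹ S_α`, by CF1
`S_α = p T_α`, `T_α = |P|⁻¹ ∑_w α(w) φ(w) conj (amg w)`, and `∑_α α(u)⁻¹ T_α = p c` by CF3 for `μ = φ`. -/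
def SpecCOF : Prop := ∀ (p b : ℕ), p.Prime → 2 ≤ b → ∀ {P : Type} [Group P] [Fintype P] (e : ℕ),
  Nat.card P = p ^ e → ∀ (Q : Subgroup P) [Fintype Q] (φ : Q → ℂ), GC φ →
  (∀ (t : ℕ) (w : Q), φ (w ^ (1 + p ^ b * t)) = φ w) → ∀ k : Lin P, k ^ p = 1 → ∀ u : P,
  IsIntegral ℤ (((AF p P).card : ℂ) * ((Fintype.card Q : ℂ)⁻¹ * ∑ w : Q,
    open Classical in if (∀ α ∈ AF p P, α (w : P) = α u) then
      ((p : ℂ)⁻¹ * amg p b φ (resL Q k) w) * (starRingEnd ℂ) ((p : ℂ)⁻¹ * amg p b φ (resL Q k) w)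
        else 0))

/-- CX3. COF inside `X`, for `Q ≤ P` (see `W3/CX1.lean`).
PROOF. `Q.subgroupOf P`; `φ(w) = χ(t w)` is in `GC` (`W.SpecTWG`, proved in `W/IdC.lean`);
`(t w)^(1 + s0 p^b t') = t w^(1 + p^b t')`, since `t^s0 = 1` and `w^s0 = w` (PRM), so `φ` is invariant;
`K(t) = 1` (`K(t)^p = 1` and the order of `t` is prime to `p`), so `avK(t w) = (1/p) amg φ K w`;
`avK((t w)⁻¹)` is the conjugate (CJF). `(AF p P).card = nF p P`. -/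
def SpecCX3 : Prop := ∀ (p L s0 b : ℕ) {X : Type} [Group X] [Fintype X] (P : Subgroup X) (χ : X → ℂ)
  (K : Lin X), Hz p L s0 b P χ K → ∀ u ∈ P, ∀ t : X, (orderOf t).Coprime p → ∀ Q : Subgroup X,
  Q ≤ P → (∀ w ∈ Q, t * w = w * t) →
  IsIntegral ℤ ((nF p P : ℂ) * ((Nat.card Q : ℂ)⁻¹ * ∑ w : X, open Classical in
    if w ∈ Q ∧ Fq p P w u then avK p s0 b χ K (t * w) * avK p s0 b χ K (t * w)⁻¹ else 0))

/-- CX4. The same for the section of `u` and for all `p`-subgroups `Q` commuting with `t` (see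
`W3/CX2.lean`).
PROOF. By Sylow's theorem `g Q g⁻¹ ≤ P` for some `g`; the summand is invariant under simultaneous
conjugation of `t`, `w` (SEF (1); `avK` is a class function), so we may assume `Q ≤ P`. By SEF (5)
`SecF u (t w)` is equivalent to `RelF w u`, which depends only on the class of `w` for `Fq` (FRL (5), (7)).
So the sum is the sum over the classes (representatives `z ∈ P`) with `RelF z u` of the sums of CX3. -/
def SpecCX4 : Prop := ∀ (p L s0 b : ℕ) {X : Type} [Group X] [Fintype X] (P : Subgroup X) (χ : X → ℂ)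
  (K : Lin X), Hz p L s0 b P χ K → ∀ u ∈ P, ∀ t : X, (orderOf t).Coprime p → ∀ Q : Subgroup X,
  IsPGroup p Q → (∀ w ∈ Q, t * w = w * t) →
  IsIntegral ℤ ((Nat.card Q : ℂ)⁻¹ * ∑ w : X, open Classical in if w ∈ Q then
    (if SecF p s0 P u (t * w) then
      (nF p P : ℂ) * (avK p s0 b χ K (t * w) * avK p s0 b χ K (t * w)⁻¹) else 0) else 0)

/-- INF. Integrality (see `W3/IN2.lean`).
PROOF. GLU (`W/GLU.lean`) for `n = |X|` and `x = ∑_y F y`, `F y = [SecF u y] N avK(y) avK(y⁻¹)`, a class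
function. For the prime `p`: LS2 (`W3/LS2.lean`) with `m = 2` (`p · avK` is integral) and CX4. For a prime
`l ≠ p`: `LSP` (`W/LSP.lean`) for `p² F`, with SEF (6), as in `W3/IN2.lean`. -/
def SpecINF : Prop := ∀ (p L s0 b : ℕ) {X : Type} [Group X] [Fintype X] (P : Subgroup X) (χ : X → ℂ)
  (K : Lin X), Hz p L s0 b P χ K → ∀ u ∈ P, IsIntegral ℤ (BBF p s0 b P χ K u)

/-! ## Conclusion -/

/-- GLF. Galois conjugation (see `W3/GL2.lean`; SEF (4)). -/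
def SpecGLF : Prop := ∀ (p L s0 b : ℕ) {X : Type} [Group X] [Fintype X] (P : Subgroup X) (χ : X → ℂ)
  (K : Lin X), Hz p L s0 b P χ K → ∀ u ∈ P, ∀ k : ℕ, k.Coprime L → ∀ σ : ℂ →+* ℂ,
  (∀ ξ : ℂ, ξ ^ L = 1 → σ ξ = ξ ^ k) → σ (BBF p s0 b P χ K u) = BBF p s0 b P χ K (u ^ k)

/-- CYF. `BBF u ∈ ℚ_L` (see `W3/CY2.lean`). -/
def SpecCYF : Prop := ∀ (p L s0 b : ℕ) {X : Type} [Group X] [Fintype X] (P : Subgroup X) (χ : X → ℂ)
  (K : Lin X), Hz p L s0 b P χ K → ∀ u : X, BBF p s0 b P χ K u ∈ cycField L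

/-- POF. `BBF u` is a real number `≥ 0` (CJF; see `W3/PO2.lean`). -/
def SpecPOF : Prop := ∀ (p L s0 b : ℕ) {X : Type} [Group X] [Fintype X] (P : Subgroup X) (χ : X → ℂ)
  (K : Lin X), Hz p L s0 b P χ K → ∀ u : X, BBF p s0 b P χ K u =
    (((nF p P : ℝ) * ((Fintype.card X : ℝ)⁻¹ *
      ∑ y : X, (open Classical in if SecF p s0 P u y then ‖avK p s0 b χ K y‖ ^ 2 else 0)) : ℝ) : ℂ)

/-- UPF. The upper bound for pairwise inequivalent elements (POF, SEF (2); see `W3/UP2.lean`). -/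
def SpecUPF : Prop := ∀ (p L s0 b : ℕ) {X : Type} [Group X] [Fintype X] (P : Subgroup X) (χ : X → ℂ)
  (K : Lin X), Hz p L s0 b P χ K → ∀ A : Finset X, (∀ u ∈ A, u ∈ P) →
  (∀ u ∈ A, ∀ v ∈ A, RelF p P u v → u = v) →
  ∑ u ∈ A, (BBF p s0 b P χ K u).re ≤ (nF p P : ℝ) *
    ((Fintype.card X : ℝ)⁻¹ * ∑ y, ‖avK p s0 b χ K y‖ ^ 2)

/-- FNF. The main inequality (see `W3/FN2.lean`; here `Hz` follows at once).
PROOF. CMB (`W/CMB.lean`) for the set `P`, the equivalence relation `RelF` (FRL), `U = (ZMod L)ˣ` acting by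
`u ↦ u^k`, `α u = (BBF u).re`, `Z = P`, `B = N/p`: the lower bound is AMG (`W/AMG.lean`; INF, CYF, GLF, POF
and NVF with SEF (3)), the upper bound UPF and NRF. So the number of classes is at most `N/p`; the set of
`CrtF` is a set of representatives of different classes, so it has at most `N/p` elements. -/
def SpecFNF : Prop := ∀ (p : ℕ), p.Prime → ∀ (L s0 b : ℕ), 2 ≤ b → L ≠ 0 → Pex p L s0 →
  ∀ {X : Type} [Group X] [Finite X] (P : Subgroup X), Nat.card X ∣ L →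
  Nat.card P = p ^ (Nat.card X).factorization p →
  CrtF p P → ∀ (n : ℕ) (r : X →* Matrix (Fin n) (Fin n) ℂ), Sch r → ¬ p ∣ n →
  FX p s0 b (fun y => (r y).trace) → ∀ K : Lin X, K ^ p = 1 →
  (∃ y, (r (y ^ (1 + s0 * p ^ (b - 1)))).trace ≠ (K y : ℂ) * (r y).trace) →
  p ∣ dl (p ^ (b - 1)) (fun x : P => (r x).trace) (resL P K)

end Pool.Agent.Lib.MP_1aae89_al.W4
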