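import Pool.Agent.Lib.MP_1aae89_al.W4.SpecA
import Pool.Agent.Lib.MP_1aae89_al.W4.SpecB
import Pool.Agent.Lib.MP_1aae89_al.W.All
import Pool.Agent.Lib.MP_1aae89_al.HC.Top
import Pool.Agent.Lib.MP_1aae89_al.W6.Q1D
import Pool.Agent.Lib.MP_1aae89_al.W3.SpecA
import Pool.Agent.Lib.MP_1aae89_al.W.SCA
import Pool.Agent.Lib.MP_1aae89_al.W6.MCF
import Pool.Agent.Lib.MP_1aae89_al.W5.SPN

section
/-!
# Module FNF: the main inequality
-/
set_option autoImplicit false

namespace Pool.Agent.Lib.MP_1aae89_al.W4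

open Pool.Agent.Lib.MP_1aae89_al Pool.Agent.Lib.MP_1aae89_al.BF Pool.Agent.Lib.MP_1aae89_al.W3 Finset
open Pool.Agent.Lib.MP_1aae89_al.W (GC LD nR)
open Pool.Agent.Lib.MP1aae89 (Pex)

namespace FNFM

theorem nF_pos (p : ℕ) {X : Type} [Group X] [Finite X] (P : Subgroup X) : 0 < nF p P := by
  unfold nF
  have : Nonempty {α : Lin P // α ^ p = 1} := ⟨⟨1, one_pow p⟩⟩
  exact Nat.card_pos

/-- positivity -/
theorem pos (hPOF : SpecPOF) (hNVF : SpecNVF) (hSEF : SpecSEF) {p L s0 b : ℕ} {X : Type}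
    [Group X] [Fintype X] {P : Subgroup X} {χ : X → ℂ} {K : Lin X} (hy : Hz p L s0 b P χ K)
    (hdl : ¬ p ∣ dl (p ^ (b - 1)) (fun x : P => χ x) (resL P K)) {u : X} (hu : u ∈ P) :
    ∃ x : ℝ, 0 < x ∧ BBF p s0 b P χ K u = x := by
  classical
  refine ⟨_, ?_, hPOF p L s0 b P χ K hy u⟩
  obtain ⟨w, hw, hne⟩ := hNVF p L s0 b P χ K hy hdl u hu
  have hS := (hSEF p hy.pp L s0 hy.hL hy.pex P hy.card hy.syl).2.2.1 u w hw
  have h1 : (0 : ℝ) < nF p P := by exact_mod_cast nF_pos p P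
  have h3 : (0 : ℝ) < Fintype.card X := by exact_mod_cast Fintype.card_pos
  have h4 : 0 < ∑ y : X, (if SecF p s0 P u y then ‖avK p s0 b χ K y‖ ^ 2 else 0) := by
    refine Finset.sum_pos' (fun y _ => ?_) ⟨w, Finset.mem_univ _, ?_⟩
    · split_ifs <;> positivity
    · rw [if_pos hS]
      have := norm_pos_iff.2 hne
      positivity
  exact mul_pos h1 (mul_pos (inv_pos.2 h3) h4)

end FNFM

open FNFM

theorem specFNF (hFRL : SpecFRL) (hSEF : SpecSEF) (hINF : SpecINF) (hCYF : SpecCYF)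
    (hGLF : SpecGLF) (hPOF : SpecPOF) (hNVF : SpecNVF) (hUPF : SpecUPF) (hNRF : SpecNRF) :
    SpecFNF := by
  classical
  intro p hp L s0 b hb hL hpex X _ _ P hcard hP hcrt n r hr hn hfx K hK hne
  by_contra hdl
  let _ : Fintype X := Fintype.ofFinite X
  have : NeZero L := ⟨hL⟩
  set χ : X → ℂ := fun y => (r y).trace with hχ
  have hy : Hz p L s0 b P χ K :=
    { pp := hp, hb := hb, hL := hL, card := hcard, pex := hpex, syl := hP
      char := isCharacter_trace r, fx := hfx, kp := hK }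
  have hn0 : n ≠ 0 := by
    intro h
    rw [h] at hn
    exact hn (dvd_zero p)
  have hpR : (0 : ℝ) < p := by exact_mod_cast hp.pos
  have hcX : (0 : ℝ) < Fintype.card X := by exact_mod_cast Fintype.card_pos
  have hn1 : (0 : ℝ) < nF p P := by exact_mod_cast nF_pos p P
  obtain ⟨-, -, -, -, -, -, hsymm, hpow, -⟩ := hFRL p P
  have hzL : ∀ z : X, z ^ L = 1 := by
    intro z
    obtain ⟨c, hc⟩ := hcard
    rw [hc, pow_mul, pow_card_eq_one', one_pow]
  have hcopL : ∀ k : (ZMod L)ˣ, (k : ZMod L).val.Coprime L := fun k => ZMod.val_coe_unit_coprime k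
  let act : MulAction (ZMod L)ˣ P :=
    { smul := fun k z => ⟨(z : X) ^ (k : ZMod L).val, P.pow_mem z.2 _⟩
      one_smul := by
        intro z
        refine Subtype.ext ?_
        show (z : X) ^ ((1 : (ZMod L)ˣ) : ZMod L).val = z.1
        rw [Units.val_one, ← Nat.cast_one, ZMod.val_natCast, W.FIN.pow_val (hzL _), pow_one]
      mul_smul := by
        intro k k' z
        refine Subtype.ext ?_
        show (z : X) ^ ((k * k' : (ZMod L)ˣ) : ZMod L).val =
          ((z : X) ^ (k' : ZMod L).val) ^ (k : ZMod L).val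
        rw [Units.val_mul, ZMod.val_mul, W.FIN.pow_val (hzL _), mul_comm, pow_mul] }
  have hsmul : ∀ (k : (ZMod L)ˣ) (z : P), (((k • z : P)) : X) = (z : X) ^ (k : ZMod L).val :=
    fun k z => rfl
  let st : Setoid P :=
    { r := fun z z' => RelF p P z z'
      iseqv := ⟨fun z => Relation.ReflTransGen.refl, fun {z z'} h => hsymm z z' h,
        fun {z z' z''} h h' => Relation.ReflTransGen.trans h h'⟩ }
  let α : P → ℝ := fun z => (BBF p s0 b P χ K z).re
  -- the lower bound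
  have hlow : ∀ z ∈ (Set.univ : Set P),
      (Fintype.card (ZMod L)ˣ : ℝ) ≤ ∑ k : (ZMod L)ˣ, α (k • z) := by
    intro z _
    have h0 := W.specAMG L (fun k => BBF p s0 b P χ K ((z : X) ^ (k : ZMod L).val))
      (fun k => hINF p L s0 b P χ K hy _ (P.pow_mem z.2 _))
      (fun k => hCYF p L s0 b P χ K hy _)
      (fun k => pos hPOF hNVF hSEF hy hdl (P.pow_mem z.2 _))
      (by
        intro jj σ hσ k
        have h1 := hGLF p L s0 b P χ K hy _ (P.pow_mem z.2 (k : ZMod L).val) (jj : ZMod L).val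
          (hcopL jj) σ hσ
        show σ (BBF p s0 b P χ K ((z : X) ^ (k : ZMod L).val)) =
          BBF p s0 b P χ K ((z : X) ^ ((jj * k : (ZMod L)ˣ) : ZMod L).val)
        rw [h1]
        congr 1
        rw [Units.val_mul, ZMod.val_mul, W.FIN.pow_val (hzL _), mul_comm, pow_mul])
    exact h0
  -- the upper bound
  have hup : ∀ A : Finset P, (∀ x ∈ A, ∀ y ∈ A, st.r x y → x = y) →
      ∑ x ∈ A, α x ≤ (nF p P : ℝ) / p := by
    intro A hA
    have h1 := hUPF p L s0 b P χ K hy (A.image Subtype.val)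
      (by
        intro u hu
        obtain ⟨w, -, rfl⟩ := Finset.mem_image.1 hu
        exact w.2)
      (by
        intro u hu v hv huv
        obtain ⟨w, hw, rfl⟩ := Finset.mem_image.1 hu
        obtain ⟨w', hw', rfl⟩ := Finset.mem_image.1 hv
        rw [hA w hw w' hw' huv])
    rw [Finset.sum_image (fun a _ b _ h => Subtype.ext h)] at h1
    refine h1.trans ?_
    have h2 := hNRF p L s0 b P n r K hr hn0 hy hne
    calc (nF p P : ℝ) *
          ((Fintype.card X : ℝ)⁻¹ * ∑ y, ‖avK p s0 b χ K y‖ ^ 2)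
        ≤ (nF p P : ℝ) *
          ((Fintype.card X : ℝ)⁻¹ * ((Fintype.card X : ℝ) / p)) := by
          refine mul_le_mul_of_nonneg_left (mul_le_mul_of_nonneg_left h2 ?_) ?_
          · positivity
          · positivity
      _ = (nF p P : ℝ) / p := by
          field_simp
  have hfin := W.specCMB (X := P) (U := (ZMod L)ˣ) st (by
      intro k x y hxy
      show RelF p P ((x : X) ^ (k : ZMod L).val) ((y : X) ^ (k : ZMod L).val)
      exact hpow x y _ hxy) α Set.univ (fun _ _ _ => Set.mem_univ _)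
    (fun x => ⟨x, Set.mem_univ _, Relation.ReflTransGen.refl⟩) hlow _ hup
  -- the contradiction
  obtain ⟨A, hAP, hAinj, hAcard⟩ := hcrt
  have hAle : A.card ≤ Nat.card (Quotient st) := by
    let f : A → Quotient st := fun u => Quotient.mk st ⟨u.1, hAP u.1 u.2⟩
    have hf : Function.Injective f := by
      intro u v huv
      have h1 : RelF p P u.1 v.1 := Quotient.exact huv
      exact Subtype.ext (hAinj u.1 u.2 v.1 v.2 h1)
    have h2 := Nat.card_le_card_of_injective f hf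
    rwa [Nat.card_eq_fintype_card, Fintype.card_coe] at h2
  have h1 : (A.card : ℝ) ≤ (nF p P : ℝ) / p :=
    (by exact_mod_cast hAle : (A.card : ℝ) ≤ (Nat.card (Quotient st) : ℝ)).trans hfin
  rw [le_div_iff₀ hpR] at h1
  have h2 : (nF p P : ℝ) < A.card * p := by exact_mod_cast hAcard
  linarith

end Pool.Agent.Lib.MP_1aae89_al.W4
end

section
/-!
# FUA: fusion in `P` is controlled by the normalizer of `P ∩ F`
-/
set_option autoImplicit false

namespace Pool.Agent.Lib.MP_1aae89_al.W4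

open Pool.Agent.Lib.MP_1aae89_al Pool.Agent.Lib.MP_1aae89_al.BF Pool.Agent.Lib.MP_1aae89_al.W3 Finset

namespace FUA

/-- `P ∩ F` is a Sylow subgroup of `F` -/
theorem card_inf {p : ℕ} (hp : p.Prime) {X : Type} [Group X] [Finite X] (P F : Subgroup X)
    [F.Normal] (hP : Nat.card P = p ^ (Nat.card X).factorization p) (hFP : F ⊔ P = ⊤) :
    Nat.card (P ⊓ F : Subgroup X) = p ^ (Nat.card F).factorization p := by
  have h1 := W.SCB.card_sup P F
  have h2 : (P ⊔ F : Subgroup X) = ⊤ := by rw [sup_comm]; exact hFP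
  rw [h2, Subgroup.card_top] at h1
  have h3 : Nat.card (P ⊓ F : Subgroup X) ∣ Nat.card P := Subgroup.card_dvd_of_le inf_le_left
  rw [hP] at h3
  obtain ⟨j, -, hj⟩ := (Nat.dvd_prime_pow hp).1 h3
  have hX0 : Nat.card X ≠ 0 := Nat.card_pos.ne'
  have hF0 : Nat.card F ≠ 0 := Nat.card_pos.ne'
  rw [hj, hP] at h1
  have h4 := congrArg (fun n : ℕ => n.factorization p) h1
  rw [Nat.factorization_mul hX0 (pow_ne_zero _ hp.ne_zero),
    Nat.factorization_mul (pow_ne_zero _ hp.ne_zero) hF0, Finsupp.add_apply, Finsupp.add_apply,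
    Nat.factorization_pow, Nat.factorization_pow, Finsupp.smul_apply, Finsupp.smul_apply,
    hp.factorization_self] at h4
  rw [hj]
  congr 1
  simp only [smul_eq_mul, mul_one] at h4
  omega

end FUA

open FUA in
theorem specFUA (hINV : SpecINV) : SpecFUA := by
  intro p hp X _ _ P F hF hP hFP hcomm x hx g hg
  have hN : ∀ y ∈ P, ∀ z ∈ P ⊓ F, y * z * y⁻¹ ∈ P ⊓ F := fun y hy z hz =>
    ⟨P.mul_mem (P.mul_mem hy hz.1) (P.inv_mem hy), hF.conj_mem z hz.2 y⟩
  have hgm : g ∈ F ⊔ P := by rw [hFP]; exact Subgroup.mem_top g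
  obtain ⟨h, hh, y, hy, hhy⟩ := Subgroup.mem_sup_of_normal_left.1 hgm
  set x₁ := y * x * y⁻¹ with hx₁
  have hx₁P : x₁ ∈ P := P.mul_mem (P.mul_mem hy hx) (P.inv_mem hy)
  set w := g * x * g⁻¹ with hw
  have hw1 : w = h * x₁ * h⁻¹ := by rw [hw, hx₁, ← hhy]; group
  have hwp : ∃ k : ℕ, w ^ p ^ k = 1 := by
    refine ⟨(Nat.card X).factorization p, ?_⟩
    have h1 : (⟨w, hg⟩ : P) ^ Nat.card P = 1 := pow_card_eq_one'
    rw [hP] at h1
    have h2 := congrArg Subtype.val h1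
    simpa using h2
  let Q' : Subgroup X := (P ⊓ F).map (MulAut.conj h).toMonoidHom
  have hQ' : ∀ z, z ∈ Q' ↔ h⁻¹ * z * h ∈ P ⊓ F := by
    intro z
    constructor
    · rintro ⟨q, hq, rfl⟩
      have : h⁻¹ * (MulAut.conj h).toMonoidHom q * h = q := by
        show h⁻¹ * (h * q * h⁻¹) * h = q
        group
      rw [this]
      exact hq
    · intro hz
      refine ⟨h⁻¹ * z * h, hz, ?_⟩
      show h * (h⁻¹ * z * h) * h⁻¹ = z
      group
  have hQc : Nat.card (P ⊓ F : Subgroup X) = p ^ (Nat.card F).factorization p :=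
    card_inf hp P F hP hFP
  have hQ'c : Nat.card Q' = p ^ (Nat.card F).factorization p := by
    rw [← hQc]
    exact (Nat.card_congr ((P ⊓ F).equivMapOfInjective (MulAut.conj h).toMonoidHom
      (MulAut.conj h).injective).toEquiv).symm
  have hQ'F : Q' ≤ F := by
    intro z hz
    have h1 := ((hQ' z).1 hz).2
    have h2 := hF.conj_mem _ h1 h
    have h3 : h * (h⁻¹ * z * h) * h⁻¹ = z := by group
    rwa [h3] at h2
  obtain ⟨c, hc, hwc, hcQ⟩ := hINV p hp F w hwp (P ⊓ F) Q' inf_le_right hQ'F hQc hQ'c hcomm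
    (fun z hz => hN w hg z hz) (fun z hz => by
      rw [hQ'] at hz ⊢
      have h1 : h⁻¹ * (w * z * w⁻¹) * h = x₁ * (h⁻¹ * z * h) * x₁⁻¹ := by
        rw [hw1]; group
      rw [h1]
      exact hN x₁ hx₁P _ hz)
  refine ⟨c * h * y, ?_, ?_⟩
  · intro z hz
    have h1 : y * z * y⁻¹ ∈ P ⊓ F := hN y hy z hz
    have h2 : h * (y * z * y⁻¹) * h⁻¹ ∈ Q' := by
      rw [hQ']
      have : h⁻¹ * (h * (y * z * y⁻¹) * h⁻¹) * h = y * z * y⁻¹ := by group
      rw [this]
      exact h1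
    have h3 := (hcQ _).1 h2
    have h4 : c * h * y * z * (c * h * y)⁻¹ = c * (h * (y * z * y⁻¹) * h⁻¹) * c⁻¹ := by group
    rw [h4]
    exact h3
  · have h4 : c * h * y * x * (c * h * y)⁻¹ = c * (h * (y * x * y⁻¹) * h⁻¹) * c⁻¹ := by group
    rw [h4, ← hx₁, ← hw1, ← hwc, mul_inv_cancel_right]

end Pool.Agent.Lib.MP_1aae89_al.W4
end

section
/-!
# GCF: groups which satisfy the criterion `CrtF` are good
-/
set_option autoImplicit false

namespace Pool.Agent.Lib.MP_1aae89_al.W4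

open Pool.Agent.Lib.MP_1aae89_al Pool.Agent.Lib.MP_1aae89_al.BF Pool.Agent.Lib.MP_1aae89_al.W3 Finset
open Pool.Agent.Lib.MP1aae89 (Pex)
open scoped Pointwise

namespace GCF

/-- two Sylow subgroups are conjugate -/
theorem conj {p : ℕ} (hp : p.Prime) {Z : Type} [Group Z] [Finite Z] {P Q : Subgroup Z}
    (hP : Nat.card P = p ^ (Nat.card Z).factorization p)
    (hQ : Nat.card Q = p ^ (Nat.card Z).factorization p) :
    ∃ g : Z, ∀ x, x ∈ Q ↔ g⁻¹ * x * g ∈ P := by
  have : Fact p.Prime := ⟨hp⟩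
  obtain ⟨g, hg⟩ := MulAction.exists_smul_eq Z (Sylow.ofCard P hP) (Sylow.ofCard Q hQ)
  refine ⟨g, fun x => ?_⟩
  have h1 : (x ∈ (Sylow.ofCard Q hQ : Sylow p Z)) ↔ x ∈ Q := Iff.rfl
  rw [← h1, ← hg]
  have h2 : x ∈ (g • Sylow.ofCard P hP : Sylow p Z) ↔
      x ∈ (MulAut.conj g • (Sylow.ofCard P hP : Sylow p Z).toSubgroup) := Iff.rfl
  rw [h2, Subgroup.mem_pointwise_smul_iff_inv_smul_mem]
  have h3 : (MulAut.conj g)⁻¹ • x = g⁻¹ * x * g := by
    rw [← map_inv, MulAut.smul_def, MulAut.conj_apply, inv_inv]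
  rw [h3]
  exact Iff.rfl

end GCF

theorem specGCF (hCRF : SpecCRF) (hCJG : SpecCJG) (hFNF : SpecFNF) : SpecGCF := by
  intro p b hp hb Z _ _ P hP hcrt Y _ _ f hcen hker hind b' hb' L s0 hL hYL hs P' hP' n r hr
    hn hfx K hK hex
  have hfin : Finite (f.range) := inferInstance
  -- `f` is injective on `P'`
  have hinj : ∀ x ∈ P', f x = 1 → x = 1 := by
    intro x hx hfx1
    have h1 : orderOf x ∣ Nat.card P' := by
      have := orderOf_dvd_natCard (⟨x, hx⟩ : P')
      rwa [← Subgroup.orderOf_coe] at this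
    have h2 : orderOf x ∣ Nat.card f.ker := by
      have := orderOf_dvd_natCard (⟨x, (MonoidHom.mem_ker).2 hfx1⟩ : f.ker)
      rwa [← Subgroup.orderOf_coe] at this
    rw [hP'] at h1
    exact orderOf_eq_one_iff.1
      (Nat.eq_one_of_dvd_coprimes (hker.pow_right _).symm h1 h2)
  -- the order of `f(P')`
  have hinj' : Function.Injective (f.subgroupMap P') := by
    rw [← MonoidHom.ker_eq_bot_iff, eq_bot_iff]
    rintro ⟨x, hx⟩ h1
    rw [MonoidHom.mem_ker] at h1
    have h2 : f x = 1 := congrArg Subtype.val h1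
    rw [Subgroup.mem_bot]
    exact Subtype.ext (hinj x hx h2)
  have hcardP : Nat.card (P'.map f) = Nat.card P' :=
    (Nat.card_congr (Equiv.ofBijective _ ⟨hinj', f.subgroupMap_surjective P'⟩)).symm
  have hfac : (Nat.card Y).factorization p = (Nat.card Z).factorization p := by
    have h1 : Nat.card Y = Nat.card f.ker * Nat.card f.range := by
      rw [← Subgroup.card_mul_index f.ker, Subgroup.index_ker]
    have h2 : Nat.card Z = Nat.card f.range * f.range.index := (Subgroup.card_mul_index _).symm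
    have h3 : Nat.card f.ker ≠ 0 := Nat.card_pos.ne'
    have h4 : Nat.card f.range ≠ 0 := Nat.card_pos.ne'
    have h5 : f.range.index ≠ 0 := Subgroup.index_ne_zero_of_finite
    rw [h1, h2, Nat.factorization_mul h3 h4, Nat.factorization_mul h4 h5, Finsupp.add_apply,
      Finsupp.add_apply, Nat.factorization_eq_zero_of_not_dvd hind,
      Nat.factorization_eq_zero_of_not_dvd, zero_add, add_zero]
    intro h
    have h6 := Nat.dvd_gcd h dvd_rfl
    rw [hker.gcd_eq_one] at h6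
    exact hp.one_lt.ne' (Nat.dvd_one.1 h6)
  have hQ : Nat.card (P'.map f) = p ^ (Nat.card Z).factorization p := by
    rw [hcardP, hP', hfac]
  obtain ⟨g, hg⟩ := GCF.conj hp hP hQ
  have hcrt' : CrtF p P' := hCRF p f P' hinj (hCJG p P _ g hg hcrt)
  exact hFNF p hp L s0 b' (hb.trans hb') hL hs P' hYL hP' hcrt' n r hr hn hfx K hK hex

end Pool.Agent.Lib.MP_1aae89_al.W4
end

section
/-!
# Module GLF: the Galois conjugates of `BBF u`
-/
set_option autoImplicit false

namespace Pool.Agent.Lib.MP_1aae89_al.W4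

open Pool.Agent.Lib.MP_1aae89_al Pool.Agent.Lib.MP_1aae89_al.BF Pool.Agent.Lib.MP_1aae89_al.W3 Finset
open Pool.Agent.Lib.MP_1aae89_al.W (GC LD nR)
open Pool.Agent.Lib.MP1aae89 (Pex)

/-- GLF, from SEF. -/
theorem specGLF (hSEF : SpecSEF) : SpecGLF := by
  classical
  intro p L s0 b X _ _ P χ K h u hu k hk σ hσ
  obtain ⟨-, -, -, hS, -, -⟩ := hSEF p h.pp L s0 h.hL h.pex P h.card h.syl
  have hpow : ∀ x : X, x ^ L = 1 := by
    intro x
    obtain ⟨c, hc⟩ := h.card
    rw [hc, Nat.card_eq_fintype_card, pow_mul, pow_card_eq_one, one_pow]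
  have hg : ∀ x : X, σ (χ x) = χ (x ^ k) := fun x =>
    W.aga_gal h.char h.hL (hpow x) σ (hσ _ (zeta_prim h.hL).pow_eq_one)
  have hK : ∀ x : X, σ ((((K x)⁻¹ : ℂˣ)) : ℂ) = (((K (x ^ k))⁻¹ : ℂˣ) : ℂ) := by
    intro x
    rw [hσ, map_pow, ← inv_pow, Units.val_pow_eq_pow_val]
    rw [← Units.val_pow_eq_pow_val, inv_pow, ← map_pow, hpow, map_one, inv_one, Units.val_one]
  have hav : ∀ y : X, σ (avK p s0 b χ K y) = avK p s0 b χ K (y ^ k) := by
    intro y
    unfold avK
    rw [map_mul, map_inv₀, map_natCast, map_sum]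
    congr 1
    refine Finset.sum_congr rfl fun i _ => ?_
    rw [map_mul, map_pow, hK, hg, ← pow_mul, ← pow_mul, mul_comm k]
  have hcop : (Nat.card X).Coprime k := (Nat.Coprime.coprime_dvd_right h.card hk).symm
  unfold BBF
  rw [map_mul, map_mul, map_inv₀, map_natCast, map_natCast, map_sum]
  congr 2
  refine Fintype.sum_equiv (powCoprime hcop) _ _ fun y => ?_
  rw [powCoprime_apply]
  by_cases hy : SecF p s0 P u y
  · rw [if_pos hy, if_pos ((hS u hu k hk y).1 hy), map_mul, hav, hav, inv_pow]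
  · rw [if_neg hy, if_neg (fun h' => hy ((hS u hu k hk y).2 h')), map_zero]

end Pool.Agent.Lib.MP_1aae89_al.W4
end

section
/-!
# Module GQV: the factor groups are good
-/
set_option autoImplicit false

namespace Pool.Agent.Lib.MP_1aae89_al.W4

open Pool.Agent.Lib.MP_1aae89_al Pool.Agent.Lib.MP_1aae89_al.BF Pool.Agent.Lib.MP_1aae89_al.W3 Finset
open Pool.Agent.Lib.MP_1aae89_al.W (GC LD nR)
open Pool.Agent.Lib.MP1aae89 (Pex)

open Pool.Agent.Lib.MP_1aae89_al.W3.GQU in
theorem specGQV (hGPG : SpecGPG) (hGBD : SpecGBD) (hGCR : SpecGCR) (hCRM : SpecCRM)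
    (hGCF : SpecGCF) (hCFC : SpecCFC) (hCYN : SpecCYN) : SpecGQV := by
  classical
  intro p b hp hb X _ _ P H F hH hF hHF htop hP hst
  have : Fact p.Prime := ⟨hp⟩
  obtain ⟨hP1, hP2⟩ := card_map hp (H := H) hP
  have hF' : (F.map (QuotientGroup.mk' H)).Normal :=
    hF.map _ (QuotientGroup.mk'_surjective H)
  have htop' := map_top (H := H) htop
  rcases hst with h1 | h1 | ⟨hab, h1⟩ | ⟨hab, h1⟩ | h1
  · -- a `p`-group
    have hFp : IsPGroup p (F.map (QuotientGroup.mk' H)) := by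
      rintro ⟨_, x, hx, rfl⟩
      obtain ⟨j, hj⟩ := h1 x hx
      refine ⟨j, Subtype.ext ?_⟩
      show (QuotientGroup.mk' H x) ^ p ^ j = 1
      rw [← map_pow]
      exact mk_eq_one.2 hj
    have h2 := hFp.to_sup_of_normal_left hP1
    rw [htop'] at h2
    obtain ⟨e, he⟩ := IsPGroup.iff_card.1 h2
    rw [Subgroup.card_top] at he
    exact hGPG p b hp hb e he
  · -- no elements of order `p ^ b`
    refine hGBD p b hp hb (F.map (QuotientGroup.mk' H)) ?_ ?_
    · rintro _ ⟨x, hx, rfl⟩ h2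
      rw [← map_pow] at h2 ⊢
      exact mk_eq_one.2 (h1 x hx (mk_eq_one.1 h2))
    · intro z
      have hz : z ∈ F.map (QuotientGroup.mk' H) ⊔ P.map (QuotientGroup.mk' H) := by
        rw [htop']
        exact Subgroup.mem_top z
      rw [Subgroup.mem_sup_of_normal_left] at hz
      obtain ⟨f, hf, x, hx, rfl⟩ := hz
      obtain ⟨j, hj⟩ := hP1 ⟨x, hx⟩
      have hj' : x ^ p ^ j = 1 := congrArg Subtype.val hj
      refine ⟨j, ?_⟩
      rw [← mk_eq_one (H := F.map (QuotientGroup.mk' H)), map_pow, map_mul, mk_eq_one.2 hf,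
        one_mul, ← map_pow, hj', map_one]
  · -- `P ∩ F` abelian
    have hab' : ∀ x ∈ P.map (QuotientGroup.mk' H) ⊓ F.map (QuotientGroup.mk' H),
        ∀ y ∈ P.map (QuotientGroup.mk' H) ⊓ F.map (QuotientGroup.mk' H), x * y = y * x := by
      intro x' hx' y' hy'
      obtain ⟨x, hx, rfl⟩ := (mem_inf hHF).1 hx'
      obtain ⟨y, hy, rfl⟩ := (mem_inf hHF).1 hy'
      rw [← map_mul, ← map_mul, mk_eq]
      have := hab x hx y hy
      rwa [show x * y * (y * x)⁻¹ = x * y * x⁻¹ * y⁻¹ by group]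
    refine hGCF p b hp hb _ hP2 (hCFC p hp _ _ hP2 htop' hab' ?_)
    rcases h1 with ⟨x₀, hx₀, h1⟩ | h1
    · refine hCYN p hp _ _ hP2 ⟨QuotientGroup.mk' H x₀, (mem_inf hHF).2 ⟨x₀, hx₀, rfl⟩, ?_⟩
      intro y hy
      obtain ⟨y', hy', rfl⟩ := (mem_inf hHF).1 hy
      obtain ⟨j, hj⟩ := h1 y' hy'
      refine ⟨j, ?_⟩
      rw [← map_pow]
      exact mk_eq.2 hj
    · have e1 := card_preimage H fun z => z ∈ F.map (QuotientGroup.mk' H) ∧
        ∀ x ∈ P.map (QuotientGroup.mk' H) ⊓ F.map (QuotientGroup.mk' H), z * x * z⁻¹ ∈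
          P.map (QuotientGroup.mk' H) ⊓ F.map (QuotientGroup.mk' H)
      have e2 := card_preimage H fun z => z ∈ F.map (QuotientGroup.mk' H) ∧
        ∀ x ∈ P.map (QuotientGroup.mk' H) ⊓ F.map (QuotientGroup.mk' H), z * x * z⁻¹ = x
      have hmF : ∀ g : X, QuotientGroup.mk' H g ∈ F.map (QuotientGroup.mk' H) ↔ g ∈ F := by
        intro g
        constructor
        · rintro ⟨f, hf, hfg⟩
          have h2 : f⁻¹ * g ∈ H := by
            rw [← QuotientGroup.eq]
            exact hfg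
          have h3 := F.mul_mem hf (hHF h2)
          rwa [mul_inv_cancel_left] at h3
        · intro hg
          exact ⟨g, hg, rfl⟩
      have f1 : Nat.card {g : X // QuotientGroup.mk' H g ∈ F.map (QuotientGroup.mk' H) ∧
          ∀ x ∈ P.map (QuotientGroup.mk' H) ⊓ F.map (QuotientGroup.mk' H),
            QuotientGroup.mk' H g * x * (QuotientGroup.mk' H g)⁻¹ ∈
              P.map (QuotientGroup.mk' H) ⊓ F.map (QuotientGroup.mk' H)} =
          Nat.card {g : X // g ∈ F ∧ ∀ x ∈ P ⊓ F, ∃ y ∈ P ⊓ F, g * x * g⁻¹ * y⁻¹ ∈ H} := by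
        refine Nat.card_congr (Equiv.subtypeEquivRight fun g => and_congr (hmF g) ?_)
        constructor
        · intro h2 x hx
          obtain ⟨y, hy, hyx⟩ := (mem_inf hHF).1 (h2 _ ((mem_inf hHF).2 ⟨x, hx, rfl⟩))
          refine ⟨y, hy, ?_⟩
          rw [← mk_eq, hyx, map_mul, map_mul, map_inv]
        · intro h2 z hz
          obtain ⟨x, hx, rfl⟩ := (mem_inf hHF).1 hz
          obtain ⟨y, hy, hyx⟩ := h2 x hx
          refine (mem_inf hHF).2 ⟨y, hy, ?_⟩
          rw [← mk_eq] at hyx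
          rw [← hyx, map_mul, map_mul, map_inv]
      have f2 : Nat.card {g : X // QuotientGroup.mk' H g ∈ F.map (QuotientGroup.mk' H) ∧
          ∀ x ∈ P.map (QuotientGroup.mk' H) ⊓ F.map (QuotientGroup.mk' H),
            QuotientGroup.mk' H g * x * (QuotientGroup.mk' H g)⁻¹ = x} =
          Nat.card {g : X // g ∈ F ∧ ∀ x ∈ P ⊓ F, g * x * g⁻¹ * x⁻¹ ∈ H} := by
        refine Nat.card_congr (Equiv.subtypeEquivRight fun g => and_congr (hmF g) ?_)
        constructor
        · intro h2 x hx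
          have h3 := h2 _ ((mem_inf hHF).2 ⟨x, hx, rfl⟩)
          rw [← mk_eq, map_mul, map_mul, map_inv]
          exact h3
        · intro h2 z hz
          obtain ⟨x, hx, rfl⟩ := (mem_inf hHF).1 hz
          have h3 := h2 x hx
          rw [← mk_eq, map_mul, map_mul, map_inv] at h3
          exact h3
      rw [f1] at e1
      rw [f2] at e2
      rw [e1, e2, ← mul_assoc] at h1
      exact lt_of_mul_lt_mul_right h1 (Nat.zero_le _)
  · -- `P` abelian with the criterion `Crt`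
    have hab' : ∀ x ∈ P.map (QuotientGroup.mk' H), ∀ y ∈ P.map (QuotientGroup.mk' H),
        x * y = y * x := by
      rintro _ ⟨x, hx, rfl⟩ _ ⟨y, hy, rfl⟩
      rw [← map_mul, ← map_mul, mk_eq]
      have := hab x hx y hy
      rwa [show x * y * (y * x)⁻¹ = x * y * x⁻¹ * y⁻¹ by group]
    exact hGCR p b hp hb _ hP2 hab' (hCRM p b hp (by omega) _ hP1 hab' h1)
  · exact hGCF p b hp hb _ hP2 h1

end Pool.Agent.Lib.MP_1aae89_al.W4
end

section
/-!
# Module INF: integrality of the contribution of a section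
-/
set_option autoImplicit false

namespace Pool.Agent.Lib.MP_1aae89_al.W4

open Pool.Agent.Lib.MP_1aae89_al Pool.Agent.Lib.MP_1aae89_al.BF Pool.Agent.Lib.MP_1aae89_al.W3 Finset
open Pool.Agent.Lib.MP1aae89 (Pex)

theorem specINF (hCX4 : SpecCX4) (hLS2 : SpecLS2) (hSEF : SpecSEF) : SpecINF := by
  classical
  intro p L s0 b X _ _ P χ K hy u hu
  have hp := hy.pp
  have hb := hy.hb
  have hord : ∀ y : X, orderOf y ∣ L := fun y => (orderOf_dvd_natCard y).trans hy.card
  have hGCA1 : W.SpecGCA1 := W.specGCA1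
  have hGCA2 : W.SpecGCA2 := W.specGCA2 hGCA1
  have hTWG : W.SpecTWG := W.specTWG hGCA2
  have hLSP : W.SpecLSP := W.specLSP hGCA2 (W.specLFM hGCA2)
  obtain ⟨-, hmul, hsmul, hcon, hsum, -, hval, -⟩ := hGCA2
  obtain ⟨hsec1, -, -, -, -, hsec6⟩ := hSEF p hp L s0 hy.hL hy.pex P hy.card hy.syl
  set q := p ^ (b - 1) with hq
  have hKp : ∀ y, (K y) ^ p = 1 := by
    intro y
    have h2 : (K ^ p) y = (1 : Lin X) y := by rw [hy.kp]
    exact h2
  have hKi : ∀ y (i : ℕ), IsIntegral ℤ ((((K y)⁻¹ : ℂˣ) : ℂ) ^ i) := by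
    intro y i
    refine IsIntegral.pow ?_ i
    refine IsIntegral.of_pow hp.pos ?_
    rw [← Units.val_pow_eq_pow_val, inv_pow, hKp, inv_one, Units.val_one]
    exact isIntegral_one
  have hchi : ∀ y, IsIntegral ℤ (χ y) := fun y => hval χ (Submodule.subset_span hy.char) y
  have hpav : ∀ y, (p : ℂ) * avK p s0 b χ K y =
      ∑ i ∈ range p, (((K y)⁻¹ : ℂˣ) : ℂ) ^ i * χ (y ^ (1 + s0 * q * i)) := by
    intro y
    unfold avK
    rw [← mul_assoc, mul_inv_cancel₀ (by exact_mod_cast hp.ne_zero), one_mul]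
  have hpi : ∀ y, IsIntegral ℤ ((p : ℂ) * avK p s0 b χ K y) := by
    intro y
    rw [hpav]
    exact IsIntegral.sum _ fun i _ => (hKi y i).mul (hchi _)
  have hNi : IsIntegral ℤ (nF p P : ℂ) := isIntegral_algebraMap (R := ℤ) (x := (nF p P : ℤ))
  set F : X → ℂ := fun y => if SecF p s0 P u y then
    (nF p P : ℂ) * (avK p s0 b χ K y * avK p s0 b χ K y⁻¹) else 0 with hF
  have hFc : ∀ g w, F (g * w * g⁻¹) = F w := by
    intro g w
    show (if SecF p s0 P u (g * w * g⁻¹) then (nF p P : ℂ) * (avK p s0 b χ K (g * w * g⁻¹) *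
      avK p s0 b χ K (g * w * g⁻¹)⁻¹) else 0) = _
    have h4 : (g * w * g⁻¹)⁻¹ = g * w⁻¹ * g⁻¹ := by group
    rw [h4, CX2.avK_conj hy.char, CX2.avK_conj hy.char]
    exact if_congr (hsec1 u g w) rfl rfl
  have hp2 : ∀ y, (p : ℂ) ^ 2 * F y = (if SecF p s0 P u y then (nF p P : ℂ) else 0) *
      (((p : ℂ) * avK p s0 b χ K y) * ((p : ℂ) * avK p s0 b χ K y⁻¹)) := by
    intro y
    rw [hF]
    simp only
    split_ifs <;> ring
  have hloc : ∀ l : ℕ, l.Prime → W.LD l ((Fintype.card X).factorization l) (∑ y, F y) := by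
    intro l hl
    by_cases hlp : l = p
    · subst hlp
      refine hLS2 l hl F hFc 2 (fun y => ?_) ?_
      · rw [hp2]
        refine IsIntegral.mul ?_ ((hpi _).mul (hpi _))
        split_ifs
        · exact hNi
        · exact isIntegral_zero
      · intro t ht Q hQ hcm
        have h1 := hCX4 l L s0 b P χ K hy u hu t ht Q hQ hcm
        convert h1 using 6
    · have h1 : W.LD l ((Fintype.card X).factorization l) (∑ y, (p : ℂ) ^ 2 * F y) := by
        refine hLSP l hl (fun y => (p : ℂ) ^ 2 * F y) (fun g w => ?_) ?_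
        · show (p : ℂ) ^ 2 * F (g * w * g⁻¹) = (p : ℂ) ^ 2 * F w
          rw [hFc]
        · intro t ht Q hQ hcm
          have hw0 : ∀ w : Q, (orderOf (w : X)).Coprime p := by
            intro w
            obtain ⟨k, hk⟩ := hQ w
            have h5 : orderOf (w : X) ∣ l ^ k :=
              orderOf_dvd_of_pow_eq_one (congrArg Subtype.val hk)
            exact Nat.Coprime.coprime_dvd_left h5
              (Nat.Coprime.pow_left _ ((Nat.coprime_primes hl hp).2 hlp))
          have hw1 : ∀ w : Q, (w : X) ^ s0 = 1 := fun w =>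
            W.pow_s0_one hp hy.hL hy.pex (hord w) (hw0 w)
          have hKw : ∀ w : Q, K (t * (w : X)) = K t := by
            intro w
            rw [map_mul, CX1.lin_one hy.kp (hw0 w), mul_one]
          have hpw : ∀ (w : Q) (i : ℕ), (t * (w : X)) ^ (1 + s0 * q * i) =
              t ^ (1 + s0 * q * i) * w := by
            intro w i
            have h1 : Commute t (w : X) := hcm w w.2
            have h2 : (w : X) ^ (1 + s0 * q * i) = w := by
              rw [pow_add, pow_one, mul_assoc s0, pow_mul, hw1, one_pow, mul_one]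
            rw [h1.mul_pow, h2]
          have hcmi : ∀ i : ℕ, ∀ w ∈ Q, t ^ (1 + s0 * q * i) * w = w * t ^ (1 + s0 * q * i) := by
            intro i w hw
            have h1 : Commute t w := hcm w hw
            exact (h1.pow_left _).eq
          have hA : W.GC fun w : Q => (p : ℂ) * avK p s0 b χ K (t * w) := by
            have h1 : (fun w : Q => (p : ℂ) * avK p s0 b χ K (t * w)) = fun w : Q =>
                ∑ i ∈ range p, (((K t)⁻¹ : ℂˣ) : ℂ) ^ i * χ (t ^ (1 + s0 * q * i) * w) := by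
              funext w
              rw [hpav]
              refine sum_congr rfl fun i _ => ?_
              rw [hKw, hpw]
            rw [h1]
            refine hsum (range p) (fun i (w : Q) => (((K t)⁻¹ : ℂˣ) : ℂ) ^ i *
              χ (t ^ (1 + s0 * q * i) * w)) fun i _ => ?_
            exact hsmul _ _ (hKi t i) (hTWG χ hy.char Q _ (hcmi i))
          have hB : W.GC fun w : Q => (p : ℂ) * avK p s0 b χ K (t * w)⁻¹ := by
            have h1 : (fun w : Q => (p : ℂ) * avK p s0 b χ K (t * w)⁻¹) = fun w : Q =>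
                ∑ i ∈ range p, (((K t⁻¹)⁻¹ : ℂˣ) : ℂ) ^ i *
                  (fun x => χ x⁻¹) (t ^ (1 + s0 * q * i) * w) := by
              funext w
              rw [hpav]
              refine sum_congr rfl fun i _ => ?_
              have h2 : K (t * (w : X))⁻¹ = K t⁻¹ := by
                rw [map_inv, hKw, map_inv]
              show _ = _ * χ (t ^ (1 + s0 * q * i) * (w : X))⁻¹
              rw [h2, inv_pow, hpw]
            rw [h1]
            refine hsum (range p) (fun i (w : Q) => (((K t⁻¹)⁻¹ : ℂˣ) : ℂ) ^ i *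
              (fun x => χ x⁻¹) (t ^ (1 + s0 * q * i) * w)) fun i _ => ?_
            exact hsmul _ _ (hKi t⁻¹ i) (hTWG (fun x => χ x⁻¹) (hGCA1.2.1 χ hy.char) Q _ (hcmi i))
          have hC := hmul _ _ hA hB
          have h1 : (fun w : Q => (p : ℂ) ^ 2 * F (t * w)) = fun w : Q =>
              (if SecF p s0 P u t then (nF p P : ℂ) else 0) *
                ((p : ℂ) * avK p s0 b χ K (t * w) * ((p : ℂ) * avK p s0 b χ K (t * w)⁻¹)) := by
            funext w
            rw [hp2]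
            congr 1
            have h2 : ∃ k, (w : X) ^ l ^ k = 1 := by
              obtain ⟨k, hk⟩ := hQ w
              exact ⟨k, congrArg Subtype.val hk⟩
            exact if_congr (hsec6 l hl hlp u t w (hcm w w.2) h2) rfl rfl
          show W.GC fun w : Q => (p : ℂ) ^ 2 * F (t * w)
          rw [h1]
          refine hsmul _ _ ?_ hC
          split_ifs
          · exact hNi
          · exact isIntegral_zero
      obtain ⟨n, hn, w, hw, h2⟩ := h1
      refine ⟨n * p ^ 2, fun h => ?_, w, hw, ?_⟩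
      · rcases (Nat.Prime.dvd_mul hl).1 h with h3 | h3
        · exact hn h3
        · exact hlp ((Nat.prime_dvd_prime_iff_eq hl hp).1 (hl.dvd_of_dvd_pow h3))
      · rw [← h2, ← mul_sum]
        push_cast
        ring
  have hfin := W.specGLU (Fintype.card X) Fintype.card_ne_zero _ hloc
  have h1 : BBF p s0 b P χ K u = (∑ y, F y) / (Fintype.card X : ℂ) := by
    unfold BBF
    have h2 : ∑ y, F y = (nF p P : ℂ) * ∑ y : X, (if SecF p s0 P u y then
        avK p s0 b χ K y * avK p s0 b χ K y⁻¹ else 0) := by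
      rw [mul_sum]
      refine sum_congr rfl fun y _ => ?_
      rw [hF]
      simp only
      split_ifs <;> ring
    rw [h2]
    ring
  rw [h1]
  exact hfin

end Pool.Agent.Lib.MP_1aae89_al.W4
end

section
/-!
# INV: invariant Sylow subgroups are conjugate under `C_F(w)`
-/
set_option autoImplicit false

namespace Pool.Agent.Lib.MP_1aae89_al.W4

open Pool.Agent.Lib.MP_1aae89_al Pool.Agent.Lib.MP_1aae89_al.BF Pool.Agent.Lib.MP_1aae89_al.W3 Finset
open Pool.Agent.Lib.MP_1aae89_al.W (GC LD nR)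
open Pool.Agent.Lib.MP1aae89 (Pex)
open scoped Pointwise

namespace INV

/-- two Sylow subgroups are conjugate -/
theorem conj_syl {p : ℕ} (hp : p.Prime) {Z : Type} [Group Z] [Finite Z] {P Q : Subgroup Z}
    (hP : Nat.card P = p ^ (Nat.card Z).factorization p)
    (hQ : Nat.card Q = p ^ (Nat.card Z).factorization p) :
    ∃ g : Z, ∀ x, x ∈ Q ↔ g⁻¹ * x * g ∈ P := by
  have : Fact p.Prime := ⟨hp⟩
  obtain ⟨g, hg⟩ := MulAction.exists_smul_eq Z (Sylow.ofCard P hP) (Sylow.ofCard Q hQ)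
  refine ⟨g, fun x => ?_⟩
  have h1 : (x ∈ (Sylow.ofCard Q hQ : Sylow p Z)) ↔ x ∈ Q := Iff.rfl
  rw [← h1, ← hg]
  have h2 : x ∈ (g • Sylow.ofCard P hP : Sylow p Z) ↔
      x ∈ (MulAut.conj g • (Sylow.ofCard P hP : Sylow p Z).toSubgroup) := Iff.rfl
  rw [h2, Subgroup.mem_pointwise_smul_iff_inv_smul_mem]
  have h3 : (MulAut.conj g)⁻¹ • x = g⁻¹ * x * g := by
    rw [← map_inv, MulAut.smul_def, MulAut.conj_apply, inv_inv]
  rw [h3]
  exact Iff.rfl

variable {X : Type} [Group X]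

/-- the same inside a subgroup -/
theorem conj_in [Finite X] {p : ℕ} (hp : p.Prime) (F Q Q' : Subgroup X)
    (hQ : Q ≤ F) (hQ' : Q' ≤ F) (h1 : Nat.card Q = p ^ (Nat.card F).factorization p)
    (h2 : Nat.card Q' = p ^ (Nat.card F).factorization p) :
    ∃ g ∈ F, ∀ x, x ∈ Q' ↔ g * x * g⁻¹ ∈ Q := by
  have h3 : Nat.card (Q.subgroupOf F) = p ^ (Nat.card F).factorization p := by
    rw [← h1]
    exact Nat.card_congr (Subgroup.subgroupOfEquivOfLe hQ).toEquiv
  have h4 : Nat.card (Q'.subgroupOf F) = p ^ (Nat.card F).factorization p := by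
    rw [← h2]
    exact Nat.card_congr (Subgroup.subgroupOfEquivOfLe hQ').toEquiv
  obtain ⟨g, hg⟩ := conj_syl hp h3 h4
  refine ⟨(g : X)⁻¹, F.inv_mem g.2, fun x => ?_⟩
  rw [inv_inv]
  constructor
  · intro hx
    exact (hg ⟨x, hQ' hx⟩).1 hx
  · intro hx
    have hxF : x ∈ F := by
      have h5 := F.mul_mem (F.mul_mem g.2 (hQ hx)) (F.inv_mem g.2)
      have h6 : (g : X) * ((g : X)⁻¹ * x * g) * (g : X)⁻¹ = x := by group
      rw [h6] at h5
      exact h5
    exact (hg ⟨x, hxF⟩).2 hx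

/-- the centralizer of `w` in `F` -/
def Cw (F : Subgroup X) (w : X) : Subgroup X where
  carrier := {x | x ∈ F ∧ w * x = x * w}
  one_mem' := ⟨F.one_mem, by rw [mul_one, one_mul]⟩
  mul_mem' {a b} ha hb := ⟨F.mul_mem ha.1 hb.1, by
    rw [← mul_assoc, ha.2, mul_assoc, hb.2, mul_assoc]⟩
  inv_mem' {a} ha := ⟨F.inv_mem ha.1, by
    rw [eq_inv_mul_iff_mul_eq, ← mul_assoc, ← ha.2, mul_assoc, mul_inv_cancel, mul_one]⟩

theorem mem_Cw {F : Subgroup X} {w x : X} : x ∈ Cw F w ↔ x ∈ F ∧ w * x = x * w := Iff.rfl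

/-- the centralizer of `R` in `F` -/
def CR (F R : Subgroup X) : Subgroup X where
  carrier := {d | d ∈ F ∧ ∀ x ∈ R, x * d = d * x}
  one_mem' := ⟨F.one_mem, fun x _ => by rw [mul_one, one_mul]⟩
  mul_mem' {a b} ha hb := ⟨F.mul_mem ha.1 hb.1, fun x hx => by
    rw [← mul_assoc, ha.2 x hx, mul_assoc, hb.2 x hx, mul_assoc]⟩
  inv_mem' {a} ha := ⟨F.inv_mem ha.1, fun x hx => by
    rw [eq_inv_mul_iff_mul_eq, ← mul_assoc, ← ha.2 x hx, mul_assoc, mul_inv_cancel, mul_one]⟩

theorem mem_CR {F R : Subgroup X} {d : X} : d ∈ CR F R ↔ d ∈ F ∧ ∀ x ∈ R, x * d = d * x :=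
  Iff.rfl

/-- `C_Q(w)` is a Sylow subgroup of `C_F(w)` -/
theorem card_Cw (hSQD : SpecSQD) [Finite X] {p : ℕ} (hp : p.Prime) (F : Subgroup X) [F.Normal]
    (w : X) (hw : ∃ k : ℕ, w ^ p ^ k = 1) (Q : Subgroup X) (hQF : Q ≤ F)
    (hQ : Nat.card Q = p ^ (Nat.card F).factorization p) (hab : ∀ x ∈ Q, ∀ y ∈ Q, x * y = y * x)
    (hwQ : ∀ x ∈ Q, w * x * w⁻¹ ∈ Q) :
    Nat.card (Cw Q w) = p ^ (Nat.card (Cw F w)).factorization p := by
  have : Fact p.Prime := ⟨hp⟩
  have hle : Cw Q w ≤ Cw F w := fun x hx => ⟨hQF hx.1, hx.2⟩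
  have hle2 : Cw Q w ≤ Q := fun x hx => hx.1
  apply le_antisymm
  · -- the order is a power of `p`
    have h1 : Nat.card (Cw Q w) ∣ p ^ (Nat.card F).factorization p := by
      rw [← hQ]
      exact Subgroup.card_dvd_of_le hle2
    obtain ⟨j, -, hj⟩ := (Nat.dvd_prime_pow hp).1 h1
    rw [hj]
    apply Nat.pow_le_pow_right hp.pos
    have h2 : p ^ j ∣ Nat.card (Cw F w) := by
      rw [← hj]
      exact Subgroup.card_dvd_of_le hle
    exact (hp.pow_dvd_iff_le_factorization Nat.card_pos.ne').1 h2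
  · obtain ⟨S⟩ : Nonempty (Sylow p (Cw F w)) := inferInstance
    have h1 := S.card_eq_multiplicity
    have h2 : Nat.card ((S : Subgroup (Cw F w)).map (Cw F w).subtype) =
        Nat.card (S : Subgroup (Cw F w)) :=
      Subgroup.card_map_of_injective (Cw F w).subtype_injective
    rw [← h1, ← h2]
    refine hSQD p hp F w hw Q hQF hQ hab hwQ _ ?_ ?_ ?_
    · rintro x ⟨y, -, rfl⟩
      exact y.2.1
    · exact S.2.map _
    · rintro x ⟨y, -, rfl⟩
      exact y.2.2

/-- a fixed point -/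
theorem card_dvd (p : ℕ) (hp : p.Prime) {Y : Type} (S : Finset Y) (s : Y → Y) (k : ℕ)
    (h1 : ∀ x ∈ S, s x ∈ S) (h2 : ∀ x ∈ S, s^[p ^ k] x = x) (h3 : ∀ x ∈ S, s x ≠ x) :
    p ∣ S.card := PSM_card p hp S s k h1 h2 h3

/-- the case `C_Q(w) = C_(Q')(w)` -/
theorem core (hTRN : SpecTRN) [Finite X] {p : ℕ} (hp : p.Prime) (F : Subgroup X) [F.Normal]
    (w : X) {k : ℕ} (hw : w ^ p ^ k = 1) (Q Q' : Subgroup X) (hQF : Q ≤ F) (hQF' : Q' ≤ F)
    (hQ : Nat.card Q = p ^ (Nat.card F).factorization p)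
    (hQ' : Nat.card Q' = p ^ (Nat.card F).factorization p)
    (hab : ∀ x ∈ Q, ∀ y ∈ Q, x * y = y * x) (hab' : ∀ x ∈ Q', ∀ y ∈ Q', x * y = y * x)
    (hwQ : ∀ x ∈ Q, w * x * w⁻¹ ∈ Q) (hwQ' : ∀ x ∈ Q', w * x * w⁻¹ ∈ Q')
    (hC : ∀ x, x ∈ Cw Q' w ↔ x ∈ Cw Q w) :
    ∃ u ∈ F, w * u = u * w ∧ ∀ x, x ∈ Q' ↔ u⁻¹ * x * u ∈ Q := by
  classical
  set D := CR F (Cw Q w) with hD
  have hDF : D ≤ F := fun x hx => hx.1
  have hQD : Q ≤ D := fun x hx => ⟨hQF hx, fun y hy => hab y hy.1 x hx⟩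
  have hQD' : Q' ≤ D := fun x hx => ⟨hQF' hx, fun y hy => hab' y ((hC y).2 hy).1 x hx⟩
  have hFn : F.Normal := inferInstance
  have hwD : ∀ d ∈ D, w * d * w⁻¹ ∈ D := by
    intro d hd
    refine ⟨hFn.conj_mem d hd.1 w, fun x hx => ?_⟩
    have h1 : w * x = x * w := hx.2
    have h2 : x * w⁻¹ = w⁻¹ * x := by
      rw [eq_inv_mul_iff_mul_eq, ← mul_assoc, h1, mul_assoc, mul_inv_cancel, mul_one]
    have h3 := hd.2 x hx
    calc x * (w * d * w⁻¹) = (x * w) * d * w⁻¹ := by simp only [mul_assoc]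
      _ = w * (x * d) * w⁻¹ := by rw [← h1]; simp only [mul_assoc]
      _ = w * d * (x * w⁻¹) := by rw [h3]; simp only [mul_assoc]
      _ = w * d * w⁻¹ * x := by rw [h2]; simp only [mul_assoc]
  have hwD' : ∀ d ∈ D, w⁻¹ * d * w ∈ D := by
    intro d hd
    refine ⟨by simpa using hFn.conj_mem d hd.1 w⁻¹, fun x hx => ?_⟩
    have h1 : w * x = x * w := hx.2
    have h2 : x * w⁻¹ = w⁻¹ * x := by
      rw [eq_inv_mul_iff_mul_eq, ← mul_assoc, h1, mul_assoc, mul_inv_cancel, mul_one]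
    have h3 := hd.2 x hx
    calc x * (w⁻¹ * d * w) = (x * w⁻¹) * d * w := by simp only [mul_assoc]
      _ = w⁻¹ * (x * d) * w := by rw [h2]; simp only [mul_assoc]
      _ = w⁻¹ * d * (x * w) := by rw [h3]; simp only [mul_assoc]
      _ = w⁻¹ * d * w * x := by rw [← h1]; simp only [mul_assoc]
  let θ : D ≃* D :=
    { toFun := fun d => ⟨w * d * w⁻¹, hwD d d.2⟩
      invFun := fun d => ⟨w⁻¹ * d * w, hwD' d d.2⟩
      left_inv := fun d => Subtype.ext (by
        show w⁻¹ * (w * (d : X) * w⁻¹) * w = d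
        group)
      right_inv := fun d => Subtype.ext (by
        show w * (w⁻¹ * (d : X) * w) * w⁻¹ = d
        group)
      map_mul' := fun d d' => Subtype.ext (by
        show w * ((d : X) * d') * w⁻¹ = w * (d : X) * w⁻¹ * (w * (d' : X) * w⁻¹)
        group) }
  have hθ : ∀ d : D, ((θ d : D) : X) = w * d * w⁻¹ := fun d => rfl
  have hθn : ∀ (n : ℕ) (d : D), ((θ^[n] d : D) : X) = w ^ n * d * (w ^ n)⁻¹ := by
    intro n
    induction n with
    | zero => intro d; simp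
    | succ n ih =>
      intro d
      rw [Function.iterate_succ_apply', hθ, ih, pow_succ']
      group
  have hθk : ∀ d : D, θ^[p ^ k] d = d := by
    intro d
    apply Subtype.ext
    rw [hθn, hw, one_mul, inv_one, mul_one]
  -- the order of `D`
  have hDc : (Nat.card D).factorization p = (Nat.card F).factorization p := by
    apply le_antisymm
    · exact (Nat.factorization_le_iff_dvd Nat.card_pos.ne' Nat.card_pos.ne').2
        (Subgroup.card_dvd_of_le hDF) p
    · have h1 : p ^ (Nat.card F).factorization p ∣ Nat.card D := by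
        rw [← hQ]
        exact Subgroup.card_dvd_of_le hQD
      exact (hp.pow_dvd_iff_le_factorization Nat.card_pos.ne').1 h1
  have hcard : Nat.card (Q.subgroupOf D) = p ^ (Nat.card D).factorization p := by
    rw [hDc, ← hQ]
    exact Nat.card_congr (Subgroup.subgroupOfEquivOfLe hQD).toEquiv
  obtain ⟨U, hUn, hUp, hUd, hUθ⟩ := hTRN p hp (Q.subgroupOf D) hcard
    (fun x hx y hy => Subtype.ext (hab x hx y hy)) θ (fun x hx => hwQ x hx) ⟨k, hθk⟩
    (fun x hx hxx d => by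
      apply Subtype.ext
      refine d.2.2 x ⟨hx, ?_⟩
      have h1 := congrArg Subtype.val hxx
      rw [hθ] at h1
      exact mul_inv_eq_iff_eq_mul.1 h1)
  -- conjugacy in `D`
  obtain ⟨g, hgD, hg⟩ := conj_in hp D Q Q' hQD hQD' (by rw [hDc]; exact hQ)
    (by rw [hDc]; exact hQ')
  obtain ⟨u₁, hu₁, x₁, hx₁, hgu⟩ := hUd ⟨g⁻¹, D.inv_mem hgD⟩
  have hgu' : g⁻¹ = (u₁ : X) * x₁ := congrArg Subtype.val hgu
  have hx₁Q : (x₁ : X) ∈ Q := hx₁
  have hu₁Q : ∀ y : X, y ∈ Q' ↔ (u₁ : X)⁻¹ * y * u₁ ∈ Q := by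
    intro y
    rw [hg y]
    have h1 : g = (x₁ : X)⁻¹ * (u₁ : X)⁻¹ := by
      rw [← mul_inv_rev, ← hgu', inv_inv]
    have h2 : g * y * g⁻¹ = (x₁ : X)⁻¹ * ((u₁ : X)⁻¹ * y * u₁) * x₁ := by
      rw [hgu', h1]
      group
    rw [h2]
    constructor
    · intro h
      have h3 := Q.mul_mem (Q.mul_mem hx₁Q h) (Q.inv_mem hx₁Q)
      have h4 : (x₁ : X) * ((x₁ : X)⁻¹ * ((u₁ : X)⁻¹ * y * u₁) * x₁) * (x₁ : X)⁻¹ =
          (u₁ : X)⁻¹ * y * u₁ := by group
      rw [h4] at h3
      exact h3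
    · intro h
      exact Q.mul_mem (Q.mul_mem (Q.inv_mem hx₁Q) h) hx₁Q
  -- the coset
  have : Fintype D := Fintype.ofFinite D
  set Ω : Finset D := univ.filter fun u : D => u ∈ U ∧ ∀ y : X, y ∈ Q' ↔ (u : X)⁻¹ * y * u ∈ Q
    with hΩ
  have hmem : ∀ u : D, u ∈ Ω ↔ u ∈ U ∧ ∀ y : X, y ∈ Q' ↔ (u : X)⁻¹ * y * u ∈ Q := by
    intro u
    rw [hΩ, mem_filter]
    exact ⟨fun h => h.2, fun h => ⟨mem_univ _, h⟩⟩
  let N : Subgroup D :=
    { carrier := {n | n ∈ U ∧ ∀ y : X, y ∈ Q ↔ (n : X)⁻¹ * y * n ∈ Q}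
      one_mem' := ⟨U.one_mem, fun y => by simp⟩
      mul_mem' := fun {a b} ha hb => ⟨U.mul_mem ha.1 hb.1, fun y => by
        rw [ha.2 y, hb.2]
        have h1 : (b : X)⁻¹ * ((a : X)⁻¹ * y * a) * b =
            (((a * b : D) : X))⁻¹ * y * ((a * b : D) : X) := by
          rw [Subgroup.coe_mul]
          group
        rw [h1]⟩
      inv_mem' := fun {a} ha => ⟨U.inv_mem ha.1, fun y => by
        rw [ha.2 (((a⁻¹ : D) : X)⁻¹ * y * ((a⁻¹ : D) : X))]
        have h1 : (a : X)⁻¹ * (((a⁻¹ : D) : X)⁻¹ * y * ((a⁻¹ : D) : X)) * a = y := by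
          rw [Subgroup.coe_inv]
          group
        rw [h1]⟩ }
  have hN : ∀ n : D, n ∈ N ↔ n ∈ U ∧ ∀ y : X, y ∈ Q ↔ (n : X)⁻¹ * y * n ∈ Q := fun n => Iff.rfl
  have hNU : N ≤ U := fun n hn => hn.1
  have hcardN : Ω.card = Nat.card N := by
    have : Fintype N := Fintype.ofFinite N
    rw [Nat.card_eq_fintype_card, ← Fintype.card_coe]
    refine Fintype.card_congr ⟨fun u => ⟨u₁⁻¹ * u.1, ?_⟩, fun n => ⟨u₁ * n.1, ?_⟩, ?_, ?_⟩
    · have hu := (hmem u.1).1 u.2
      rw [hN]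
      refine ⟨U.mul_mem (U.inv_mem hu₁) hu.1, fun y => ?_⟩
      have h1 : ((u₁⁻¹ * u.1 : D) : X)⁻¹ * y * ((u₁⁻¹ * u.1 : D) : X) =
          (u.1 : X)⁻¹ * ((u₁ : X) * y * (u₁ : X)⁻¹) * u.1 := by
        rw [Subgroup.coe_mul, Subgroup.coe_inv]
        group
      rw [h1, ← hu.2, hu₁Q]
      have h2 : (u₁ : X)⁻¹ * ((u₁ : X) * y * (u₁ : X)⁻¹) * u₁ = y := by group
      rw [h2]
    · have hn := (hN n.1).1 n.2
      rw [hmem]
      refine ⟨U.mul_mem hu₁ hn.1, fun y => ?_⟩
      have h1 : ((u₁ * n.1 : D) : X)⁻¹ * y * ((u₁ * n.1 : D) : X) =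
          (n.1 : X)⁻¹ * ((u₁ : X)⁻¹ * y * u₁) * n.1 := by
        rw [Subgroup.coe_mul]
        group
      rw [h1, ← hn.2, hu₁Q]
    · intro u
      exact Subtype.ext (mul_inv_cancel_left u₁ u.1)
    · intro n
      exact Subtype.ext (inv_mul_cancel_left u₁ n.1)
  have hpΩ : ¬ p ∣ Ω.card := by
    intro h
    rw [hcardN] at h
    have h1 := h.trans (Subgroup.card_dvd_of_le hNU)
    exact hp.one_lt.ne' (Nat.eq_one_of_dvd_coprimes hUp h1 dvd_rfl)
  have hfix : ∃ u ∈ Ω, θ u = u := by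
    by_contra hcon
    push Not at hcon
    apply hpΩ
    refine card_dvd p hp Ω θ k ?_ (fun x _ => hθk x) hcon
    intro u hu
    rw [hmem] at hu ⊢
    refine ⟨hUθ u hu.1, fun y => ?_⟩
    rw [hθ]
    have h1 : (w * (u : X) * w⁻¹)⁻¹ * y * (w * (u : X) * w⁻¹) =
        w * ((u : X)⁻¹ * (w⁻¹ * y * w) * u) * w⁻¹ := by group
    rw [h1]
    have hQe : ∀ z : X, w * z * w⁻¹ ∈ Q ↔ z ∈ Q := by
      intro z
      constructor
      · intro hz
        -- conjugation by `w` is bijective on `Q`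
        have h2 : ∀ (n : ℕ) (z : X), z ∈ Q → w ^ n * z * (w ^ n)⁻¹ ∈ Q := by
          intro n
          induction n with
          | zero => intro z hz; simpa using hz
          | succ n ih =>
            intro z hz
            have h3 := hwQ _ (ih z hz)
            have h4 : w * (w ^ n * z * (w ^ n)⁻¹) * w⁻¹ = w ^ (n + 1) * z * (w ^ (n + 1))⁻¹ := by
              rw [pow_succ']
              group
            rw [h4] at h3
            exact h3
        have h3 := h2 (p ^ k - 1) _ hz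
        have h4 : w ^ (p ^ k - 1) * w = 1 := by
          rw [← pow_succ, Nat.sub_add_cancel (Nat.one_le_iff_ne_zero.2
            (pow_ne_zero k hp.ne_zero)), hw]
        have h5 : w ^ (p ^ k - 1) * (w * z * w⁻¹) * (w ^ (p ^ k - 1))⁻¹ =
            (w ^ (p ^ k - 1) * w) * z * (w ^ (p ^ k - 1) * w)⁻¹ := by group
        rw [h5, h4] at h3
        simpa using h3
      · intro hz
        exact hwQ z hz
    have hQe' : ∀ z : X, w * z * w⁻¹ ∈ Q' ↔ z ∈ Q' := by
      intro z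
      constructor
      · intro hz
        have h2 : ∀ (n : ℕ) (z : X), z ∈ Q' → w ^ n * z * (w ^ n)⁻¹ ∈ Q' := by
          intro n
          induction n with
          | zero => intro z hz; simpa using hz
          | succ n ih =>
            intro z hz
            have h3 := hwQ' _ (ih z hz)
            have h4 : w * (w ^ n * z * (w ^ n)⁻¹) * w⁻¹ = w ^ (n + 1) * z * (w ^ (n + 1))⁻¹ := by
              rw [pow_succ']
              group
            rw [h4] at h3
            exact h3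
        have h3 := h2 (p ^ k - 1) _ hz
        have h4 : w ^ (p ^ k - 1) * w = 1 := by
          rw [← pow_succ, Nat.sub_add_cancel (Nat.one_le_iff_ne_zero.2
            (pow_ne_zero k hp.ne_zero)), hw]
        have h5 : w ^ (p ^ k - 1) * (w * z * w⁻¹) * (w ^ (p ^ k - 1))⁻¹ =
            (w ^ (p ^ k - 1) * w) * z * (w ^ (p ^ k - 1) * w)⁻¹ := by group
        rw [h5, h4] at h3
        simpa using h3
      · intro hz
        exact hwQ' z hz
    rw [hQe, ← hu.2, ← hQe' (w⁻¹ * y * w)]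
    have h6 : w * (w⁻¹ * y * w) * w⁻¹ = y := by group
    rw [h6]
  obtain ⟨u, hu, huθ⟩ := hfix
  refine ⟨u, hDF u.2, ?_, ((hmem u).1 hu).2⟩
  have h1 := congrArg Subtype.val huθ
  rw [hθ] at h1
  exact mul_inv_eq_iff_eq_mul.1 h1

end INV

open INV in
theorem specINV (hSQD : SpecSQD) (hTRN : SpecTRN) : SpecINV := by
  intro p hp X _ _ F _ w hw Q Q' hQF hQF' hQ hQ' hab hwQ hwQ'
  -- `Q'` is abelian
  obtain ⟨g, hgF, hg⟩ := conj_in hp F Q Q' hQF hQF' hQ hQ'
  have hab' : ∀ x ∈ Q', ∀ y ∈ Q', x * y = y * x := by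
    intro x hx y hy
    have h1 := hab _ ((hg x).1 hx) _ ((hg y).1 hy)
    have h2 : g * x * g⁻¹ * (g * y * g⁻¹) = g * (x * y) * g⁻¹ := by group
    have h3 : g * y * g⁻¹ * (g * x * g⁻¹) = g * (y * x) * g⁻¹ := by group
    rw [h2, h3] at h1
    exact mul_left_cancel (mul_right_cancel h1)
  have h1 := card_Cw hSQD hp F w hw Q hQF hQ hab hwQ
  have h2 := card_Cw hSQD hp F w hw Q' hQF' hQ' hab' hwQ'
  obtain ⟨c, hcF, hc⟩ := conj_in hp (Cw F w) (Cw Q w) (Cw Q' w) (fun x hx => ⟨hQF hx.1, hx.2⟩)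
    (fun x hx => ⟨hQF' hx.1, hx.2⟩) h1 h2
  have hcw : w * c = c * w := hcF.2
  have hcw' : c⁻¹ * w = w * c⁻¹ := by
    rw [inv_mul_eq_iff_eq_mul, ← mul_assoc, ← hcw, mul_assoc, mul_inv_cancel, mul_one]
  obtain ⟨k, hk⟩ := hw
  set Q'' : Subgroup X := Q'.comap (MulAut.conj c⁻¹).toMonoidHom with hQ''
  have hm : ∀ x, x ∈ Q'' ↔ c⁻¹ * x * c ∈ Q' := by
    intro x
    rw [hQ'', Subgroup.mem_comap]
    have : (MulAut.conj c⁻¹).toMonoidHom x = c⁻¹ * x * c := by
      show c⁻¹ * x * c⁻¹⁻¹ = _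
      rw [inv_inv]
    rw [this]
  have hFn : F.Normal := inferInstance
  have hQF'' : Q'' ≤ F := by
    intro x hx
    have h3 := hFn.conj_mem _ (hQF' ((hm x).1 hx)) c
    have h4 : c * (c⁻¹ * x * c) * c⁻¹ = x := by group
    rw [h4] at h3
    exact h3
  have hcard'' : Nat.card Q'' = p ^ (Nat.card F).factorization p := by
    rw [← hQ']
    refine Nat.card_congr ⟨fun x => ⟨c⁻¹ * x * c, (hm x).1 x.2⟩, fun y => ⟨c * y * c⁻¹, ?_⟩, ?_, ?_⟩
    · rw [hm]
      have h4 : c⁻¹ * (c * (y : X) * c⁻¹) * c = y := by group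
      rw [h4]
      exact y.2
    · intro x
      apply Subtype.ext
      show c * (c⁻¹ * (x : X) * c) * c⁻¹ = x
      group
    · intro y
      apply Subtype.ext
      show c⁻¹ * (c * (y : X) * c⁻¹) * c = y
      group
  have hab'' : ∀ x ∈ Q'', ∀ y ∈ Q'', x * y = y * x := by
    intro x hx y hy
    have h3 := hab' _ ((hm x).1 hx) _ ((hm y).1 hy)
    have h4 : c⁻¹ * x * c * (c⁻¹ * y * c) = c⁻¹ * (x * y) * c := by group
    have h5 : c⁻¹ * y * c * (c⁻¹ * x * c) = c⁻¹ * (y * x) * c := by group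
    rw [h4, h5] at h3
    exact mul_left_cancel (mul_right_cancel h3)
  have hw'' : ∀ x ∈ Q'', w * x * w⁻¹ ∈ Q'' := by
    intro x hx
    rw [hm] at hx ⊢
    have h3 := hwQ' _ hx
    have h4 : w⁻¹ * c = c * w⁻¹ := by
      rw [inv_mul_eq_iff_eq_mul, ← mul_assoc, hcw, mul_assoc, mul_inv_cancel, mul_one]
    have h5 : c⁻¹ * (w * x * w⁻¹) * c = w * (c⁻¹ * x * c) * w⁻¹ := by
      calc c⁻¹ * (w * x * w⁻¹) * c = (c⁻¹ * w) * x * (w⁻¹ * c) := by simp only [mul_assoc]
        _ = w * (c⁻¹ * x * c) * w⁻¹ := by rw [hcw', h4]; simp only [mul_assoc]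
    rw [h5]
    exact h3
  have hC : ∀ x, x ∈ Cw Q'' w ↔ x ∈ Cw Q w := by
    intro x
    have h3 := hc (c⁻¹ * x * c)
    have h4 : c * (c⁻¹ * x * c) * c⁻¹ = x := by group
    rw [h4] at h3
    rw [← h3, mem_Cw, mem_Cw, hm]
    refine and_congr_right fun _ => ?_
    have h5 : w⁻¹ * c = c * w⁻¹ := by
      rw [inv_mul_eq_iff_eq_mul, ← mul_assoc, hcw, mul_assoc, mul_inv_cancel, mul_one]
    constructor
    · intro h
      calc w * (c⁻¹ * x * c) = (w * c⁻¹) * x * c := by simp only [mul_assoc]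
        _ = c⁻¹ * (w * x) * c := by rw [← hcw']; simp only [mul_assoc]
        _ = c⁻¹ * x * (w * c) := by rw [h]; simp only [mul_assoc]
        _ = c⁻¹ * x * c * w := by rw [hcw]; simp only [mul_assoc]
    · intro h
      have h6 : c * (w * (c⁻¹ * x * c)) * c⁻¹ = c * (c⁻¹ * x * c * w) * c⁻¹ := by rw [h]
      calc w * x = (w * c) * (c⁻¹ * x) := by group
        _ = c * (w * (c⁻¹ * x * c)) * c⁻¹ := by rw [hcw]; group
        _ = c * (c⁻¹ * x * c * w) * c⁻¹ := h6
        _ = x * (c * w) * c⁻¹ := by group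
        _ = x * w := by rw [← hcw]; group
  obtain ⟨u, huF, huw, hu⟩ := core hTRN hp F w hk Q Q'' hQF hQF'' hQ hcard'' hab hab'' hwQ hw'' hC
  refine ⟨u⁻¹ * c, F.mul_mem (F.inv_mem huF) hcF.1, ?_, fun x => ?_⟩
  · have h3 : w * u⁻¹ = u⁻¹ * w := by
      rw [eq_inv_mul_iff_mul_eq, ← mul_assoc, ← huw, mul_assoc, mul_inv_cancel, mul_one]
    rw [← mul_assoc, h3, mul_assoc, hcw, mul_assoc]
  · have h3 := hm (c * x * c⁻¹)
    have h4 : c⁻¹ * (c * x * c⁻¹) * c = x := by group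
    rw [h4] at h3
    rw [← h3, hu]
    have h5 : u⁻¹ * (c * x * c⁻¹) * u = u⁻¹ * c * x * (u⁻¹ * c)⁻¹ := by group
    rw [h5]

end Pool.Agent.Lib.MP_1aae89_al.W4
end

section
/-!
# Module NRF: the norm of `avK`
-/
set_option autoImplicit false

namespace Pool.Agent.Lib.MP_1aae89_al.W4

open Pool.Agent.Lib.MP_1aae89_al Pool.Agent.Lib.MP_1aae89_al.BF Pool.Agent.Lib.MP_1aae89_al.W3 Finset
open Pool.Agent.Lib.MP_1aae89_al.W (GC LD nR)
open Pool.Agent.Lib.MP_1aae89_al.W.NRM (trace_eq_of_ne galR galR_trace)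
open Pool.Agent.Lib.MP1aae89 (Pex)
open scoped ComplexConjugate



open NR2

theorem specNRF (hPRM : SpecPRM) (hCJF : SpecCJF) : SpecNRF := by
  intro p L s0 b X _ _ P n r K hr hn hy hne
  classical
  obtain ⟨hp, hb, hL, hcard, hpex, hsyl, hchar, hfx, hkp⟩ := hy
  have hy : Hz p L s0 b P (fun y => (r y).trace) K :=
    ⟨hp, hb, hL, hcard, hpex, hsyl, hchar, hfx, hkp⟩
  obtain ⟨hcopL, -, -, -, hA, -⟩ := hPRM p hp L s0 hL hpex
  set χ : X → ℂ := fun y => (r y).trace with hχ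
  set e := s0 * p ^ (b - 1) with he
  have hL0 : 0 < L := Nat.pos_of_ne_zero hL
  have hp0 : (p : ℂ) ≠ 0 := by exact_mod_cast hp.pos.ne'
  have hpe : p ∣ e := (dvd_pow_self p (by omega)).mul_left _
  have hyL : ∀ y : X, y ^ L = 1 := fun y => by
    obtain ⟨k, hk⟩ := hcard
    rw [hk, Nat.card_eq_fintype_card, pow_mul, pow_card_eq_one, one_pow]
  have hmodL : ∀ (y : X) (a b : ℕ), a ≡ b [MOD L] → y ^ a = y ^ b := fun y a b hab =>
    pow_eq_pow_iff_modEq.mpr (hab.of_dvd (orderOf_dvd_of_pow_eq_one (hyL y)))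
  have hcop : ∀ i, (1 + e * i).Coprime L := fun i => hcopL (b - 1) i (by omega)
  have hcopp : ∀ i, (1 + e * i).Coprime p := by
    intro i
    have h1 : p ∣ e * i := hpe.mul_right i
    obtain ⟨k, hk⟩ := h1
    rw [hk, Nat.coprime_comm, Nat.coprime_add_mul_left_right]
    exact Nat.coprime_one_right p
  -- values of `K`
  have hKp : ∀ y, K y ^ p = 1 := by
    intro y
    rw [← Lin.pow_apply, hkp, Lin.one_apply]
  have hKe : ∀ y i, K (y ^ (1 + e * i)) = K y := by
    intro y i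
    obtain ⟨k, hk⟩ := hpe.mul_right i
    rw [map_pow, pow_add, pow_one, hk, pow_mul, hKp, one_pow, mul_one]
  -- invariance
  have hst : ∀ (A t' : ℕ) (y : X), A.Coprime p → χ (y ^ (A + s0 * p ^ b * t')) = χ (y ^ A) := by
    intro A t' y hAp
    obtain ⟨t, ht⟩ := hA A b t' hAp
    rw [hmodL y _ _ ht, pow_mul]
    exact hfx t (y ^ A)
  have he2 : ∀ i j, ∃ t', (1 + e * i) * (1 + e * j) = (1 + e * (i + j)) + s0 * p ^ b * t' := by
    intro i j
    refine ⟨s0 * p ^ (b - 2) * (i * j), ?_⟩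
    have h1 : p ^ (b - 1) * p ^ (b - 1) = p ^ b * p ^ (b - 2) := by
      rw [← pow_add, ← pow_add]
      congr 1
      omega
    rw [he]
    calc (1 + s0 * p ^ (b - 1) * i) * (1 + s0 * p ^ (b - 1) * j)
        = (1 + s0 * p ^ (b - 1) * (i + j)) + s0 * s0 * (p ^ (b - 1) * p ^ (b - 1)) * (i * j) := by
          ring
      _ = _ := by rw [h1]; ring
  have hmul : ∀ (i j : ℕ) (y : X), χ ((y ^ (1 + e * i)) ^ (1 + e * j)) = χ (y ^ (1 + e * (i + j))) := by
    intro i j y
    obtain ⟨t', ht'⟩ := he2 i j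
    rw [← pow_mul, ht', hst _ _ _ (hcopp _)]
  -- the key: no relation
  have hkey : ∀ i < p, ∀ j < p, i ≠ j →
      ¬ ∀ y, χ (y ^ (1 + e * i)) = (K y : ℂ) ^ i * ((K y : ℂ) ^ j)⁻¹ * χ (y ^ (1 + e * j)) := by
    intro i hi j hj hij H
    set d := i + (p - j) with hd
    have hKu : ∀ y, (K y : ℂ) ≠ 0 := fun y => (K y).ne_zero
    have hKpc : ∀ y, (K y : ℂ) ^ p = 1 := by
      intro y
      have := hKp y
      rw [← Units.val_pow_eq_pow_val, this, Units.val_one]
    have h1 : ∀ y, χ (y ^ (1 + e * d)) = (K y : ℂ) ^ d * χ y := by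
      intro y
      have h2 := H (y ^ (1 + e * (p - j)))
      rw [hmul, hmul, hKe] at h2
      have h3 : p - j + j = p := by omega
      have h4 : χ (y ^ (1 + e * p)) = χ y := by
        have h5 := hfx 1 y
        rw [mul_one] at h5
        have h6 : e * p = s0 * p ^ b := by
          rw [he, mul_assoc, ← pow_succ]
          congr 2
          omega
        rw [h6]
        exact h5
      rw [h3, h4, add_comm (p - j) i] at h2
      rw [hd, h2, pow_add]
      congr 2
      refine inv_eq_of_mul_eq_one_right ?_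
      rw [← pow_add, show j + (p - j) = p by omega, hKpc]
    have h2 : ∀ (m : ℕ) (y : X), χ (y ^ (1 + e * (d * m))) = (K y : ℂ) ^ (d * m) * χ y := by
      intro m
      induction m with
      | zero =>
        intro y
        rw [mul_zero, mul_zero, add_zero, pow_one, pow_zero, one_mul]
      | succ m ih =>
        intro y
        have h3 := hmul d (d * m) y
        rw [ih, hKe, h1] at h3
        rw [mul_add, mul_one, add_comm (d * m) d, ← h3, pow_add]
        ring
    have hdp : d.Coprime p := by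
      rw [Nat.coprime_comm, hp.coprime_iff_not_dvd]
      intro hdv
      obtain ⟨k, hk⟩ := hdv
      have h3 : k = 1 := by
        have h4 : 0 < k := by
          rcases Nat.eq_zero_or_pos k with h | h
          · rw [h, mul_zero] at hk
            omega
          · exact h
        have h5 : k < 2 := by
          by_contra h
          push Not at h
          have := Nat.mul_le_mul_left p h
          omega
        omega
      rw [h3, mul_one] at hk
      omega
    obtain ⟨m, -, hm⟩ := Nat.exists_mul_mod_eq_one_of_coprime hdp hp.one_lt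
    have h3 : d * m = 1 + p * (d * m / p) := by
      have := Nat.div_add_mod (d * m) p
      omega
    obtain ⟨y, hy1⟩ := hne
    apply hy1
    have h4 := h2 m y
    have h5 : 1 + e * (d * m) = (1 + e) + s0 * p ^ b * (d * m / p) := by
      have h6 : e * p = s0 * p ^ b := by
        rw [he, mul_assoc, ← pow_succ]
        congr 2
        omega
      conv_lhs => rw [h3]
      rw [← h6]
      ring
    rw [h5, hst _ _ _ (by simpa using hcopp 1)] at h4
    have h7 : (K y : ℂ) ^ (d * m) = K y := by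
      rw [h3, pow_add, pow_one, pow_mul, hKpc, one_pow, mul_one]
    rw [h7] at h4
    exact h4
  -- values of the conjugates
  have hgal : ∀ (k : ℕ) (σ : ℂ →+* ℂ), (∀ ξ : ℂ, ξ ^ L = 1 → σ ξ = ξ ^ k) → ∀ y : X,
      σ (χ y) = χ (y ^ k) := by
    intro k σ hσ y
    have h1 : (r y) ^ L = 1 := by rw [← map_pow, hyL, map_one]
    rw [hχ]
    simp only
    rw [gal_trace hL σ hσ (r y) h1, map_pow]
  -- the scalar products
  let ψ : ℕ → X → ℂ := fun i y => (((K y)⁻¹ : ℂˣ) : ℂ) ^ i * χ (y ^ (1 + e * i))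
  let I : ℕ → ℕ → ℂ := fun i j => ∑ y : X, ψ i y * ψ j y⁻¹
  have hI : ∀ i ∈ range p, ∀ j ∈ range p,
      (I i j).re ≤ if i = j then (Fintype.card X : ℝ) else 0 := by
    intro i hi j hj
    rw [mem_range] at hi hj
    obtain ⟨m, hm⟩ : ∃ m : ℕ, (1 + e * j) * m ≡ 1 [MOD L] := by
      have := Nat.exists_mul_mod_eq_one_of_coprime (hcop j)
      rcases Nat.lt_or_ge 1 L with h | h
      · obtain ⟨m, -, hm⟩ := this h
        refine ⟨m, ?_⟩
        rw [Nat.ModEq, hm, Nat.mod_eq_of_lt h]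
      · have h1 : L = 1 := by omega
        exact ⟨0, by rw [h1]; exact Nat.modEq_one⟩
    have hmc : m.Coprime L := by
      have h1 : ((1 + e * j) * m).Coprime L := by
        rw [Nat.Coprime, hm.gcd_eq, Nat.gcd_one_left]
      exact Nat.Coprime.coprime_mul_left h1
    have hmj : ∀ w : X, (w ^ m) ^ (1 + e * j) = w := by
      intro w
      rw [← pow_mul, mul_comm m, hmodL w _ _ hm, pow_one]
    have hKm : ∀ w : X, K (w ^ m) = K w := by
      intro w
      rw [← hKe (w ^ m) j, hmj]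
    -- substitution `y = w ^ m`
    have hbij : Function.Bijective fun w : X => w ^ m := by
      refine (Finite.injective_iff_bijective).1 fun x y hxy => ?_
      have h1 : (x ^ m) ^ (1 + e * j) = (y ^ m) ^ (1 + e * j) := by
        have := congrArg (· ^ (1 + e * j)) hxy
        exact this
      rwa [hmj, hmj] at h1
    obtain ⟨σ, hσ⟩ := Pool.Agent.Lib.MP1aae89.exists_aut L hL0 (m * (1 + e * i))
      (Nat.Coprime.mul_left hmc (hcop i))
    set s := tw (K ^ j * (K ^ i)⁻¹) (galR r σ) with hs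
    have hstr : ∀ w, (s w).trace = (K w : ℂ) ^ j * ((K w : ℂ) ^ i)⁻¹ * χ (w ^ (m * (1 + e * i))) := by
      intro w
      rw [hs, tw_trace, galR_trace, Lin.mul_apply, Lin.inv_apply, Lin.pow_apply, Lin.pow_apply]
      have h1 := hgal _ σ hσ w
      rw [← h1]
      push_cast
      rfl
    have hI1 : I i j = ∑ w : X, (s w).trace * (r w⁻¹).trace := by
      show ∑ y : X, ψ i y * ψ j y⁻¹ = _
      rw [← Function.Bijective.sum_comp hbij fun y => ψ i y * ψ j y⁻¹]
      refine sum_congr rfl fun w _ => ?_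
      rw [hstr]
      have h1 : ψ i (w ^ m) = ((K w : ℂ) ^ i)⁻¹ * χ (w ^ (m * (1 + e * i))) := by
        show (((K (w ^ m))⁻¹ : ℂˣ) : ℂ) ^ i * χ ((w ^ m) ^ (1 + e * i)) = _
        rw [hKm, ← pow_mul, Units.val_inv_eq_inv_val, inv_pow]
      have h2 : ψ j (w ^ m)⁻¹ = (K w : ℂ) ^ j * χ w⁻¹ := by
        show (((K (w ^ m)⁻¹)⁻¹ : ℂˣ) : ℂ) ^ j * χ (((w ^ m)⁻¹) ^ (1 + e * j)) = _
        rw [map_inv, inv_inv, hKm, inv_pow, hmj]
      rw [h1, h2]
      ring
    by_cases h0 : I i j = 0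
    · rw [h0, Complex.zero_re]
      split_ifs
      · exact Nat.cast_nonneg _
      · exact le_rfl
    · rw [hI1] at h0
      have htr := trace_eq_of_ne hr hn h0
      have hij : i = j := by
        by_contra hij
        refine hkey i hi j hj hij fun y => ?_
        have h1 := htr (y ^ (1 + e * j))
        rw [hstr, hKe] at h1
        have h2 : (y ^ (1 + e * j)) ^ (m * (1 + e * i)) = y ^ (1 + e * i) := by
          rw [← pow_mul, ← mul_assoc, pow_mul, hmodL y _ _ hm, pow_one]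
        rw [h2] at h1
        have hKu : (K y : ℂ) ≠ 0 := (K y).ne_zero
        have h3 : χ (y ^ (1 + e * j)) =
            (K y : ℂ) ^ j * ((K y : ℂ) ^ i)⁻¹ * χ (y ^ (1 + e * i)) := h1.symm
        rw [h3]
        field_simp
      rw [if_pos hij, hI1]
      have h1 : ∑ w : X, (s w).trace * (r w⁻¹).trace = (Fintype.card X : ℂ) := by
        have h2 := orth hr hn 1 1
        have hn' : (n : ℂ) ≠ 0 := by exact_mod_cast hn
        rw [Matrix.one_mul, Matrix.trace_one, Fintype.card_fin, div_mul_cancel₀ _ hn'] at h2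
        rw [← h2]
        refine sum_congr rfl fun w _ => ?_
        rw [htr w, Matrix.one_mul, Matrix.mul_one]
      rw [h1, Complex.natCast_re]
  -- the sum
  have hsum : ((∑ y, ‖avK p s0 b χ K y‖ ^ 2 : ℝ) : ℂ) =
      (p : ℂ)⁻¹ ^ 2 * ∑ i ∈ range p, ∑ j ∈ range p, I i j := by
    push_cast
    have h1 : ∀ y ∈ univ, ((‖avK p s0 b χ K y‖ : ℝ) : ℂ) ^ 2 = (p : ℂ)⁻¹ ^ 2 *
        ∑ i ∈ range p, ∑ j ∈ range p, ψ i y * ψ j y⁻¹ := by
      intro y _
      rw [← Complex.mul_conj', ← hCJF p L s0 b P χ K hy y]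
      show ((p : ℂ)⁻¹ * ∑ i ∈ range p, ψ i y) * ((p : ℂ)⁻¹ * ∑ j ∈ range p, ψ j y⁻¹) = _
      rw [← sum_mul_sum]
      ring
    rw [sum_congr rfl h1, ← mul_sum, sum_comm]
    congr 1
    refine sum_congr rfl fun t _ => ?_
    rw [sum_comm]
  have hre : ∑ y, ‖avK p s0 b χ K y‖ ^ 2 =
      (p : ℝ)⁻¹ ^ 2 * ∑ i ∈ range p, ∑ j ∈ range p, (I i j).re := by
    have h1 := congrArg Complex.re hsum
    rw [Complex.ofReal_re] at h1
    rw [h1]
    have h2 : ((p : ℂ)⁻¹ ^ 2) = (((p : ℝ)⁻¹ ^ 2 : ℝ) : ℂ) := by push_cast; rfl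
    rw [h2, Complex.re_ofReal_mul, Complex.re_sum]
    congr 1
    refine sum_congr rfl fun t _ => ?_
    rw [Complex.re_sum]
  show ∑ y, ‖avK p s0 b χ K y‖ ^ 2 ≤ _
  rw [hre]
  have h1 : ∑ i ∈ range p, ∑ j ∈ range p, (I i j).re ≤ (p : ℝ) * (Fintype.card X : ℝ) := by
    calc ∑ i ∈ range p, ∑ j ∈ range p, (I i j).re
        ≤ ∑ i ∈ range p, ∑ j ∈ range p, (if i = j then (Fintype.card X : ℝ) else 0) :=
          sum_le_sum fun t ht => sum_le_sum fun s hs => hI t ht s hs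
      _ = ∑ i ∈ range p, (Fintype.card X : ℝ) := by
          refine sum_congr rfl fun t ht => ?_
          rw [sum_ite_eq, if_pos ht]
      _ = _ := by rw [sum_const, card_range, nsmul_eq_mul]
  have hpr : (0 : ℝ) < p := by exact_mod_cast hp.pos
  calc (p : ℝ)⁻¹ ^ 2 * ∑ i ∈ range p, ∑ j ∈ range p, (I i j).re
      ≤ (p : ℝ)⁻¹ ^ 2 * ((p : ℝ) * (Fintype.card X : ℝ)) :=
        mul_le_mul_of_nonneg_left h1 (by positivity)
    _ = (Fintype.card X : ℝ) / p := by
        field_simp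

end Pool.Agent.Lib.MP_1aae89_al.W4
end

section
/-!
# Module NVF: nonvanishing
-/
set_option autoImplicit false

namespace Pool.Agent.Lib.MP_1aae89_al.W4

open Pool.Agent.Lib.MP_1aae89_al Pool.Agent.Lib.MP_1aae89_al.BF Pool.Agent.Lib.MP_1aae89_al.W3 Finset
open Pool.Agent.Lib.MP_1aae89_al.W (GC LD nR)
open Pool.Agent.Lib.MP1aae89 (Pex)

namespace NVF

/-- a sum of linear characters is a character -/
theorem sum_char {P ι : Type} [Group P] [Fintype ι] (f : ι → Lin P) :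
    IsCharacter fun u : P => ∑ i, ((f i u : ℂˣ) : ℂ) := by
  classical
  set e := Fintype.equivFin ι
  refine ⟨Fintype.card ι,
    { toFun := fun g => Matrix.diagonal fun i => ((f (e.symm i) g : ℂˣ) : ℂ)
      map_one' := ?_
      map_mul' := ?_ }, fun g => ?_⟩
  · rw [← Matrix.diagonal_one]
    congr 1
    funext i
    rw [map_one, Units.val_one]
  · intro x y
    rw [Matrix.diagonal_mul_diagonal]
    congr 1
    funext i
    rw [map_mul, Units.val_mul]
  · show ∑ i, ((f i g : ℂˣ) : ℂ) = (Matrix.diagonal fun i => ((f (e.symm i) g : ℂˣ) : ℂ)).trace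
    rw [Matrix.trace_diagonal]
    exact (Equiv.sum_comp e.symm fun i => ((f i g : ℂˣ) : ℂ)).symm

/-- a sum of linear characters with multiplicities is a character -/
theorem sum_char' {P : Type} [Group P] (S : Finset (Lin P)) (m : Lin P → ℕ) :
    IsCharacter fun u : P => ∑ η ∈ S, (m η : ℂ) * ((η u : ℂˣ) : ℂ) := by
  have h := sum_char (P := P) (ι := Σ η : {η // η ∈ S}, Fin (m η)) fun i => i.1
  have h2 : (fun u : P => ∑ η ∈ S, (m η : ℂ) * ((η u : ℂˣ) : ℂ)) =
      fun u : P => ∑ i : (Σ η : {η // η ∈ S}, Fin (m η)), (((i.1 : Lin P) u : ℂˣ) : ℂ) := by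
    funext u
    rw [Fintype.sum_sigma, ← Finset.sum_coe_sort S]
    refine sum_congr rfl fun η _ => ?_
    show (m η : ℂ) * (((η : Lin P) u : ℂˣ) : ℂ) = ∑ _y : Fin (m η), (((η : Lin P) u : ℂˣ) : ℂ)
    rw [Finset.sum_const, card_univ, Fintype.card_fin, nsmul_eq_mul]
  rw [h2]
  exact h

theorem exists_Lam {P : Type} [Group P] [Finite P] (q : ℕ) (χ : P → ℂ) (k : Lin P) :
    ∃ S : Finset (Lin P), dl q χ k = ∑ η ∈ S, ml χ η ∧ ∀ η, η ∈ S ↔ η ^ q = k := by
  classical
  refine ⟨_, rfl, fun η => ?_⟩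
  rw [mem_filter]
  exact ⟨fun h => h.2, fun h => ⟨mem_univ _, h⟩⟩

end NVF

theorem specNVF (hPRM : SpecPRM) : SpecNVF := by
  classical
  intro p L s0 b X _ _ P χ K h hd u hu
  obtain ⟨-, hself, -, -, -, -⟩ := hPRM p h.pp L s0 h.hL h.pex
  have hp := h.pp
  let _ : Fintype P := Fintype.ofFinite P
  have hC : Nat.card P = p ^ ((Nat.card X).factorization p) := h.syl
  have hpow : ∀ x : X, x ^ L = 1 := by
    intro x
    obtain ⟨c, hc⟩ := h.card
    rw [hc, pow_mul, pow_card_eq_one', one_pow]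
  have hppow : ∀ x : P, x ^ p ^ ((Nat.card X).factorization p) = 1 := by
    intro x
    rw [← hC]
    exact pow_card_eq_one'
  have hppow' : ∀ x : P, (x : X) ^ p ^ ((Nat.card X).factorization p) = 1 := by
    intro x
    have h2 := congrArg (fun y : P => (y : X)) (hppow x)
    simpa using h2
  set q := p ^ (b - 1) with hq
  have hpq : p ∣ q := dvd_pow_self p (by have := h.hb; omega)
  set k : Lin P := resL P K with hk
  obtain ⟨Λ, hdl, hmem⟩ := NVF.exists_Lam q (fun x : P => χ x) k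
  have hchar : IsCharacter fun x : P => χ x := h.char.comp P.subtype
  -- the degree
  set D : P → ℂ := fun w => ∑ η ∈ Λ, ((ml (fun x : P => χ x) η : ℕ) : ℂ) * ((η w : ℂˣ) : ℂ) with hD
  have hDc : IsCharacter D := NVF.sum_char' Λ _
  have hD1 : D 1 = ((dl q (fun x : P => χ x) k : ℕ) : ℂ) := by
    show ∑ η ∈ Λ, ((ml (fun x : P => χ x) η : ℕ) : ℂ) * ((η 1 : ℂˣ) : ℂ) = _
    rw [hdl, Nat.cast_sum]
    exact sum_congr rfl fun η _ => by rw [map_one, Units.val_one, mul_one]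
  have hDu : D ⟨u, hu⟩ ≠ 0 := fun h0 =>
    hd (W.specNVZ p hp D hDc ⟨u, hu⟩ _ (hppow _) h0 _ hD1)
  -- the coefficients
  have hcoef : ∀ η ∈ Λ, ∑ w : P, avK p s0 b χ K w * (((η w)⁻¹ : ℂˣ) : ℂ) =
      (Fintype.card P : ℂ) * ((ml (fun x : P => χ x) η : ℕ) : ℂ) := by
    intro η hη
    have hη' := (hmem η).1 hη
    have hone : ∀ i : ℕ, ∑ w : P, (((K (w : X))⁻¹ : ℂˣ) : ℂ) ^ i *
        χ ((w : X) ^ (1 + s0 * q * i)) * (((η w)⁻¹ : ℂˣ) : ℂ) =
        ∑ w : P, χ w * (((η w)⁻¹ : ℂˣ) : ℂ) := by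
      intro i
      have hcop : (Nat.card P).Coprime (1 + q * i) := by
        rw [hC]
        apply Nat.Coprime.pow_left
        rw [hp.coprime_iff_not_dvd]
        intro hd'
        have h1 : p ∣ q * i := hpq.mul_right i
        have h2 := (Nat.dvd_add_left h1).1 hd'
        exact hp.one_lt.not_ge (Nat.le_of_dvd one_pos h2)
      refine Fintype.sum_equiv (powCoprime hcop) _ _ fun w => ?_
      rw [powCoprime_apply]
      have h1 : (w : X) ^ (1 + s0 * q * i) = ((w ^ (1 + q * i) : P) : X) := by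
        rw [SubgroupClass.coe_pow, pow_add, pow_one, mul_assoc s0, pow_mul,
          hself (w : X) _ (hpow _) (hppow' w), pow_add, pow_one]
      have h2 : η (w ^ (1 + q * i)) = η w * (K (w : X)) ^ i := by
        rw [map_pow, pow_add, pow_one, pow_mul, ← Lin.pow_apply, hη']
        rfl
      rw [h1, h2, mul_inv, Units.val_mul, ← inv_pow, Units.val_pow_eq_pow_val]
      ring
    have hsum : ∑ w : P, avK p s0 b χ K w * (((η w)⁻¹ : ℂˣ) : ℂ) =
        ∑ w : P, χ w * (((η w)⁻¹ : ℂˣ) : ℂ) := by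
      have h1 : ∀ w : P, avK p s0 b χ K w * (((η w)⁻¹ : ℂˣ) : ℂ) =
          (p : ℂ)⁻¹ * ∑ i ∈ range p, (((K (w : X))⁻¹ : ℂˣ) : ℂ) ^ i *
            χ ((w : X) ^ (1 + s0 * q * i)) * (((η w)⁻¹ : ℂˣ) : ℂ) := by
        intro w
        unfold avK
        rw [mul_assoc, Finset.sum_mul]
      rw [Finset.sum_congr rfl fun w _ => h1 w, ← Finset.mul_sum, Finset.sum_comm,
        Finset.sum_congr rfl fun i _ => hone i, Finset.sum_const, Finset.card_range, nsmul_eq_mul,
        ← mul_assoc, inv_mul_cancel₀ (by exact_mod_cast hp.ne_zero), one_mul]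
    rw [hsum, ml_spec hchar, ← mul_assoc,
      mul_inv_cancel₀ (by exact_mod_cast Fintype.card_ne_zero), one_mul]
  -- the sum
  set S : P → ℂ := fun v => ∑ η ∈ Λ, ((η v : ℂˣ) : ℂ) with hS
  have hsumD : (Fintype.card P : ℂ) * D ⟨u, hu⟩ =
      ∑ w : P, avK p s0 b χ K w * S (w⁻¹ * ⟨u, hu⟩) := by
    show (Fintype.card P : ℂ) *
      ∑ η ∈ Λ, ((ml (fun x : P => χ x) η : ℕ) : ℂ) * ((η ⟨u, hu⟩ : ℂˣ) : ℂ) =
      ∑ w : P, avK p s0 b χ K w * ∑ η ∈ Λ, ((η (w⁻¹ * ⟨u, hu⟩) : ℂˣ) : ℂ)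
    have h1 : ∀ w : P, avK p s0 b χ K w * ∑ η ∈ Λ, ((η (w⁻¹ * ⟨u, hu⟩) : ℂˣ) : ℂ) =
        ∑ η ∈ Λ, avK p s0 b χ K w * (((η w)⁻¹ : ℂˣ) : ℂ) * ((η ⟨u, hu⟩ : ℂˣ) : ℂ) := by
      intro w
      rw [mul_sum]
      refine sum_congr rfl fun η _ => ?_
      rw [map_mul, map_inv, Units.val_mul, mul_assoc]
    rw [sum_congr rfl fun w _ => h1 w, sum_comm, mul_sum]
    refine sum_congr rfl fun η hη => ?_
    rw [← sum_mul, hcoef η hη, mul_assoc]
  have hne : ∑ w : P, avK p s0 b χ K w * S (w⁻¹ * ⟨u, hu⟩) ≠ 0 := by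
    rw [← hsumD]
    exact mul_ne_zero (by exact_mod_cast Fintype.card_ne_zero) hDu
  obtain ⟨w, -, hw⟩ := Finset.exists_ne_zero_of_sum_ne_zero hne
  refine ⟨w, ⟨w.2, hu, fun α hα => ?_⟩, left_ne_zero_of_mul hw⟩
  have hSw := right_ne_zero_of_mul hw
  have hαq : α ^ q = 1 := by
    obtain ⟨c, hc⟩ := hpq
    rw [hc, pow_mul, hα, one_pow]
  have hinv : S (w⁻¹ * ⟨u, hu⟩) = ((α (w⁻¹ * ⟨u, hu⟩) : ℂˣ) : ℂ) * S (w⁻¹ * ⟨u, hu⟩) := by
    show ∑ η ∈ Λ, ((η (w⁻¹ * ⟨u, hu⟩) : ℂˣ) : ℂ) =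
      ((α (w⁻¹ * ⟨u, hu⟩) : ℂˣ) : ℂ) * ∑ η ∈ Λ, ((η (w⁻¹ * ⟨u, hu⟩) : ℂˣ) : ℂ)
    rw [mul_sum]
    symm
    refine Finset.sum_nbij (fun η => α * η) ?_ ?_ ?_ ?_
    · intro η hη
      rw [hmem] at hη ⊢
      rw [mul_pow, hαq, hη, one_mul]
    · intro a _ c _ hac
      exact mul_left_cancel hac
    · intro η hη
      refine ⟨α⁻¹ * η, ?_, mul_inv_cancel_left α η⟩
      rw [mem_coe, hmem] at hη ⊢
      rw [mul_pow, inv_pow, hαq, hη, inv_one, one_mul]
    · intro η _
      rw [Lin.mul_apply, Units.val_mul]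
  have h1 : ((α (w⁻¹ * ⟨u, hu⟩) : ℂˣ) : ℂ) = 1 := by
    have h2 : (((α (w⁻¹ * ⟨u, hu⟩) : ℂˣ) : ℂ) - 1) * S (w⁻¹ * ⟨u, hu⟩) = 0 := by
      rw [sub_mul, one_mul, ← hinv, sub_self]
    rcases mul_eq_zero.1 h2 with h3 | h3
    · exact sub_eq_zero.1 h3
    · exact absurd h3 hSw
  have h2 : α (w⁻¹ * ⟨u, hu⟩) = 1 := Units.ext (by rw [h1, Units.val_one])
  rw [map_mul, map_inv, inv_mul_eq_one] at h2
  exact h2

end Pool.Agent.Lib.MP_1aae89_al.W4
end

section
/-!
# Module POF of Theorem W4 (MP_1aae89_al): `BBF u` is a real number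
-/
set_option autoImplicit false

namespace Pool.Agent.Lib.MP_1aae89_al.W4

open Pool.Agent.Lib.MP_1aae89_al Pool.Agent.Lib.MP_1aae89_al.BF Pool.Agent.Lib.MP_1aae89_al.W3 Finset
open Pool.Agent.Lib.MP_1aae89_al.W (GC LD nR)
open Pool.Agent.Lib.MP1aae89 (Pex)

/-- POF. -/
theorem specPOF (hCJF : SpecCJF) : SpecPOF := by
  classical
  intro p L s0 b X _ _ P χ K hy u
  unfold BBF
  have h : ∀ y : X, (if SecF p s0 P u y then avK p s0 b χ K y * avK p s0 b χ K y⁻¹ else 0) =
      (((if SecF p s0 P u y then ‖avK p s0 b χ K y‖ ^ 2 else 0 : ℝ)) : ℂ) := by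
    intro y
    split_ifs
    · rw [hCJF p L s0 b P χ K hy y, Complex.mul_conj, Complex.normSq_eq_norm_sq]
    · rw [Complex.ofReal_zero]
  rw [Complex.ofReal_mul, Complex.ofReal_mul, Complex.ofReal_inv,
    Complex.ofReal_natCast, Complex.ofReal_natCast, Complex.ofReal_sum]
  congr 2
  exact Finset.sum_congr rfl fun y _ => h y

end Pool.Agent.Lib.MP_1aae89_al.W4
end

section
/-!
# Module SEF: facts on the sections `SecF`
-/
set_option autoImplicit false

namespace Pool.Agent.Lib.MP_1aae89_al.W4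

open Pool.Agent.Lib.MP_1aae89_al Pool.Agent.Lib.MP_1aae89_al.BF Pool.Agent.Lib.MP_1aae89_al.W3
open Pool.Agent.Lib.MP1aae89 (Pex)

namespace SEF

theorem conj {X : Type} [Group X] {p s0 : ℕ} {P : Subgroup X} {u y : X} (g : X)
    (h : SecF p s0 P u y) : SecF p s0 P u (g * y * g⁻¹) := by
  obtain ⟨k, hk, e⟩ := h
  have h1 : k * g⁻¹ * (g * y * g⁻¹) ^ s0 * (k * g⁻¹)⁻¹ = k * y ^ s0 * k⁻¹ := by
    rw [conj_pow]
    group
  exact ⟨k * g⁻¹, by rw [h1]; exact hk, by rw [h1]; exact e⟩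

theorem powk (hFRL : SpecFRL) {X : Type} [Group X] {p s0 : ℕ} {P : Subgroup X} {u y : X}
    (k : ℕ) (h : SecF p s0 P u y) : SecF p s0 P (u ^ k) (y ^ k) := by
  obtain ⟨g, hg, e⟩ := h
  have h1 : g * (y ^ k) ^ s0 * g⁻¹ = (g * y ^ s0 * g⁻¹) ^ k := by
    rw [conj_pow, ← pow_mul, ← pow_mul, mul_comm k s0]
  obtain ⟨-, -, -, -, -, -, -, f8, -⟩ := hFRL p P
  exact ⟨g, by rw [h1]; exact P.pow_mem hg k, by rw [h1]; exact f8 _ _ k e⟩

end SEF

theorem specSEF (hPRM : W3.SpecPRM) (hFRL : SpecFRL) : SpecSEF := by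
  intro p hp L s0 hL hs X _ _ P hXL hP
  obtain ⟨-, m2, m3, -, -, -⟩ := hPRM p hp L s0 hL hs
  have hpL : ∀ y : X, y ^ L = 1 := by
    intro y
    obtain ⟨c, hc⟩ := hXL
    rw [hc, pow_mul, pow_card_eq_one', one_pow]
  have hP1 : ∀ x ∈ P, x ^ p ^ (Nat.card X).factorization p = 1 := by
    intro x hx
    rw [← hP]
    have := pow_card_eq_one' (x := (⟨x, hx⟩ : P))
    exact congrArg Subtype.val this
  have hPs : ∀ x ∈ P, x ^ s0 = x := fun x hx => m2 x _ (hpL x) (hP1 x hx)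
  obtain ⟨-, -, -, -, f5, f6, f7, -, -⟩ := hFRL p P
  refine ⟨?_, ?_, ?_, ?_, ?_, ?_⟩
  · intro u g y
    refine ⟨fun h => ?_, SEF.conj g⟩
    have h1 := SEF.conj g⁻¹ h
    have h2 : g⁻¹ * (g * y * g⁻¹) * g⁻¹⁻¹ = y := by group
    rwa [h2] at h1
  · rintro u v y ⟨g, hg, e⟩ ⟨g', hg', e'⟩
    have h1 : g' * g⁻¹ * (g * y ^ s0 * g⁻¹) * (g' * g⁻¹)⁻¹ = g' * y ^ s0 * g'⁻¹ := by group
    have h2 := f6 (g * y ^ s0 * g⁻¹) (g' * g⁻¹) hg (by rw [h1]; exact hg')
    rw [h1] at h2
    exact (f7 _ _ e).trans (h2.trans e')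
  · intro u w h
    have hw : w ∈ P := by
      obtain ⟨hw, -, -⟩ := h
      exact hw
    have h2 : (1 : X) * w ^ s0 * 1⁻¹ = w := by
      rw [hPs _ hw, one_mul, inv_one, mul_one]
    exact ⟨1, by rw [h2]; exact hw, by rw [h2]; exact f5 _ _ h⟩
  · intro u hu k hk y
    refine ⟨SEF.powk hFRL k, fun h => ?_⟩
    have h1 := SEF.powk hFRL (k ^ (Nat.totient L - 1)) h
    have h2 : ∀ z : X, (z ^ k) ^ (k ^ (Nat.totient L - 1)) = z := by
      intro z
      rw [← pow_mul, ← pow_succ', Nat.sub_add_cancel (Nat.totient_pos.2 (Nat.pos_of_ne_zero hL))]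
      have h3 : k ^ Nat.totient L ≡ 1 [MOD orderOf z] :=
        (Nat.ModEq.pow_totient hk).of_dvd (orderOf_dvd_of_pow_eq_one (hpL z))
      have h4 := (pow_eq_pow_iff_modEq (x := z)).2 h3
      rwa [pow_one] at h4
    rwa [h2, h2] at h1
  · intro u hu t ht w hw htw
    have h1 : (t * w) ^ s0 = w := by
      rw [(show Commute t w from htw).mul_pow, m3 t (hpL t) ht, hPs w hw, one_mul]
    constructor
    · rintro ⟨g, hg, e⟩
      rw [h1] at hg e
      exact (f6 w g hw hg).trans e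
    · intro e
      have h2 : (1 : X) * (t * w) ^ s0 * 1⁻¹ = w := by
        rw [h1, one_mul, inv_one, mul_one]
      exact ⟨1, by rw [h2]; exact hw, by rw [h2]; exact e⟩
  · rintro l hl hlp u t w htw ⟨k, hk⟩
    have h1 : (orderOf w).Coprime p :=
      Nat.Coprime.coprime_dvd_left (orderOf_dvd_of_pow_eq_one hk)
        (Nat.Coprime.pow_left k ((Nat.coprime_primes hl hp).2 hlp))
    have h2 : (t * w) ^ s0 = t ^ s0 := by
      rw [(show Commute t w from htw).mul_pow, m3 w (hpL w) h1, mul_one]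
    unfold SecF
    rw [h2]

end Pool.Agent.Lib.MP_1aae89_al.W4
end

section
/-!
# SQC: the order of `C_Q(w)` for invariant abelian Sylow subgroups
-/
set_option autoImplicit false

namespace Pool.Agent.Lib.MP_1aae89_al.W4

namespace SQC

/-- product formula for orders -/
theorem card_sup {Q : Type} [Group Q] [Finite Q] (H K : Subgroup Q) [K.Normal] :
    Nat.card (H ⊔ K : Subgroup Q) * Nat.card (H ⊓ K : Subgroup Q) = Nat.card H * Nat.card K := by
  have h1 : K.relIndex (H ⊔ K) = K.relIndex H := Subgroup.relIndex_sup_right H K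
  have h2 : Nat.card K * K.relIndex (H ⊔ K) = Nat.card (H ⊔ K : Subgroup Q) := by
    have h := (K.subgroupOf (H ⊔ K)).card_mul_index
    rwa [Nat.card_congr (Subgroup.subgroupOfEquivOfLe le_sup_right).toEquiv] at h
  have h3 : Nat.card (H ⊓ K : Subgroup Q) * K.relIndex H = Nat.card H := by
    have h := (K.subgroupOf H).card_mul_index
    rw [← Subgroup.inf_subgroupOf_left, Nat.card_congr
      (Subgroup.subgroupOfEquivOfLe inf_le_left).toEquiv, Subgroup.inf_subgroupOf_left] at h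
    exact h
  rw [← h2, h1, ← h3]
  ring

/-- the intersection of a Sylow subgroup with a normal subgroup is a Sylow subgroup -/
theorem card_inf {p : ℕ} (hp : p.Prime) {X : Type} [Group X] [Finite X] (P F : Subgroup X)
    [hF : F.Normal] (hP : Nat.card P = p ^ (Nat.card X).factorization p) :
    Nat.card (P ⊓ F : Subgroup X) = p ^ (Nat.card F).factorization p := by
  have hX : Nat.card X ≠ 0 := Nat.card_pos.ne'
  have hFc : Nat.card F ≠ 0 := Nat.card_pos.ne'
  have hS : Nat.card (P ⊔ F : Subgroup X) ≠ 0 := Nat.card_pos.ne'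
  have h1 : Nat.card (P ⊓ F : Subgroup X) ∣ Nat.card P := Subgroup.card_dvd_of_le inf_le_left
  rw [hP] at h1
  obtain ⟨k, -, hk⟩ := (Nat.dvd_prime_pow hp).1 h1
  have h2 := card_sup P F
  have hfac : (Nat.card (P ⊔ F : Subgroup X)).factorization p =
      (Nat.card X).factorization p := by
    refine le_antisymm ?_ ?_
    · exact (Nat.factorization_le_iff_dvd hS hX).2 (Subgroup.card_subgroup_dvd_card _) p
    · have h4 : Nat.card P ∣ Nat.card (P ⊔ F : Subgroup X) := Subgroup.card_dvd_of_le le_sup_left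
      rw [hP] at h4
      exact (Nat.Prime.pow_dvd_iff_le_factorization hp hS).1 h4
  have h3 : (Nat.card (P ⊔ F : Subgroup X) * Nat.card (P ⊓ F : Subgroup X)).factorization p =
      (Nat.card P * Nat.card F).factorization p := by rw [h2]
  rw [Nat.factorization_mul hS (hk ▸ (pow_pos hp.pos k).ne'),
    Nat.factorization_mul (hP ▸ (pow_pos hp.pos _).ne') hFc, Finsupp.add_apply, Finsupp.add_apply,
    hfac, hk, hP, hp.factorization_pow, hp.factorization_pow, Finsupp.single_eq_same,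
    Finsupp.single_eq_same] at h3
  rw [hk]
  congr 1
  omega

theorem norm_of {X : Type} [Group X] [Finite X] (Q : Subgroup X) (w : X)
    (h : ∀ x ∈ Q, w * x * w⁻¹ ∈ Q) : Subgroup.zpowers w ≤ Subgroup.normalizer (Q : Set X) := by
  rw [Subgroup.zpowers_le, Subgroup.mem_normalizer_iff]
  intro x
  refine ⟨fun hx => h x hx, fun hx => ?_⟩
  let c : Q → Q := fun x => ⟨w * x * w⁻¹, h x x.2⟩
  have hc : Function.Injective c := by
    intro a b hab
    have h1 : w * (a : X) * w⁻¹ = w * b * w⁻¹ := congrArg Subtype.val hab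
    exact Subtype.ext (by simpa using h1)
  obtain ⟨y, hy⟩ := (Finite.injective_iff_surjective.1 hc) ⟨w * x * w⁻¹, hx⟩
  have h2 : w * (y : X) * w⁻¹ = w * x * w⁻¹ := congrArg Subtype.val hy
  have h3 : (y : X) = x := by simpa using h2
  rw [← h3]
  exact y.2

/-- a Sylow subgroup containing `Q` and `w` -/
theorem exists_syl {p : ℕ} (hp : p.Prime) {X : Type} [Group X] [Finite X] (F : Subgroup X)
    [F.Normal] (w : X) (hw : ∃ k : ℕ, w ^ p ^ k = 1) (Q : Subgroup X) (hQF : Q ≤ F)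
    (hQc : Nat.card Q = p ^ (Nat.card F).factorization p) (hwQ : ∀ x ∈ Q, w * x * w⁻¹ ∈ Q) :
    ∃ S : Sylow p X, w ∈ S ∧ ∀ x, x ∈ Q ↔ x ∈ S ∧ x ∈ F := by
  have : Fact p.Prime := ⟨hp⟩
  have hWp : IsPGroup p (Subgroup.zpowers w) := by
    obtain ⟨k, hk⟩ := hw
    rw [IsPGroup.iff_card]
    have h1 : orderOf w ∣ p ^ k := orderOf_dvd_of_pow_eq_one hk
    obtain ⟨j, -, hj⟩ := (Nat.dvd_prime_pow hp).1 h1
    exact ⟨j, by rw [Nat.card_zpowers, hj]⟩
  have hQp : IsPGroup p Q := IsPGroup.of_card hQc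
  have hS : IsPGroup p (Q ⊔ Subgroup.zpowers w : Subgroup X) :=
    hQp.to_sup_of_normal_left' hWp (norm_of Q w hwQ)
  obtain ⟨S, hle⟩ := hS.exists_le_sylow
  have hSc : Nat.card (S : Subgroup X) = p ^ (Nat.card X).factorization p :=
    S.card_eq_multiplicity
  have h1 : Q ≤ (S : Subgroup X) ⊓ F := le_inf (le_sup_left.trans hle) hQF
  have h2 : Q = (S : Subgroup X) ⊓ F := by
    refine Subgroup.eq_of_le_of_card_ge h1 ?_
    rw [hQc, card_inf hp (S : Subgroup X) F hSc]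
  refine ⟨S, hle ((le_sup_right : Subgroup.zpowers w ≤ Q ⊔ Subgroup.zpowers w)
    (Subgroup.mem_zpowers w)), fun x => ?_⟩
  rw [h2]
  exact Subgroup.mem_inf

/-- the case `X = F ⟨w⟩` -/
theorem aux {p : ℕ} (hp : p.Prime) {X : Type} [Group X] [Finite X] (F : Subgroup X)
    [hF : F.Normal] (w : X) (hw : ∃ k : ℕ, w ^ p ^ k = 1) (htop : F ⊔ Subgroup.zpowers w = ⊤)
    (Q Q' : Subgroup X) (hQF : Q ≤ F) (hQF' : Q' ≤ F)
    (hQc : Nat.card Q = p ^ (Nat.card F).factorization p)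
    (hQc' : Nat.card Q' = p ^ (Nat.card F).factorization p)
    (hwQ : ∀ x ∈ Q, w * x * w⁻¹ ∈ Q) (hwQ' : ∀ x ∈ Q', w * x * w⁻¹ ∈ Q') :
    ∃ f : X, (∀ x, x ∈ Q' ↔ f⁻¹ * x * f ∈ Q) ∧ f * w * f⁻¹ * w⁻¹ ∈ Q' := by
  have : Fact p.Prime := ⟨hp⟩
  obtain ⟨S, hwS, hS⟩ := exists_syl hp F w hw Q hQF hQc hwQ
  obtain ⟨S', hwS', hS'⟩ := exists_syl hp F w hw Q' hQF' hQc' hwQ'
  obtain ⟨g, hg⟩ := MulAction.exists_smul_eq X S S'
  have hg1 : g ∈ F ⊔ Subgroup.zpowers w := by rw [htop]; exact Subgroup.mem_top g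
  obtain ⟨f, hf, v, hv, rfl⟩ := Subgroup.mem_sup_of_normal_left.1 hg1
  have hvS : v ∈ S := by
    have h1 : Subgroup.zpowers w ≤ (S : Subgroup X) := by
      rw [Subgroup.zpowers_le]
      exact hwS
    exact h1 hv
  have hmem : ∀ x, x ∈ S' ↔ f⁻¹ * x * f ∈ S := by
    intro x
    rw [← hg]
    have h1 : x ∈ ((f * v) • S : Sylow p X) ↔ (f * v)⁻¹ * x * (f * v) ∈ S := by
      show x ∈ (((f * v) • S : Sylow p X) : Subgroup X) ↔ _
      rw [Sylow.coe_subgroup_smul, Subgroup.mem_pointwise_smul_iff_inv_smul_mem, ← map_inv,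
        MulAut.smul_def, MulAut.conj_apply, inv_inv]
      exact Iff.rfl
    rw [h1]
    have h2 : (f * v)⁻¹ * x * (f * v) = v⁻¹ * (f⁻¹ * x * f) * v := by group
    rw [h2]
    constructor
    · intro h3
      have h4 : v * (v⁻¹ * (f⁻¹ * x * f) * v) * v⁻¹ ∈ S := mul_mem (mul_mem hvS h3) (inv_mem hvS)
      have h5 : v * (v⁻¹ * (f⁻¹ * x * f) * v) * v⁻¹ = f⁻¹ * x * f := by group
      rwa [h5] at h4
    · intro h3
      exact mul_mem (mul_mem (inv_mem hvS) h3) hvS
  refine ⟨f, fun x => ?_, ?_⟩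
  · rw [hS', hS, hmem]
    refine and_congr_right fun _ => ?_
    constructor
    · intro h
      have := hF.conj_mem x h f⁻¹
      rwa [inv_inv] at this
    · intro h
      have h1 := hF.conj_mem _ h f
      have h2 : f * (f⁻¹ * x * f) * f⁻¹ = x := by group
      rwa [h2] at h1
  · rw [hS']
    constructor
    · refine mul_mem ((hmem _).2 ?_) (inv_mem hwS')
      have h1 : f⁻¹ * (f * w * f⁻¹) * f = w := by group
      rw [h1]
      exact hwS
    · have h1 : w * f⁻¹ * w⁻¹ ∈ F := hF.conj_mem _ (inv_mem hf) w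
      have h2 : f * w * f⁻¹ * w⁻¹ = f * (w * f⁻¹ * w⁻¹) := by group
      rw [h2]
      exact mul_mem hf h1

end SQC

open SQC in
theorem specSQC : SpecSQC := by
  intro p hp X _ _ F hF w hw Q Q' hQF hQF' hQc hQc' hQab hwQ hwQ'
  -- a conjugating element
  obtain ⟨f, hf, hz⟩ : ∃ f : X, (∀ x, x ∈ Q' ↔ f⁻¹ * x * f ∈ Q) ∧ f * w * f⁻¹ * w⁻¹ ∈ Q' := by
    set X' : Subgroup X := F ⊔ Subgroup.zpowers w with hX'
    have hFX : F ≤ X' := le_sup_left
    have hwX : w ∈ X' := (le_sup_right : Subgroup.zpowers w ≤ X') (Subgroup.mem_zpowers w)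
    have hcard : ∀ R : Subgroup X, R ≤ X' → Nat.card (R.subgroupOf X') = Nat.card R := fun R hR =>
      Nat.card_congr (Subgroup.subgroupOfEquivOfLe hR).toEquiv
    obtain ⟨k, hk⟩ := hw
    obtain ⟨f, h1, h2⟩ := aux hp (F.subgroupOf X') ⟨w, hwX⟩ ⟨k, Subtype.ext hk⟩ (by
        rw [eq_top_iff]
        rintro ⟨x, hx⟩ -
        obtain ⟨a, ha, v, hv, rfl⟩ := Subgroup.mem_sup_of_normal_left.1 hx
        obtain ⟨j, rfl⟩ := Subgroup.mem_zpowers_iff.1 hv
        have h3 : (⟨a * w ^ j, hx⟩ : X') = ⟨a, hFX ha⟩ * ⟨w, hwX⟩ ^ j := by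
          apply Subtype.ext
          simp
        rw [h3]
        exact mul_mem ((le_sup_left : F.subgroupOf X' ≤ _) (Subgroup.mem_subgroupOf.2 ha))
          ((le_sup_right : Subgroup.zpowers (⟨w, hwX⟩ : X') ≤ _)
            (Subgroup.zpow_mem_zpowers _ j)))
      (Q.subgroupOf X') (Q'.subgroupOf X') (Subgroup.comap_mono hQF)
      (Subgroup.comap_mono hQF') (by
        rw [hcard Q (hQF.trans hFX), hcard F hFX]
        exact hQc) (by
        rw [hcard Q' (hQF'.trans hFX), hcard F hFX]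
        exact hQc') (fun x hx => hwQ x hx) (fun x hx => hwQ' x hx)
    refine ⟨f, fun x => ?_, h2⟩
    constructor
    · intro hx
      exact (h1 ⟨x, hFX (hQF' hx)⟩).1 hx
    · intro hx
      have hxX : x ∈ X' := by
        have h3 : (f : X) * ((f : X)⁻¹ * x * f) * (f : X)⁻¹ ∈ X' :=
          mul_mem (mul_mem f.2 (hFX (hQF hx))) (inv_mem f.2)
        have h4 : (f : X) * ((f : X)⁻¹ * x * f) * (f : X)⁻¹ = x := by group
        rwa [h4] at h3
      exact (h1 ⟨x, hxX⟩).2 hx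
  -- `Q'` is abelian
  have hab' : ∀ x ∈ Q', ∀ y ∈ Q', x * y = y * x := by
    intro x hx y hy
    have h1 := hQab _ ((hf x).1 hx) _ ((hf y).1 hy)
    calc x * y = f * ((f⁻¹ * x * f) * (f⁻¹ * y * f)) * f⁻¹ := by group
      _ = f * ((f⁻¹ * y * f) * (f⁻¹ * x * f)) * f⁻¹ := by rw [h1]
      _ = y * x := by group
  -- commuting with `w` for elements of `Q'`
  have hcom : ∀ y ∈ Q', (w * y = y * w ↔ (f * w * f⁻¹) * y = y * (f * w * f⁻¹)) := by
    intro y hy
    set z := f * w * f⁻¹ * w⁻¹ with hzd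
    have h1 : f * w * f⁻¹ = z * w := by rw [hzd]; group
    have h2 : z * y = y * z := hab' z hz y hy
    rw [h1]
    constructor
    · intro h
      rw [mul_assoc, h, ← mul_assoc, h2, mul_assoc]
    · intro h
      have h3 : z * (w * y) = z * (y * w) := by
        rw [← mul_assoc, h, ← mul_assoc, ← h2, mul_assoc]
      exact mul_left_cancel h3
  refine Nat.card_congr
    { toFun := fun x => ⟨f * x.1 * f⁻¹, ?_, ?_⟩
      invFun := fun y => ⟨f⁻¹ * y.1 * f, (hf y.1).1 y.2.1, ?_⟩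
      left_inv := fun x => ?_
      right_inv := fun y => ?_ }
  · rw [hf]
    have h1 : f⁻¹ * (f * x.1 * f⁻¹) * f = x.1 := by group
    rw [h1]
    exact x.2.1
  · have hm : f * x.1 * f⁻¹ ∈ Q' := by
      rw [hf]
      have h1 : f⁻¹ * (f * x.1 * f⁻¹) * f = x.1 := by group
      rw [h1]
      exact x.2.1
    rw [hcom _ hm]
    calc f * w * f⁻¹ * (f * x.1 * f⁻¹) = f * (w * x.1) * f⁻¹ := by group
      _ = f * (x.1 * w) * f⁻¹ := by rw [x.2.2]
      _ = f * x.1 * f⁻¹ * (f * w * f⁻¹) := by group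
  · have h1 := (hcom y.1 y.2.1).1 y.2.2
    calc w * (f⁻¹ * y.1 * f) = f⁻¹ * ((f * w * f⁻¹) * y.1) * f := by group
      _ = f⁻¹ * (y.1 * (f * w * f⁻¹)) * f := by rw [h1]
      _ = f⁻¹ * y.1 * f * w := by group
  · apply Subtype.ext
    show f⁻¹ * (f * x.1 * f⁻¹) * f = x.1
    group
  · apply Subtype.ext
    show f * (f⁻¹ * y.1 * f) * f⁻¹ = y.1
    group

end Pool.Agent.Lib.MP_1aae89_al.W4
end

section
/-!
# SQD: `C_Q(w)` is a Sylow `p`-subgroup of `C_F(w)`
-/
set_option autoImplicit false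

namespace Pool.Agent.Lib.MP_1aae89_al.W4

namespace SQD

/-- product formula for orders -/
theorem card_sup {Q : Type} [Group Q] [Finite Q] (H K : Subgroup Q) [K.Normal] :
    Nat.card (H ⊔ K : Subgroup Q) * Nat.card (H ⊓ K : Subgroup Q) = Nat.card H * Nat.card K := by
  have h1 : K.relIndex (H ⊔ K) = K.relIndex H := Subgroup.relIndex_sup_right H K
  have h2 : Nat.card K * K.relIndex (H ⊔ K) = Nat.card (H ⊔ K : Subgroup Q) := by
    have h := (K.subgroupOf (H ⊔ K)).card_mul_index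
    rwa [Nat.card_congr (Subgroup.subgroupOfEquivOfLe le_sup_right).toEquiv] at h
  have h3 : Nat.card (H ⊓ K : Subgroup Q) * K.relIndex H = Nat.card H := by
    have h := (K.subgroupOf H).card_mul_index
    rw [← Subgroup.inf_subgroupOf_left, Nat.card_congr
      (Subgroup.subgroupOfEquivOfLe inf_le_left).toEquiv, Subgroup.inf_subgroupOf_left] at h
    exact h
  rw [← h2, h1, ← h3]
  ring

/-- the intersection of a Sylow subgroup with a normal subgroup is a Sylow subgroup -/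
theorem card_inf {p : ℕ} (hp : p.Prime) {X : Type} [Group X] [Finite X] (P F : Subgroup X)
    [hF : F.Normal] (hP : Nat.card P = p ^ (Nat.card X).factorization p) :
    Nat.card (P ⊓ F : Subgroup X) = p ^ (Nat.card F).factorization p := by
  have hX : Nat.card X ≠ 0 := Nat.card_pos.ne'
  have hFc : Nat.card F ≠ 0 := Nat.card_pos.ne'
  have hS : Nat.card (P ⊔ F : Subgroup X) ≠ 0 := Nat.card_pos.ne'
  have h1 : Nat.card (P ⊓ F : Subgroup X) ∣ Nat.card P := Subgroup.card_dvd_of_le inf_le_left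
  rw [hP] at h1
  obtain ⟨k, -, hk⟩ := (Nat.dvd_prime_pow hp).1 h1
  have h2 := card_sup P F
  have hfac : (Nat.card (P ⊔ F : Subgroup X)).factorization p =
      (Nat.card X).factorization p := by
    refine le_antisymm ?_ ?_
    · exact (Nat.factorization_le_iff_dvd hS hX).2 (Subgroup.card_subgroup_dvd_card _) p
    · have h4 : Nat.card P ∣ Nat.card (P ⊔ F : Subgroup X) := Subgroup.card_dvd_of_le le_sup_left
      rw [hP] at h4
      exact (Nat.Prime.pow_dvd_iff_le_factorization hp hS).1 h4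
  have h3 : (Nat.card (P ⊔ F : Subgroup X) * Nat.card (P ⊓ F : Subgroup X)).factorization p =
      (Nat.card P * Nat.card F).factorization p := by rw [h2]
  rw [Nat.factorization_mul hS (hk ▸ (pow_pos hp.pos k).ne'),
    Nat.factorization_mul (hP ▸ (pow_pos hp.pos _).ne') hFc, Finsupp.add_apply, Finsupp.add_apply,
    hfac, hk, hP, hp.factorization_pow, hp.factorization_pow, Finsupp.single_eq_same,
    Finsupp.single_eq_same] at h3
  rw [hk]
  congr 1
  omega

end SQD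

theorem specSQD (hSQC : SpecSQC) : SpecSQD := by
  intro p hp X _ _ F hF w hw Q hQF hQc hQab hwQ R hRF hRp hRw
  have : Fact p.Prime := ⟨hp⟩
  have hWp : IsPGroup p (Subgroup.zpowers w) := by
    obtain ⟨k, hk⟩ := hw
    rw [IsPGroup.iff_card]
    have h1 : orderOf w ∣ p ^ k := orderOf_dvd_of_pow_eq_one hk
    obtain ⟨j, -, hj⟩ := (Nat.dvd_prime_pow hp).1 h1
    exact ⟨j, by rw [Nat.card_zpowers, hj]⟩
  have hnorm : Subgroup.zpowers w ≤ Subgroup.normalizer (R : Set X) := by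
    rw [Subgroup.zpowers_le, Subgroup.mem_normalizer_iff]
    intro x
    constructor
    · intro hx
      have h1 : w * x * w⁻¹ = x := by rw [hRw x hx, mul_inv_cancel_right]
      rwa [h1]
    · intro hx
      have h1 := hRw _ hx
      have h2 : w * x * w⁻¹ = x := by
        have h3 : w * (w * x * w⁻¹) = w * x := by rw [h1, inv_mul_cancel_right]
        exact mul_left_cancel h3
      rwa [h2] at hx
  have hS : IsPGroup p (R ⊔ Subgroup.zpowers w : Subgroup X) := hRp.to_sup_of_normal_left' hWp hnorm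
  obtain ⟨P', hP'⟩ := hS.exists_le_sylow
  have hP'c : Nat.card (P' : Subgroup X) = p ^ (Nat.card X).factorization p :=
    P'.card_eq_multiplicity
  have hwP : w ∈ (P' : Subgroup X) := hP' (Subgroup.mem_sup_right (Subgroup.mem_zpowers w))
  have hRP : R ≤ (P' : Subgroup X) := fun x hx => hP' (Subgroup.mem_sup_left hx)
  have h1 := hSQC p hp F w hw Q ((P' : Subgroup X) ⊓ F) hQF inf_le_right hQc
    (SQD.card_inf hp (P' : Subgroup X) F hP'c) hQab hwQ (fun x hx => ⟨?_, hF.conj_mem x hx.2 w⟩)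
  · rw [h1]
    refine Nat.card_le_card_of_injective (fun x : R => (⟨x.1, ⟨hRP x.2, hRF x.2⟩, hRw x.1 x.2⟩ :
      {x : X // x ∈ (P' : Subgroup X) ⊓ F ∧ w * x = x * w})) ?_
    intro x y hxy
    exact Subtype.ext (congrArg (fun z : {x : X // x ∈ (P' : Subgroup X) ⊓ F ∧ w * x = x * w} => (z : X)) hxy)
  · exact (P' : Subgroup X).mul_mem ((P' : Subgroup X).mul_mem hwP hx.1)
      ((P' : Subgroup X).inv_mem hwP)

end Pool.Agent.Lib.MP_1aae89_al.W4
end

section
/-!
# STG: one step of the chain, for good factors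
-/
set_option autoImplicit false

namespace Pool.Agent.Lib.MP_1aae89_al.W4

open Pool.Agent.Lib.MP_1aae89_al Pool.Agent.Lib.MP_1aae89_al.BF Pool.Agent.Lib.MP_1aae89_al.W3 Finset
open Pool.Agent.Lib.MP1aae89 (Pex)

theorem specSTG (hREC : SpecREC) (hISO : SpecISO) : SpecSTG := by
  intro p b hp hb M _ _ P hP K K' hKK' h1 h2 h3 hst hIC
  have hPX : P ≤ K' ⊔ P := le_sup_right
  have hKX : K' ≤ K' ⊔ P := le_sup_left
  have hnorm : K' ⊔ P ≤ Subgroup.normalizer (K : Set M) := by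
    refine sup_le ?_ ?_
    · intro g hg
      rw [Subgroup.mem_normalizer_iff]
      intro x
      refine ⟨fun hx => h1 g hg x hx, fun hx => ?_⟩
      have h4 := h1 g⁻¹ (K'.inv_mem hg) _ hx
      have h5 : g⁻¹ * (g * x * g⁻¹) * g⁻¹⁻¹ = x := by group
      rwa [h5] at h4
    · intro g hg
      rw [Subgroup.mem_normalizer_iff]
      intro x
      refine ⟨fun hx => h2 g hg x hx, fun hx => ?_⟩
      have h4 := h2 g⁻¹ (P.inv_mem hg) _ hx
      have h5 : g⁻¹ * (g * x * g⁻¹) * g⁻¹⁻¹ = x := by group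
      rwa [h5] at h4
  have hnorm' : K' ⊔ P ≤ Subgroup.normalizer (K' : Set M) := by
    refine sup_le ?_ ?_
    · exact Subgroup.le_normalizer
    · intro g hg
      rw [Subgroup.mem_normalizer_iff]
      intro x
      refine ⟨fun hx => h3 g hg x hx, fun hx => ?_⟩
      have h4 := h3 g⁻¹ (P.inv_mem hg) _ hx
      have h5 : g⁻¹ * (g * x * g⁻¹) * g⁻¹⁻¹ = x := by group
      rwa [h5] at h4
  have hHn : (K.subgroupOf (K' ⊔ P)).Normal := Subgroup.normal_subgroupOf_of_le_normalizer hnorm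
  have hFn : (K'.subgroupOf (K' ⊔ P)).Normal := Subgroup.normal_subgroupOf_of_le_normalizer hnorm'
  -- orders
  have hcP : Nat.card (P.subgroupOf (K' ⊔ P)) = Nat.card P :=
    Nat.card_congr (Subgroup.subgroupOfEquivOfLe hPX).toEquiv
  have hfac : (Nat.card ↥(K' ⊔ P)).factorization p = (Nat.card M).factorization p := by
    have h0 : Nat.card ↥(K' ⊔ P) ≠ 0 := Nat.card_pos.ne'
    have h0' : Nat.card M ≠ 0 := Nat.card_pos.ne'
    refine le_antisymm ?_ ?_
    · exact (Nat.factorization_le_iff_dvd h0 h0').2 (Subgroup.card_subgroup_dvd_card _) p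
    · have h4 : Nat.card P ∣ Nat.card ↥(K' ⊔ P) := Subgroup.card_dvd_of_le hPX
      rw [hP] at h4
      exact (Nat.Prime.pow_dvd_iff_le_factorization hp h0).1 h4
  have hPsyl : Nat.card (P.subgroupOf (K' ⊔ P)) = p ^ (Nat.card ↥(K' ⊔ P)).factorization p := by
    rw [hcP, hP, hfac]
  have hFP : K'.subgroupOf (K' ⊔ P) ⊔ P.subgroupOf (K' ⊔ P) = ⊤ := by
    rw [← Subgroup.subgroupOf_sup hKX hPX, Subgroup.subgroupOf_self]
  have hHF : K.subgroupOf (K' ⊔ P) ≤ K'.subgroupOf (K' ⊔ P) := fun x hx => hKK' hx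
  have hKPX : K ⊔ P ≤ K' ⊔ P := sup_le_sup_right hKK' P
  refine hREC p b hp hb (K.subgroupOf (K' ⊔ P)) ⟨hHn, Or.inr ?_, fun {_} => ?_⟩
  · intro P₁ hP₁ b' hb'
    obtain ⟨g, hg⟩ := gcr_conj hp hPsyl hP₁
    have e1 : (K.subgroupOf (K' ⊔ P) ⊔ P.subgroupOf (K' ⊔ P)).map (MulAut.conj g).toMonoidHom =
        K.subgroupOf (K' ⊔ P) ⊔ P₁ := by
      rw [Subgroup.map_sup]
      congr 1
      · ext x
        rw [Subgroup.mem_map]
        constructor
        · rintro ⟨y, hy, rfl⟩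
          exact hHn.conj_mem y hy g
        · intro hx
          refine ⟨g⁻¹ * x * g, ?_, ?_⟩
          · have := hHn.conj_mem x hx g⁻¹
            rwa [inv_inv] at this
          · change g * (g⁻¹ * x * g) * g⁻¹ = x
            group
      · ext x
        rw [Subgroup.mem_map, hg]
        constructor
        · rintro ⟨y, hy, rfl⟩
          have : g⁻¹ * ((MulAut.conj g).toMonoidHom y) * g = y := by
            change g⁻¹ * (g * y * g⁻¹) * g = y
            group
          rwa [this]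
        · intro hx
          refine ⟨_, hx, ?_⟩
          change g * (g⁻¹ * x * g) * g⁻¹ = x
          group
    have e2 : ↥(K ⊔ P) ≃* ↥(K.subgroupOf (K' ⊔ P) ⊔ P₁) :=
      ((Subgroup.subgroupOfEquivOfLe hKPX).symm.trans
        (MulEquiv.subgroupCongr (Subgroup.subgroupOf_sup (hKK'.trans hKX) hPX))).trans
        (((MulAut.conj g).subgroupMap _).trans (MulEquiv.subgroupCongr e1))
    exact (hISO p b' e2).1 (hIC b' hb')
  · exact hst

end Pool.Agent.Lib.MP_1aae89_al.W4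
end

section
/-!
# STV: the factors of a series with the conditions `Stp'` are good
-/
set_option autoImplicit false

namespace Pool.Agent.Lib.MP_1aae89_al.W4

open Pool.Agent.Lib.MP_1aae89_al Pool.Agent.Lib.MP_1aae89_al.BF Pool.Agent.Lib.MP_1aae89_al.W3 Finset
open Pool.Agent.Lib.MP1aae89 (Pex)

namespace STV

theorem stq (p b : ℕ) {M : Type} [Group M] (P K K' : Subgroup M)
    [hN : (K.subgroupOf (K' ⊔ P)).Normal] (h : Stp' p b P K K') :
    Stq' p b (P.subgroupOf (K' ⊔ P)) (K.subgroupOf (K' ⊔ P)) (K'.subgroupOf (K' ⊔ P)) := by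
  have hPX : P ≤ K' ⊔ P := le_sup_right
  have hKX : K' ≤ K' ⊔ P := le_sup_left
  rcases h with h | h | ⟨h1, h2⟩ | ⟨h1, h2⟩ | h
  · left
    rintro ⟨x, hx⟩ hxF
    obtain ⟨j, hj⟩ := h x hxF
    exact ⟨j, hj⟩
  · right; left
    rintro ⟨x, hx⟩ hxF hxp
    exact h x hxF hxp
  · right; right; left
    refine ⟨fun x hx y hy => h1 x hx y hy, ?_⟩
    rcases h2 with ⟨x₀, hx₀, h2⟩ | h2
    · left
      refine ⟨⟨x₀, hPX hx₀.1⟩, ⟨hx₀.1, hx₀.2⟩, fun y hy => ?_⟩
      obtain ⟨j, hj⟩ := h2 y ⟨hy.1, hy.2⟩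
      exact ⟨j, hj⟩
    · right
      have e1 : Nat.card {g : ↥(K' ⊔ P) // g ∈ K'.subgroupOf (K' ⊔ P) ∧
          ∀ x ∈ P.subgroupOf (K' ⊔ P) ⊓ K'.subgroupOf (K' ⊔ P),
            ∃ y ∈ P.subgroupOf (K' ⊔ P) ⊓ K'.subgroupOf (K' ⊔ P),
            g * x * g⁻¹ * y⁻¹ ∈ K.subgroupOf (K' ⊔ P)} =
          Nat.card {g : M // g ∈ K' ∧ ∀ x ∈ P ⊓ K', ∃ y ∈ P ⊓ K', g * x * g⁻¹ * y⁻¹ ∈ K} := by
        refine Nat.card_congr
          { toFun := fun g => ⟨(g.1 : M), g.2.1, fun x hx => ?_⟩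
            invFun := fun g => ⟨⟨g.1, hKX g.2.1⟩, g.2.1, fun x hx => ?_⟩
            left_inv := fun g => rfl
            right_inv := fun g => rfl }
        · obtain ⟨y, hy, h3⟩ := g.2.2 ⟨x, hPX hx.1⟩ ⟨hx.1, hx.2⟩
          exact ⟨y, ⟨hy.1, hy.2⟩, h3⟩
        · obtain ⟨y, hy, h3⟩ := g.2.2 x ⟨hx.1, hx.2⟩
          exact ⟨⟨y, hPX hy.1⟩, ⟨hy.1, hy.2⟩, h3⟩
      have e2 : Nat.card {g : ↥(K' ⊔ P) // g ∈ K'.subgroupOf (K' ⊔ P) ∧
          ∀ x ∈ P.subgroupOf (K' ⊔ P) ⊓ K'.subgroupOf (K' ⊔ P),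
            g * x * g⁻¹ * x⁻¹ ∈ K.subgroupOf (K' ⊔ P)} =
          Nat.card {g : M // g ∈ K' ∧ ∀ x ∈ P ⊓ K', g * x * g⁻¹ * x⁻¹ ∈ K} := by
        refine Nat.card_congr
          { toFun := fun g => ⟨(g.1 : M), g.2.1, fun x hx => ?_⟩
            invFun := fun g => ⟨⟨g.1, hKX g.2.1⟩, g.2.1, fun x hx => ?_⟩
            left_inv := fun g => rfl
            right_inv := fun g => rfl }
        · exact g.2.2 ⟨x, hPX hx.1⟩ ⟨hx.1, hx.2⟩
        · exact g.2.2 x ⟨hx.1, hx.2⟩
      rw [e1, e2]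
      exact h2
  · right; right; right; left
    exact ⟨fun x hx y hy => h1 x hx y hy, h2⟩
  · right; right; right; right
    exact h

end STV

theorem specSTV (hGQV : SpecGQV) : SpecSTV := by
  intro p b hp hb M _ _ P hP K K' hKK' h1 h2 h3 hst hHn
  have hPX : P ≤ K' ⊔ P := le_sup_right
  have hKX : K' ≤ K' ⊔ P := le_sup_left
  have hnorm' : K' ⊔ P ≤ Subgroup.normalizer (K' : Set M) := by
    refine sup_le ?_ ?_
    · exact Subgroup.le_normalizer
    · intro g hg
      rw [Subgroup.mem_normalizer_iff]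
      intro x
      refine ⟨fun hx => h3 g hg x hx, fun hx => ?_⟩
      have h4 := h3 g⁻¹ (P.inv_mem hg) _ hx
      have h5 : g⁻¹ * (g * x * g⁻¹) * g⁻¹⁻¹ = x := by group
      rwa [h5] at h4
  have hFn : (K'.subgroupOf (K' ⊔ P)).Normal := Subgroup.normal_subgroupOf_of_le_normalizer hnorm'
  have hcP : Nat.card (P.subgroupOf (K' ⊔ P)) = Nat.card P :=
    Nat.card_congr (Subgroup.subgroupOfEquivOfLe hPX).toEquiv
  have hfac : (Nat.card ↥(K' ⊔ P)).factorization p = (Nat.card M).factorization p := by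
    have h0 : Nat.card ↥(K' ⊔ P) ≠ 0 := Nat.card_pos.ne'
    have h0' : Nat.card M ≠ 0 := Nat.card_pos.ne'
    refine le_antisymm ?_ ?_
    · exact (Nat.factorization_le_iff_dvd h0 h0').2 (Subgroup.card_subgroup_dvd_card _) p
    · have h4 : Nat.card P ∣ Nat.card ↥(K' ⊔ P) := Subgroup.card_dvd_of_le hPX
      rw [hP] at h4
      exact (Nat.Prime.pow_dvd_iff_le_factorization hp h0).1 h4
  have hPsyl : Nat.card (P.subgroupOf (K' ⊔ P)) = p ^ (Nat.card ↥(K' ⊔ P)).factorization p := by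
    rw [hcP, hP, hfac]
  have hFP : K'.subgroupOf (K' ⊔ P) ⊔ P.subgroupOf (K' ⊔ P) = ⊤ := by
    rw [← Subgroup.subgroupOf_sup hKX hPX, Subgroup.subgroupOf_self]
  have hHF : K.subgroupOf (K' ⊔ P) ≤ K'.subgroupOf (K' ⊔ P) := fun x hx => hKK' hx
  exact hGQV p b hp hb (P.subgroupOf (K' ⊔ P)) (K.subgroupOf (K' ⊔ P)) (K'.subgroupOf (K' ⊔ P))
    hHF hFP hPsyl (STV.stq p b P K K' hst)

end Pool.Agent.Lib.MP_1aae89_al.W4
end

section
/-!
# TRN: a normal complement of an abelian Sylow subgroup with an automorphism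
-/
set_option autoImplicit false

namespace Pool.Agent.Lib.MP_1aae89_al.W4

namespace TRN

/-- the subgroup generated by the commutators `[g, x]`, `x ∈ Q`, `g` in the normalizer of `Q` -/
def cmt {D : Type} [Group D] (Q : Subgroup D) : Subgroup D :=
  Subgroup.closure {v | ∃ g ∈ Subgroup.normalizer (Q : Set D), ∃ x ∈ Q, v = g * x * g⁻¹ * x⁻¹}

theorem cmt_le {D : Type} [Group D] (Q : Subgroup D) : cmt Q ≤ Q := by
  unfold cmt
  rw [Subgroup.closure_le]
  rintro v ⟨g, hg, x, hx, rfl⟩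
  exact mul_mem ((Subgroup.mem_normalizer_iff.1 hg x).1 hx) (inv_mem hx)

/-- the averaging homomorphism -/
theorem exists_avg {p : ℕ} (hp : p.Prime) {D : Type} [Group D] [Finite D] (Q : Subgroup D)
    (hQ : Nat.card Q = p ^ (Nat.card D).factorization p) (hab : ∀ x ∈ Q, ∀ y ∈ Q, x * y = y * x) :
    ∃ (m : ℕ) (T : Q →* Q), m.Coprime p ∧ (∀ x : Q, (∀ d : D, (x : D) * d = d * x) → T x = x ^ m) ∧
      ∀ v : Q, (v : D) ∈ cmt Q → T v = 1 := by
  classical
  have : Fact p.Prime := ⟨hp⟩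
  let _ : CommGroup Q := { (inferInstance : Group Q) with
    mul_comm := fun a b => Subtype.ext (hab a a.2 b b.2) }
  let A : Subgroup (MulAut Q) := Q.normalizerMonoidHom.range
  have : Fintype A := Fintype.ofFinite A
  let T : Q →* Q := ∏ a : A, (a : MulAut Q).toMonoidHom
  have hT : ∀ x : Q, T x = ∏ a : A, (a : MulAut Q) x := fun x => by
    show (∏ a : A, (a : MulAut Q).toMonoidHom) x = _
    rw [MonoidHom.finsetProd_apply]
    rfl
  have hAc : ¬ p ∣ Nat.card A := by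
    intro h
    have h1 : Nat.card A = Q.normalizerMonoidHom.ker.index := by
      rw [Subgroup.index_ker]
    have h2 : Q.subgroupOf (Subgroup.normalizer (Q : Set D)) ≤ Q.normalizerMonoidHom.ker := by
      rw [Subgroup.normalizerMonoidHom_ker]
      intro x hx
      rw [Subgroup.mem_subgroupOf] at hx ⊢
      rw [Subgroup.mem_centralizer_iff]
      intro y hy
      exact hab y hy x hx
    have h3 : Q.normalizerMonoidHom.ker.index ∣
        (Q.subgroupOf (Subgroup.normalizer (Q : Set D))).index := Subgroup.index_dvd_of_le h2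
    have h4 : (Q.subgroupOf (Subgroup.normalizer (Q : Set D))).index ∣ Q.index :=
      Subgroup.relIndex_dvd_index_of_le Subgroup.le_normalizer
    have h5 : p ∣ Q.index := by
      rw [h1] at h
      exact (h.trans h3).trans h4
    have h6 := Q.card_mul_index
    rw [hQ] at h6
    have h7 := Nat.ordProj_mul_ordCompl_eq_self (Nat.card D) p
    have h8 : 0 < p ^ (Nat.card D).factorization p := pow_pos hp.pos _
    have h9 : Q.index = ordCompl[p] (Nat.card D) := Nat.eq_of_mul_eq_mul_left h8 (h6.trans h7.symm)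
    rw [h9] at h5
    exact Nat.not_dvd_ordCompl hp Nat.card_pos.ne' h5
  refine ⟨Nat.card A, T, ?_, ?_, ?_⟩
  · exact ((Nat.Prime.coprime_iff_not_dvd hp).2 hAc).symm
  · intro x hx
    rw [hT, Nat.card_eq_fintype_card, ← Finset.card_univ, ← Finset.prod_const]
    refine Finset.prod_congr rfl fun a _ => ?_
    obtain ⟨a, g, rfl⟩ := a
    apply Subtype.ext
    show (g : D) * x * (g : D)⁻¹ = x
    rw [← hx]
    group
  · intro v hv
    have hinv : ∀ (g : Subgroup.normalizer (Q : Set D)) (x : Q), T (Q.normalizerMonoidHom g x) = T x := by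
      intro g x
      rw [hT, hT]
      exact Fintype.prod_equiv (Equiv.mulRight (⟨Q.normalizerMonoidHom g, g, rfl⟩ : A)) _ _
        fun a => rfl
    have hle : cmt Q ≤ T.ker.map Q.subtype := by
      unfold cmt
      rw [Subgroup.closure_le]
      rintro v ⟨g, hg, x, hx, rfl⟩
      refine ⟨Q.normalizerMonoidHom ⟨g, hg⟩ ⟨x, hx⟩ * ⟨x, hx⟩⁻¹, ?_, rfl⟩
      show T _ = 1
      rw [map_mul, hinv, map_inv, mul_inv_cancel]
    obtain ⟨w, hw, hwv⟩ := hle hv
    have h1 : w = v := Subtype.ext hwv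
    rw [← h1]
    exact hw

end TRN

open TRN in
theorem specTRN : SpecTRN := by
  intro p hp D _ _ Q hQ hab θ hθQ hθ hfix
  classical
  have : Fact p.Prime := ⟨hp⟩
  obtain ⟨m, T, hm, hT1, hT2⟩ := exists_avg hp Q hQ hab
  obtain ⟨k, hk⟩ := hθ
  -- `θ` maps `Q` onto `Q`
  have hsur : ∀ x ∈ Q, ∃ y ∈ Q, θ y = x := by
    intro x hx
    let c : Q → Q := fun x => ⟨θ x, hθQ x x.2⟩
    have hc : Function.Injective c := by
      intro a b hab
      exact Subtype.ext (θ.injective (congrArg Subtype.val hab))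
    obtain ⟨y, hy⟩ := (Finite.injective_iff_surjective.1 hc) ⟨x, hx⟩
    exact ⟨y, y.2, congrArg Subtype.val hy⟩
  -- `cmt Q` is mapped to itself
  have hV : ∀ v ∈ cmt Q, θ v ∈ cmt Q := by
    have h1 : cmt Q ≤ (cmt Q).comap θ.toMonoidHom := by
      conv_lhs => unfold cmt
      rw [Subgroup.closure_le]
      rintro v ⟨g, hg, x, hx, rfl⟩
      refine Subgroup.subset_closure ⟨θ g, ?_, θ x, hθQ x hx, ?_⟩
      · rw [Subgroup.mem_normalizer_iff]
        intro y
        constructor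
        · intro hy
          obtain ⟨z, hz, rfl⟩ := hsur y hy
          have h2 := hθQ _ ((Subgroup.mem_normalizer_iff.1 hg z).1 hz)
          rwa [map_mul, map_mul, map_inv] at h2
        · intro hy
          obtain ⟨z, hz, hzy⟩ := hsur _ hy
          have h2 : y = θ (g⁻¹ * z * g) := by
            rw [map_mul, map_mul, map_inv, hzy]
            group
          rw [h2]
          refine hθQ _ ?_
          rw [Subgroup.mem_normalizer_iff.1 hg]
          have h3 : g * (g⁻¹ * z * g) * g⁻¹ = z := by group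
          rw [h3]
          exact hz
      · show θ (g * x * g⁻¹ * x⁻¹) = _
        rw [map_mul, map_mul, map_mul, map_inv, map_inv]
    exact fun v hv => h1 hv
  -- `cmt Q` is trivial
  have hV1 : ∀ v ∈ cmt Q, v = 1 := by
    let f : Function.End (cmt Q) := fun v => ⟨θ v, hV v v.2⟩
    have hit : ∀ (j : ℕ) (v : cmt Q), ((f ^ j : Function.End (cmt Q)) v : D) = θ^[j] (v : D) := by
      intro j
      induction j with
      | zero => intro v; rfl
      | succ j ih =>
        intro v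
        rw [pow_succ, Function.iterate_succ_apply, ← show ((f v : cmt Q) : D) = θ v from rfl, ← ih]
        rfl
    have hf : f ^ p ^ k = 1 := by
      funext v
      apply Subtype.ext
      rw [hit, hk]
      rfl
    have : Fintype (cmt Q) := Fintype.ofFinite _
    have hmod := Equiv.Perm.card_fixedPoints_modEq (α := cmt Q) hf
    have hone : Fintype.card (Function.fixedPoints f) = 1 := by
      rw [Fintype.card_eq_one_iff]
      refine ⟨⟨1, ?_⟩, ?_⟩
      · apply Subtype.ext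
        show θ 1 = 1
        exact map_one θ
      · rintro ⟨v, hv⟩
        apply Subtype.ext
        have h1 : θ (v : D) = v := congrArg Subtype.val (hv : f v = v)
        have hvQ : (v : D) ∈ Q := cmt_le Q v.2
        have h2 := hT1 ⟨v, hvQ⟩ (hfix v hvQ h1)
        rw [hT2 ⟨v, hvQ⟩ v.2] at h2
        have h3 : orderOf (⟨v, hvQ⟩ : Q) ∣ m := orderOf_dvd_of_pow_eq_one h2.symm
        have h4 : orderOf (⟨v, hvQ⟩ : Q) ∣ p ^ (Nat.card D).factorization p := by
          rw [← hQ]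
          exact orderOf_dvd_natCard _
        have h5 : orderOf (⟨v, hvQ⟩ : Q) = 1 :=
          Nat.eq_one_of_dvd_coprimes (hm.pow_right _) h3 h4
        have h6 := orderOf_eq_one_iff.1 h5
        have h7 : (v : D) = 1 := congrArg Subtype.val h6
        exact Subtype.ext h7
    rw [hone] at hmod
    have hcp : IsPGroup p (cmt Q) := (IsPGroup.of_card hQ).to_le (cmt_le Q)
    obtain ⟨e, he⟩ := IsPGroup.iff_card.1 hcp
    rw [← Nat.card_eq_fintype_card, he] at hmod
    have he0 : e = 0 := by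
      by_contra h
      have h1 : p ∣ p ^ e := dvd_pow_self p h
      have h2 : p ∣ 1 := (Nat.ModEq.dvd_iff hmod dvd_rfl).1 h1
      exact hp.one_lt.ne' (Nat.dvd_one.1 h2)
    rw [he0, pow_zero] at he
    intro v hv
    have h1 := (Subgroup.card_eq_one.1 he)
    rw [h1] at hv
    exact Subgroup.mem_bot.1 hv
  -- Burnside
  let S : Sylow p D := Sylow.ofCard Q hQ
  have hSQ : (S : Subgroup D) = Q := rfl
  have hNC : Subgroup.normalizer (S : Set D) ≤ Subgroup.centralizer (S : Set D) := by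
    intro g hg
    rw [Subgroup.mem_centralizer_iff]
    intro x hx
    have h1 : g * x * g⁻¹ * x⁻¹ = 1 := hV1 _ (Subgroup.subset_closure ⟨g, hg, x, hx, rfl⟩)
    have h2 : g * x * g⁻¹ = x := by
      rw [mul_inv_eq_one] at h1
      exact h1
    calc x * g = g * x * g⁻¹ * g := by rw [h2]
      _ = g * x := by group
  have hcomp := MonoidHom.ker_transferSylow_isComplement' S hNC
  have hnd := MonoidHom.not_dvd_card_ker_transferSylow S hNC
  set U := (MonoidHom.transferSylow S hNC).ker with hU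
  refine ⟨U, inferInstance, ((Nat.Prime.coprime_iff_not_dvd hp).2 hnd).symm, ?_, ?_⟩
  · intro d
    obtain ⟨⟨u, x⟩, hux⟩ := hcomp.surjective d
    exact ⟨u, u.2, x, x.2, hux.symm⟩
  · intro u hu
    rw [hU, MonoidHom.mem_ker]
    have h1 : orderOf (MonoidHom.transferSylow S hNC (θ u)) ∣ Nat.card U := by
      have h2 : u ^ Nat.card U = 1 := by
        have h3 : (⟨u, hu⟩ : U) ^ Nat.card U = 1 := pow_card_eq_one'
        exact congrArg Subtype.val h3
      refine orderOf_dvd_of_pow_eq_one ?_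
      rw [← map_pow, ← map_pow, h2, map_one, map_one]
    have h2 : orderOf (MonoidHom.transferSylow S hNC (θ u)) ∣
        p ^ (Nat.card D).factorization p := by
      rw [← hQ]
      exact orderOf_dvd_natCard _
    have h3 : (Nat.card U).Coprime p := ((Nat.Prime.coprime_iff_not_dvd hp).2 hnd).symm
    exact orderOf_eq_one_iff.1 (Nat.eq_one_of_dvd_coprimes (h3.pow_right _) h1 h2)

end Pool.Agent.Lib.MP_1aae89_al.W4
end

section
/-!
# Assembly of the modules of `W4`
-/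
set_option autoImplicit false

namespace Pool.Agent.Lib.MP_1aae89_al.W4

theorem topAMF : SpecAMF := specAMF

theorem topCF1 : SpecCF1 := specCF1

theorem topDUF : SpecDUF := specDUF

theorem topCF2 : SpecCF2 := specCF2 topDUF topCF1 W3.topPSM

theorem topCF3 : SpecCF3 := specCF3 topAMF

theorem topSQC : SpecSQC := specSQC

theorem topSQD : SpecSQD := specSQD topSQC

theorem topTRN : SpecTRN := specTRN

theorem topINV : SpecINV := specINV topSQD topTRN

theorem topFUA : SpecFUA := specFUA topINV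

theorem topWTP : SpecWTP := specWTP

theorem topCNQ : SpecCNQ := specCNQ

theorem topFEG : SpecFEG := specFEG topFUA topWTP topCNQ

theorem topCFC : SpecCFC := specCFC topFEG topCNQ

theorem topSTG : SpecSTG := specSTG W3.topREC W3.topISO

theorem topCHG : SpecCHG := specCHG W3.topBAS topSTG W3.topISO

theorem topCJF : SpecCJF := specCJF

theorem topCRF : SpecCRF := specCRF

theorem topCJG : SpecCJG := specCJG topCRF

theorem topCOF : SpecCOF := specCOF topDUF topCF1 topCF2 topCF3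

theorem topCX3 : SpecCX3 := specCX3 topCOF topCJF

theorem topFRL : SpecFRL := specFRL

theorem topSEF : SpecSEF := specSEF W3.topPRM topFRL

theorem topCX4 : SpecCX4 := specCX4 topCX3 topSEF topFRL

theorem topCYF : SpecCYF := specCYF

theorem topCYN : SpecCYN := specCYN

theorem topINF : SpecINF := specINF topCX4 W3.topLS2 topSEF

theorem topGLF : SpecGLF := specGLF topSEF

theorem topPOF : SpecPOF := specPOF topCJF

theorem topNVF : SpecNVF := specNVF W3.topPRM

theorem topUPF : SpecUPF := specUPF topPOF topSEF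

theorem topNRF : SpecNRF := specNRF W3.topPRM topCJF

theorem topFNF : SpecFNF := specFNF topFRL topSEF topINF topCYF topGLF topPOF topNVF topUPF topNRF

theorem topGCF : SpecGCF := specGCF topCRF topCJG topFNF

theorem topGQV : SpecGQV := specGQV W3.topGPG W3.topGBD W3.topGCR W3.topCRM topGCF topCFC topCYN

theorem topSTV : SpecSTV := specSTV topGQV

end Pool.Agent.Lib.MP_1aae89_al.W4
end
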