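import Pool.Agent.Lib.MP_1aae89_al.W3.DefsC

/-!
# Definitions for the main inequality with arbitrary Sylow subgroups (MP_1aae89_al, Q1)
-/

set_option autoImplicit false

namespace Pool.Agent.Lib.MP_1aae89_al.W4

open Pool.Agent.Lib.MP_1aae89_al Pool.Agent.Lib.MP_1aae89_al.BF Pool.Agent.Lib.MP_1aae89_al.W3 Finset
open Pool.Agent.Lib.MP1aae89 (Pex)

/-- `u`, `v ∈ P` are congruent modulo the Frattini subgroup of the `p`-group `P`: the homomorphisms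
`α : P → ℂˣ` with `α^p = 1` take the same values -/
def Fq (p : ℕ) {X : Type} [Group X] (P : Subgroup X) (u v : X) : Prop :=
  ∃ (hu : u ∈ P) (hv : v ∈ P), ∀ α : Lin P, α ^ p = 1 → α ⟨u, hu⟩ = α ⟨v, hv⟩

/-- elementary fusion -/
def FE (p : ℕ) {X : Type} [Group X] (P : Subgroup X) (u v : X) : Prop :=
  ∃ x g : X, Fq p P u x ∧ Fq p P (g * x * g⁻¹) v

/-- the equivalence relation on `P` generated by conjugacy in `X` and congruence modulo the Frattini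
subgroup -/
def RelF (p : ℕ) {X : Type} [Group X] (P : Subgroup X) (u v : X) : Prop :=
  Relation.ReflTransGen (FE p P) u v

/-- the order of the Frattini quotient of `P` -/
noncomputable def nF (p : ℕ) {X : Type} [Group X] (P : Subgroup X) : ℕ :=
  Nat.card {α : Lin P // α ^ p = 1}

/-- the criterion: `RelF` has more than `|P : Φ(P)| / p` classes -/
def CrtF (p : ℕ) {X : Type} [Group X] (P : Subgroup X) : Prop :=
  ∃ A : Finset X, (∀ u ∈ A, u ∈ P) ∧ (∀ u ∈ A, ∀ v ∈ A, RelF p P u v → u = v) ∧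
    nF p P < A.card * p

/-- the hypotheses of the main inequality -/
structure Hz (p L s0 b : ℕ) {X : Type} [Group X] [Finite X] (P : Subgroup X) (χ : X → ℂ)
    (K : Lin X) : Prop where
  pp : p.Prime
  hb : 2 ≤ b
  hL : L ≠ 0
  card : Nat.card X ∣ L
  pex : Pex p L s0
  syl : Nat.card P = p ^ (Nat.card X).factorization p
  char : IsCharacter χ
  fx : FX p s0 b χ
  kp : K ^ p = 1

/-- the section of `u ∈ P` -/
def SecF (p s0 : ℕ) {X : Type} [Group X] (P : Subgroup X) (u y : X) : Prop :=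
  ∃ g : X, g * y ^ s0 * g⁻¹ ∈ P ∧ RelF p P (g * y ^ s0 * g⁻¹) u

open Classical in
/-- the contribution of the section of `u` to the norm of `avK` -/
noncomputable def BBF (p s0 b : ℕ) {X : Type} [Group X] [Fintype X] (P : Subgroup X) (χ : X → ℂ)
    (K : Lin X) (u : X) : ℂ :=
  (nF p P : ℂ) * ((Fintype.card X : ℂ)⁻¹ *
    ∑ y : X, if SecF p s0 P u y then avK p s0 b χ K y * avK p s0 b χ K y⁻¹ else 0)

open Classical in
/-- the linear characters of order dividing `p` -/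
noncomputable def AF (p : ℕ) (P : Type) [Group P] [Finite P] : Finset (Lin P) :=
  univ.filter fun α => α ^ p = 1

/-- `p · avK` on a `p`-group -/
noncomputable def amg (p b : ℕ) {Q : Type} [Group Q] (φ : Q → ℂ) (k : Lin Q) (w : Q) : ℂ :=
  ∑ i ∈ range p, (((k w)⁻¹ : ℂˣ) : ℂ) ^ i * φ (w ^ (1 + p ^ (b - 1) * i))

/-- the conditions on a factor `F / H`, `H ≤ F` normal subgroups of `X = F P` -/
def Stq' (p b : ℕ) {X : Type} [Group X] (P H F : Subgroup X) [H.Normal] : Prop :=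
  (∀ x ∈ F, ∃ j : ℕ, x ^ p ^ j ∈ H) ∨
  (∀ x ∈ F, x ^ p ^ b ∈ H → x ^ p ^ (b - 1) ∈ H) ∨
  ((∀ x ∈ P ⊓ F, ∀ y ∈ P ⊓ F, x * y * x⁻¹ * y⁻¹ ∈ H) ∧
    ((∃ x₀ ∈ P ⊓ F, ∀ y ∈ P ⊓ F, ∃ j : ℕ, y * (x₀ ^ j)⁻¹ ∈ H) ∨
      Nat.card {g : X // g ∈ F ∧ ∀ x ∈ P ⊓ F, ∃ y ∈ P ⊓ F, g * x * g⁻¹ * y⁻¹ ∈ H} <
        p * Nat.card {g : X // g ∈ F ∧ ∀ x ∈ P ⊓ F, g * x * g⁻¹ * x⁻¹ ∈ H})) ∨
  ((∀ x ∈ P, ∀ y ∈ P, x * y * x⁻¹ * y⁻¹ ∈ H) ∧ Crt p b (P.map (QuotientGroup.mk' H))) ∨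
  CrtF p (P.map (QuotientGroup.mk' H))

/-- the conditions on a factor `K' / K` of a series in the group `M`, `P` a Sylow `p`-subgroup of `M`:
it is a `p`-group, or it has no element of order `p^b`, or `Q = (P ∩ K') K / K` is abelian and its
automizer in `K' / K` has order less than `p` (or `Q` is cyclic), or `P` is abelian modulo `K` and
`K' P / K` satisfies the criterion `Crt`, or `K' P / K` satisfies the criterion `CrtF` -/
def Stp' (p b : ℕ) {M : Type} [Group M] (P K K' : Subgroup M) : Prop :=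
  (∀ x ∈ K', ∃ j : ℕ, x ^ p ^ j ∈ K) ∨
  (∀ x ∈ K', x ^ p ^ b ∈ K → x ^ p ^ (b - 1) ∈ K) ∨
  ((∀ x ∈ P ⊓ K', ∀ y ∈ P ⊓ K', x * y * x⁻¹ * y⁻¹ ∈ K) ∧
    ((∃ x₀ ∈ P ⊓ K', ∀ y ∈ P ⊓ K', ∃ j : ℕ, y * (x₀ ^ j)⁻¹ ∈ K) ∨
      Nat.card {g : M // g ∈ K' ∧ ∀ x ∈ P ⊓ K', ∃ y ∈ P ⊓ K', g * x * g⁻¹ * y⁻¹ ∈ K} <
        p * Nat.card {g : M // g ∈ K' ∧ ∀ x ∈ P ⊓ K', g * x * g⁻¹ * x⁻¹ ∈ K})) ∨
  ((∀ x ∈ P, ∀ y ∈ P, x * y * x⁻¹ * y⁻¹ ∈ K) ∧ ∀ [_hN : (K.subgroupOf (K' ⊔ P)).Normal],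
    Crt p b ((P.subgroupOf (K' ⊔ P)).map (QuotientGroup.mk' (K.subgroupOf (K' ⊔ P))))) ∨
  ∀ [_hN : (K.subgroupOf (K' ⊔ P)).Normal],
    CrtF p ((P.subgroupOf (K' ⊔ P)).map (QuotientGroup.mk' (K.subgroupOf (K' ⊔ P))))

end Pool.Agent.Lib.MP_1aae89_al.W4
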